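import Mathlib
import Pool.Agent.N969.P17G.Defs2

/-!
# Criteria for minimal 2-Selmer groups of the twists of `X_0(15)` and `X_0(21)` (helper972)

All criteria are statements about the Rédei matrix `LLP A` (positive discriminants `A`) or `LL n`
(negative discriminants `-n`): rows are the ramified primes `p`, columns the prime discriminants
`q*`, entry `(q* / p)` written additively, row sums zero.  All are verified numerically against the
central values (odd and even discriminants).

* level 15: `(+;-1,-1)`, `(+;-1,0)`: `CY (-3)`; `(+;1,1)`, `(+;0,1)`: `CY 5`; `(-;-1,1)`: `CM (-3) 5`;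
  the other negative classes of root number `+1`: `Qc` / `Qe`.
* level 21: `(+;-1,-1)`, `(+;0,-1)`: `CY (-7)`; `(+;1,1)`, `(+;1,0)`: `C21`; `(-;1,-1)`: `CM (-7) 3`;
  the other negative classes of root number `+1`: `Qc` / `Qe`.
-/

set_option autoImplicit false

namespace Pool.Agent.N972.GC

open Finset
open Pool.Agent.N972.P17 (LL ls)
open Pool.Agent.N969.P17G (LLP alP)

noncomputable section

/-- the Kronecker symbol `(s / p)`, written additively (`1` if the symbol is not `1`) -/
def kr (s : ℤ) (p : ℕ) : ZMod 2 :=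
  if p = 2 then (if s % 8 = 1 ∨ s % 8 = 7 then 0 else 1) else (if jacobiSym s p = 1 then 0 else 1)

/-- the criterion of a positive discriminant with the functional of `s`: the matrix `(L | ρ)` has
rank the number of primes -/
def CY (s : ℤ) (A : ℕ) : Prop := ∀ (x : ℕ → ZMod 2) (a : ZMod 2),
  (∀ p ∈ A.primeFactors, ∑ q ∈ A.primeFactors, LLP A p q * x q = a * kr s p) →
  a = 0 ∧ ∀ p ∈ A.primeFactors, ∀ q ∈ A.primeFactors, x p = x q

/-- the criterion of a negative discriminant with the functionals of `s` and of the prime `r` -/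
def CM (s : ℤ) (r n : ℕ) : Prop := ∀ x : ℕ → ZMod 2,
  (∀ p ∈ n.primeFactors, ∑ q ∈ n.primeFactors, LL n p q * x q =
    (∑ q ∈ n.primeFactors, ls n q r * x q) * kr s p) →
  ∀ p ∈ n.primeFactors, ∀ q ∈ n.primeFactors, x p = x q

/-- the functional of `-7` -/
def k7 (p : ℕ) : ZMod 2 := if p = 7 then 0 else kr (-7) p

/-- the vertex of the prime discriminant `-4` -/
def v4 (A p : ℕ) : Prop := p = 2 ∧ A % 16 = 12

open Classical in
/-- the functional of `-3`, zero at the vertex of `-4` -/
def g3 (A p : ℕ) : ZMod 2 := if v4 A p then 0 else kr (-3) p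

open Classical in
/-- the indicator of the vertex of `-4` -/
def d4 (A p : ℕ) : ZMod 2 := if v4 A p then 1 else 0

open Classical in
/-- the alternating form -/
def Lam (A p q : ℕ) : ZMod 2 := if p = q then 0 else if v4 A p then LLP A 2 q
  else if v4 A q then LLP A 2 p else alP A p * alP A q + k7 p * k7 q

/-- the criterion of the classes `(+;1,1)`, `(+;1,0)` of level `21`: the alternating matrix with the
blocks `Lam`, `LLP`, `g3`, `d4` has corank one -/
def C21 (A : ℕ) : Prop := ∀ (x X : ℕ → ZMod 2) (e : ZMod 2),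
  (∀ p ∈ A.primeFactors, ∑ q ∈ A.primeFactors, LLP A p q * x q +
    ∑ q ∈ A.primeFactors, Lam A p q * X q + e * d4 A p = 0) →
  (∀ q ∈ A.primeFactors, ∑ p ∈ A.primeFactors, LLP A p q * X p + e * g3 A q = 0) →
  ∑ p ∈ A.primeFactors, g3 A p * x p + ∑ p ∈ A.primeFactors, d4 A p * X p = 0 →
  (∀ p ∈ A.primeFactors, X p = 0) ∧ e = 0 ∧
    ∀ p ∈ A.primeFactors, ∀ q ∈ A.primeFactors, x p = x q

end

end Pool.Agent.N972.GC
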