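import Pool.Agent.N972.GC.Ar
import Pool.Agent.N973.P15G.Defs2

/-!
# The identities of the criteria at level `15` (helper972)
-/

set_option autoImplicit false
set_option linter.unusedSectionVars false

open Finset

namespace Pool.Agent.N972.GC

open Pool.Agent.N855.P17
open Pool.Agent.N972.F2
open Pool.Agent.N972.P17 (ls al LL)
open Pool.Agent.N969.P15 (Qc Qe Ev)
open Pool.Agent.N969.RQ (Fd ud)
open Pool.Agent.N973.P15G (Ps Ng Aii Aio Ass N15 N3 Nis Nsi)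

/-! ### residues and symbols -/

theorem j3 (a : ℤ) : (jacobiSym a 3 = 1 ↔ a % 3 = 1) ∧ (jacobiSym a 3 = -1 ↔ a % 3 = 2) := by
  have h : a % 3 = 0 ∨ a % 3 = 1 ∨ a % 3 = 2 := by omega
  rw [jacobiSym.mod_left]
  rcases h with h | h | h
  · rw [show ((3 : ℕ) : ℤ) = 3 from rfl, h]
    norm_num
  · rw [show ((3 : ℕ) : ℤ) = 3 from rfl, h]
    norm_num
  · rw [show ((3 : ℕ) : ℤ) = 3 from rfl, h]
    norm_num

theorem j5 (a : ℤ) : (jacobiSym a 5 = 1 ↔ a % 5 = 1 ∨ a % 5 = 4) ∧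
    (jacobiSym a 5 = -1 ↔ a % 5 = 2 ∨ a % 5 = 3) := by
  have h : a % 5 = 0 ∨ a % 5 = 1 ∨ a % 5 = 2 ∨ a % 5 = 3 ∨ a % 5 = 4 := by omega
  rw [jacobiSym.mod_left]
  rcases h with h | h | h | h | h <;> rw [show ((5 : ℕ) : ℤ) = 5 from rfl, h] <;> norm_num

theorem j7 (a : ℤ) : (jacobiSym a 7 = 1 ↔ a % 7 = 1 ∨ a % 7 = 2 ∨ a % 7 = 4) ∧
    (jacobiSym a 7 = -1 ↔ a % 7 = 3 ∨ a % 7 = 5 ∨ a % 7 = 6) := by
  have h : a % 7 = 0 ∨ a % 7 = 1 ∨ a % 7 = 2 ∨ a % 7 = 3 ∨ a % 7 = 4 ∨ a % 7 = 5 ∨ a % 7 = 6 := by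
    omega
  rw [jacobiSym.mod_left]
  rcases h with h | h | h | h | h | h | h <;>
    rw [show ((7 : ℕ) : ℤ) = 7 from rfl, h] <;> norm_num

/-- the symbol of a positive discriminant -/
theorem typ_pos (n0 : ℕ) {T : Finset ℕ} (hT : ∀ p ∈ T, p.Prime) {r : ℕ} (hr : r.Prime)
    (hr2 : r ≠ 2) (hrT : r ∉ T) (ha : ∑ q ∈ T, al n0 q = 0) :
    (jacobiSym (NT n0 T : ℕ) r = 1 ↔ ∑ q ∈ T, ls n0 q r = 0) ∧
    (jacobiSym (NT n0 T : ℕ) r = -1 ↔ ∑ q ∈ T, ls n0 q r = 1) := by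
  have h := typ n0 hT hr hr2 hrT
  rw [if_pos ha, one_mul] at h
  rw [h]
  rcases z01 (∑ q ∈ T, ls n0 q r) with h1 | h1
  · rw [h1]; decide
  · rw [h1]; decide

/-- the symbol of a negative discriminant -/
theorem typ_neg (n0 : ℕ) {T : Finset ℕ} (hT : ∀ p ∈ T, p.Prime) {r : ℕ} (hr : r.Prime)
    (hr2 : r ≠ 2) (hrT : r ∉ T) (ha : ∑ q ∈ T, al n0 q = 1) :
    (jacobiSym (-((NT n0 T : ℕ) : ℤ)) r = 1 ↔ ∑ q ∈ T, ls n0 q r = 0) ∧
    (jacobiSym (-((NT n0 T : ℕ) : ℤ)) r = -1 ↔ ∑ q ∈ T, ls n0 q r = 1) := by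
  have h := typ n0 hT hr hr2 hrT
  rw [ha, if_neg one_ne_zero, neg_one_mul] at h
  rw [h]
  rcases z01 (∑ q ∈ T, ls n0 q r) with h1 | h1
  · rw [h1]; decide
  · rw [h1]; decide

theorem Ps_Fd (A : ℕ) : Ps A ↔ Fd A := by
  constructor
  · rintro (⟨h1, h2, h3⟩ | ⟨M, h1, h2, h3⟩)
    · exact ⟨h3, Or.inl ⟨h1, h2⟩⟩
    · exact ⟨by omega, Or.inr ⟨M, h1, h2, h3⟩⟩
  · rintro ⟨h3, ⟨h1, h2⟩ | h⟩
    · exact Or.inl ⟨h1, h2, h3⟩
    · exact Or.inr h

theorem QQ_iff (n : ℕ) : QQ n ↔ ((Qc n ∧ ¬ 2 ∣ n) ∨ (Qe n ∧ 2 ∣ n)) := by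
  unfold QQ
  by_cases h : 2 ∣ n
  · rw [if_pos h]
    constructor
    · intro h1; exact Or.inr ⟨h1, h⟩
    · rintro (h1 | h1)
      · exact absurd h h1.2
      · exact h1.1
  · rw [if_neg h]
    constructor
    · intro h1; exact Or.inl ⟨h1, h⟩
    · rintro (h1 | h1)
      · exact h1.1
      · exact absurd h1.2 h

/-! ### a set of primes with a distinguished vertex -/

theorem al_three (n0 : ℕ) : al n0 3 = 1 := by
  rw [al_odd n0 Nat.prime_three (by norm_num)]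
  rfl

theorem al_five (n0 : ℕ) : al n0 5 = 0 := by
  rw [al_odd n0 Nat.prime_five (by norm_num)]
  rfl

theorem al_seven (n0 : ℕ) : al n0 7 = 1 := by
  rw [al_odd n0 (by norm_num) (by norm_num)]
  rfl

theorem ls35 (n0 : ℕ) : ls n0 3 5 = 1 ∧ ls n0 5 3 = 1 := by
  rw [ls_odd n0 (by norm_num), ls_odd n0 (by norm_num), star_odd n0 (by norm_num),
    star_odd n0 (by norm_num), if_neg (by norm_num : ¬ 3 % 4 = 1), if_pos (by norm_num : 5 % 4 = 1)]
  constructor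
  · norm_num
  · norm_num

/-- the value of the functional on a set -/
theorem sm_rh (n0 : ℕ) {T : Finset ℕ} (hT : ∀ p ∈ T, p.Prime) {r : ℕ} (hr : r.Prime)
    (hr2 : r ≠ 2) (hrT : r ∉ T) {s : ℤ} (hs : ∀ p, kr s p = ls n0 r p) :
    ∑ q ∈ T, ls n0 q r = sm (rh n0 s) T + al n0 r * ∑ q ∈ T, al n0 q := by
  unfold sm
  rw [mul_sum, ← sum_add_distrib]
  refine sum_congr rfl fun q hq => ?_
  exact ls_rh n0 hr hr2 (hT q hq) (fun h => hrT (h ▸ hq)) hs

/-- the value at the vertex of `-4` -/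
theorem kr_ad (n0 : ℕ) {s : ℤ} (h4 : Pool.Agent.N972.P17.star n0 2 = -4) (hs : kr s 2 = 1) (p : ℕ) :
    kr s p = ad (rh n0 s) 2 p := by
  unfold ad rh
  by_cases h : p = 2
  · subst h
    rw [if_pos ⟨rfl, h4⟩, if_pos rfl, hs, zero_add]
  · rw [if_neg fun h' => h h'.1, if_neg h, add_zero]

theorem kr_rh (n0 : ℕ) {s : ℤ} {T : Finset ℕ}
    (h : ¬ (2 ∈ T ∧ Pool.Agent.N972.P17.star n0 2 = -4)) : ∀ p ∈ T, kr s p = rh n0 s p := by
  intro p hp
  unfold rh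
  rw [if_neg]
  rintro ⟨rfl, h4⟩
  exact h ⟨hp, h4⟩

/-- **identity (C)** for the vertex `3`, functional of the vertex `5` -/
theorem idC15 (n0 : ℕ) {D : Finset ℕ} (hD : ∀ p ∈ D, p.Prime) (h3 : 3 ∉ D) (h5 : 5 ∈ D)
    (hal : sm (ap n0) D = 0) {ε : ℕ → ZMod 2} (hε : ∀ p ∈ D, p ≠ 5 → ε p = ls n0 p 5)
    (hεD : sm ε D = 1) :
    ∑ a ∈ D.powerset, sm ε a * (if sm (ap n0) a = 0 ∧ sm (rh n0 (-3)) a = 1 then
      Yd (lp n0) (kr (-3)) a else 0) * T1 (lp n0) (ap n0) (kq n0) (insert 3 (D \ a)) =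
      T1 (lp n0) (ap n0) (kq n0) (insert 3 D) := by
  have hl : ∀ i ∈ D, lp n0 i 3 = kr (-3) i := by
    intro i hi
    rw [lp_of (hD i hi) Nat.prime_three, kr_three n0]
  have hals : ap n0 3 = 1 := by rw [ap_of Nat.prime_three, al_three]
  by_cases h : 2 ∈ D ∧ Pool.Agent.N972.P17.star n0 2 = -4
  · obtain ⟨h2, h4⟩ := h
    have hkr2 : kr (-3) 2 = 1 := by
      unfold kr
      rw [if_pos rfl, if_neg (by norm_num)]
    have hkf : kr (-3) = ad (rh n0 (-3)) 2 := funext (kr_ad n0 h4 hkr2)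
    -- the functional with the value zero at `2`
    have hε2 : ε 2 = 0 := by
      rw [hε 2 h2 (by norm_num), ls_odd n0 (by norm_num), h4]
      norm_num
    rw [hkf]
    refine idC2 (hk n0) (t := 2) ?_ ?_ ?_ ?_ ?_ hε2 (s := 3) (v := 5) h2 h3 (by norm_num) hals
      (fun i hi => by rw [hl i hi, hkf]) hal h5 (by norm_num) ?_ ?_ ?_ hεD ?_
    · rw [ap_of Nat.prime_two, al_star n0 h4]
    · exact if_pos ⟨rfl, h4⟩
    · exact fun i hi => kq_odd hi
    · intro i hi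
      unfold lp ap
      by_cases hip : i.Prime
      · rw [if_pos ⟨hip, Nat.prime_two⟩, if_pos hip]
        exact ls_m4 h4 hip hi
      · rw [if_neg fun h => hip h.1, if_neg hip]
    · exact if_pos ⟨rfl, h4⟩
    · intro p hp hp5 hp2
      have hpp := hD p hp
      rw [hε p hp hp5, lp_of hpp Nat.prime_five]
      have h6 := recip' n0 Nat.prime_five hpp (Ne.symm hp5) (Or.inl ⟨by norm_num, hp2⟩)
      rw [al_five, zero_mul] at h6
      exact eq_of_add h6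
    · intro p hp hp5 hp2
      have hpp := hD p hp
      rw [lp_of hpp Nat.prime_five, lp_of Nat.prime_five hpp]
      have h6 := recip' n0 Nat.prime_five hpp (Ne.symm hp5) (Or.inl ⟨by norm_num, hp2⟩)
      rw [al_five, zero_mul] at h6
      exact eq_of_add h6
    · rw [lp_of Nat.prime_five Nat.prime_three]
      exact (ls35 n0).1
    · rw [lp_of Nat.prime_three Nat.prime_five]
      exact (ls35 n0).2
  · have hkrh := kr_rh n0 (s := -3) h
    have h1 := idC0 (hk n0) (ρ := rh n0 (-3)) (rh_sup n0 (-3)) ε (s := 3) (D := D) h3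
      (kq_odd (by norm_num)) hals (fun i hi => by rw [hl i hi, hkrh i hi]) hal
    rw [hεD, one_mul] at h1
    rw [← h1]
    refine sum_congr rfl fun a ha => ?_
    rw [mem_powerset] at ha
    unfold kk
    rw [Yd_congr (lp n0) fun p hp => hkrh p (ha hp)]

/-! ### the relation for `15 ∣ n` -/

/-- the classes -/
theorem cls15 (n0 : ℕ) {P E : Finset ℕ} (hP : ∀ p ∈ P, p.Prime) (h3 : 3 ∈ P) (h5 : 5 ∈ P)
    (ha : ∑ p ∈ P, al n0 p = 1) (hE : E ⊆ P) {ε : ℕ → ZMod 2}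
    (hε : ∀ p ∈ P.erase 3, p ≠ 5 → ε p = ls n0 p 5) (hεD : sm ε (P.erase 3) = 1) :
    ((Aii (NT n0 E) ∧ N15 (NT n0 (P \ E))) ∨ (Aio (NT n0 E) ∧ N3 (NT n0 (P \ E)))) ↔
      (3 ∉ E ∧ ∑ p ∈ E, al n0 p = 0 ∧ sm (rh n0 (-3)) E = 1 ∧ sm ε E = 1) := by
  have hEp : ∀ p ∈ E, p.Prime := fun p hp => hP p (hE hp)
  have hEp' : ∀ p ∈ P \ E, p.Prime := fun p hp => hP p (mem_sdiff.1 hp).1
  have p3 : Nat.Prime 3 := Nat.prime_three
  have p5 : Nat.Prime 5 := Nat.prime_five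
  set A := NT n0 E with hA
  set m := NT n0 (P \ E) with hm
  -- the symbols at `3`
  have k3 : 3 ∉ E → ∑ p ∈ E, al n0 p = 0 → (A % 3 = 2 ↔ sm (rh n0 (-3)) E = 1) := by
    intro h3E hal
    have h1 := (typ_pos n0 hEp p3 (by norm_num) h3E hal).2
    rw [sm_rh n0 hEp p3 (by norm_num) h3E (kr_three n0), hal, mul_zero, add_zero, (j3 _).2] at h1
    rw [← h1]
    omega
  -- the functional at the sets without `5`
  have e5 : 3 ∉ E → 5 ∉ E → sm ε E = ∑ q ∈ E, ls n0 q 5 := by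
    intro h3E h5E
    refine sum_congr rfl fun q hq => ?_
    exact hε q (mem_erase.2 ⟨fun h => h3E (h ▸ hq), hE hq⟩) fun h => h5E (h ▸ hq)
  -- the functional at the sets with `5`
  have e5' : 3 ∉ E → 5 ∈ E → sm ε E = 1 + ∑ q ∈ P \ E, ls n0 q 5 + 1 := by
    intro h3E h5E
    have h1 : E ⊆ P.erase 3 := fun x hx => mem_erase.2 ⟨fun h => h3E (h ▸ hx), hE hx⟩
    have h2 : sm ε (P.erase 3 \ E) = sm ε (P.erase 3) + sm ε E := sm_sdiff ε h1
    have h3' : P \ E = insert 3 (P.erase 3 \ E) := by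
      rw [← insert_sdiff_of_notMem _ h3E, insert_erase h3]
    have h4 : 3 ∉ P.erase 3 \ E := fun h => (notMem_erase 3 P) (mem_sdiff.1 h).1
    have h6 : ∑ q ∈ P.erase 3 \ E, ls n0 q 5 = sm ε (P.erase 3 \ E) := by
      refine sum_congr rfl fun q hq => ?_
      exact (hε q (mem_sdiff.1 hq).1 fun h => (mem_sdiff.1 hq).2 (h ▸ h5E)).symm
    rw [h3', sum_insert h4, (ls35 n0).1, h6, h2, hεD]
    have : ∀ u : ZMod 2, u = 1 + (1 + (1 + u)) + 1 := by decide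
    exact this _
  have pa : ∑ p ∈ E, al n0 p = 0 → ∑ p ∈ P \ E, al n0 p = 1 := by
    intro h
    rw [par_sdiff hE, ha, h, add_zero]
  constructor
  · rintro (⟨⟨h1, h2, h4⟩, ⟨h6, h7⟩⟩ | ⟨⟨h1, h2, h4⟩, ⟨h6, h7, h8⟩⟩)
    · have h3E : 3 ∉ E := by
        intro h
        have := (dvd_NT n0 hEp p3).2 h
        rw [← hA] at this
        omega
      have h5E : 5 ∉ E := by
        intro h
        have := (dvd_NT n0 hEp p5).2 h
        rw [← hA] at this
        omega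
      have hal := pair_al n0 hP hE ha ((Ps_Fd _).1 h1) h6
      refine ⟨h3E, hal, (k3 h3E hal).1 h2, ?_⟩
      rw [e5 h3E h5E]
      refine (typ_pos n0 hEp p5 (by norm_num) h5E hal).2.1 ?_
      rw [(j5 _).2]
      omega
    · have h3E : 3 ∉ E := by
        intro h
        have := (dvd_NT n0 hEp p3).2 h
        rw [← hA] at this
        omega
      have h5E : 5 ∈ E := (dvd_NT n0 hEp p5).1 h4
      have h5E' : 5 ∉ P \ E := fun h => (mem_sdiff.1 h).2 h5E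
      have hal := pair_al n0 hP hE ha ((Ps_Fd _).1 h1) h6
      refine ⟨h3E, hal, (k3 h3E hal).1 h2, ?_⟩
      have h9 : ∑ q ∈ P \ E, ls n0 q 5 = 1 := by
        refine (typ_neg n0 hEp' p5 (by norm_num) h5E' (pa hal)).2.1 ?_
        rw [(j5 _).2, ← hm]
        omega
      rw [e5' h3E h5E, h9]
      decide
  · rintro ⟨h3E, hal, h2, h4⟩
    have hne : E.Nonempty := by
      rw [nonempty_iff_ne_empty]
      rintro rfl
      rw [sm_empty] at h2
      exact zero_ne_one h2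
    have hFd : Ps A := (Ps_Fd _).2 (NT_Fd n0 hEp hne hal)
    have hFn : Ng m := NT_Fn n0 hEp' (pa hal)
    have h3m : 3 ∣ m := (dvd_NT n0 hEp' p3).2 (mem_sdiff.2 ⟨h3, h3E⟩)
    by_cases h5E : 5 ∈ E
    · right
      have h5E' : 5 ∉ P \ E := fun h => (mem_sdiff.1 h).2 h5E
      refine ⟨⟨hFd, (k3 h3E hal).2 h2, (dvd_NT n0 hEp p5).2 h5E⟩, hFn, h3m, ?_⟩
      rw [e5' h3E h5E] at h4
      have h9 : ∑ q ∈ P \ E, ls n0 q 5 = 1 := by
        have : ∀ u : ZMod 2, 1 + u + 1 = 1 → u = 1 := by decide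
        exact this _ h4
      have h10 := (typ_neg n0 hEp' p5 (by norm_num) h5E' (pa hal)).2.2 h9
      rw [(j5 _).2, ← hm] at h10
      omega
    · left
      have h5m : 5 ∣ m := (dvd_NT n0 hEp' p5).2 (mem_sdiff.2 ⟨h5, h5E⟩)
      rw [e5 h3E h5E] at h4
      have h10 := (typ_pos n0 hEp p5 (by norm_num) h5E hal).2.2 h4
      rw [(j5 _).2, ← hA] at h10
      refine ⟨⟨hFd, (k3 h3E hal).2 h2, by omega⟩, hFn, ?_⟩
      omega

/-- a sum over the unitary divisors as a sum over the sets of primes -/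
theorem card_ud {n : ℕ} (hn : NT n n.primeFactors = n) (p : ℕ → Prop) [DecidablePred p] :
    ((((ud n).filter p).card : ℕ) : ZMod 2) =
      ∑ E ∈ n.primeFactors.powerset, ind (p (NT n E)) := by
  rw [card_ind]
  have h := ud_sum n (P := n.primeFactors) (fun p hp => Nat.prime_of_mem_primeFactors hp)
    fun A => ind (p A)
  rw [hn] at h
  exact h

theorem filter_ud {n : ℕ} (p : ℕ → Prop) [DecidablePred p]
    [DecidablePred fun A => Nat.Coprime A (n / A) ∧ p A] :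
    n.divisors.filter (fun A => Nat.Coprime A (n / A) ∧ p A) = (ud n).filter p := by
  ext x
  unfold ud
  simp only [mem_filter]
  tauto

open Classical in
/-- **the relation for `15 ∣ n`** -/
theorem z15 {n : ℕ} (hn : N15 n) : QQ n ↔ Odd (((ud n).filter fun A =>
    ((Aii A ∧ N15 (n / A)) ∨ (Aio A ∧ N3 (n / A))) ∧ CY (-3) A ∧ QQ (n / A)).card) := by
  obtain ⟨hFn, h15⟩ := hn
  obtain ⟨hN, ha⟩ := Fn_NT hFn
  set P := n.primeFactors with hP
  have hPp : ∀ p ∈ P, p.Prime := fun p hp => Nat.prime_of_mem_primeFactors hp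
  have hn0 : n ≠ 0 := by
    rintro rfl
    rcases hFn with h | ⟨m, hm, hs, _⟩
    · exact absurd h.1 (by simp)
    · have : m = 0 := by omega
      rw [this] at hs
      exact absurd hs (by simp)
  have h3 : 3 ∈ P := Nat.mem_primeFactors.2 ⟨Nat.prime_three, by omega, hn0⟩
  have h5 : 5 ∈ P := Nat.mem_primeFactors.2 ⟨Nat.prime_five, by omega, hn0⟩
  set D := P.erase 3 with hD
  have h3D : 3 ∉ D := notMem_erase 3 P
  have hDP : insert 3 D = P := insert_erase h3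
  have hDp : ∀ p ∈ D, p.Prime := fun p hp => hPp p (mem_of_mem_erase hp)
  have h5D : 5 ∈ D := mem_erase.2 ⟨by norm_num, h5⟩
  have haD : sm (ap n) D = 0 := by
    rw [sm_al n hDp]
    have := sum_insert (f := al n) h3D
    rw [hDP, ha, al_three] at this
    have a1 : ∀ u : ZMod 2, 1 = 1 + u → u = 0 := by decide
    exact a1 _ this
  -- the functional
  set ε : ℕ → ZMod 2 := fun q => if q = 5 then 1 + ∑ q ∈ D.erase 5, ls n q 5 else ls n q 5 with hε
  have hε1 : ∀ p ∈ D, p ≠ 5 → ε p = ls n p 5 := fun p _ hp => if_neg hp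
  have hε2 : sm ε D = 1 := by
    unfold sm
    rw [← add_sum_erase D _ h5D]
    have h6 : ∑ x ∈ D.erase 5, ε x = ∑ q ∈ D.erase 5, ls n q 5 :=
      sum_congr rfl fun q hq => if_neg (ne_of_mem_erase hq)
    have h7 : ε 5 = 1 + ∑ q ∈ D.erase 5, ls n q 5 := if_pos rfl
    rw [h6, h7]
    have : ∀ u : ZMod 2, 1 + u + u = 1 := by decide
    exact this _
  have hid := idC15 n hDp h3D h5D haD hε1 hε2
  -- the left side
  have hno4 : ∀ T : Finset ℕ, (∀ p ∈ T, p.Prime) → 3 ∈ T → NT n T ≠ 4 := by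
    intro T hT h3T h4
    have := (dvd_NT n hT Nat.prime_three).2 h3T
    omega
  have hL : T1 (lp n) (ap n) (kq n) (insert 3 D) = ind (QQ n) := by
    rw [hDP, T1_QQ n hPp (by rw [sm_al n hPp]; exact ha) (hno4 P hPp h3), hN]
  symm
  refine odd_nat ?_
  rw [card_ud hN, ← hP, ← hL, ← hid]
  -- the terms with `3`
  rw [← hDP, sum_powerset_insert h3D]
  have h0 : ∑ E ∈ D.powerset, ind (((Aii (NT n (insert 3 E)) ∧ N15 (n / NT n (insert 3 E))) ∨
      (Aio (NT n (insert 3 E)) ∧ N3 (n / NT n (insert 3 E)))) ∧ CY (-3) (NT n (insert 3 E)) ∧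
        QQ (n / NT n (insert 3 E))) = 0 := by
    refine sum_eq_zero fun E hE => ind_neg ?_
    rintro ⟨h, _⟩
    have hEP : insert 3 E ⊆ P := by
      rw [← hDP]
      exact insert_subset_insert 3 (mem_powerset.1 hE)
    have hq : n / NT n (insert 3 E) = NT n (P \ insert 3 E) := by
      have := NT_quot n hPp hEP
      rwa [hN] at this
    rw [hq, cls15 n hPp h3 h5 ha hEP hε1 hε2] at h
    exact h.1 (mem_insert_self 3 E)
  rw [h0, add_zero]
  refine sum_congr rfl fun E hE => ?_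
  rw [mem_powerset] at hE
  have hEP : E ⊆ P := hE.trans (erase_subset 3 P)
  have hEp : ∀ p ∈ E, p.Prime := fun p hp => hPp p (hEP hp)
  have h3E : 3 ∉ E := fun h => h3D (hE h)
  have hq : n / NT n E = NT n (P \ E) := by
    have := NT_quot n hPp hEP
    rwa [hN] at this
  have hPE : P \ E = insert 3 (D \ E) := by
    rw [← insert_sdiff_of_notMem _ h3E, hDP]
  have hPEp : ∀ p ∈ P \ E, p.Prime := fun p hp => hPp p (mem_sdiff.1 hp).1
  rw [hq]
  by_cases hc : ∑ p ∈ E, al n p = 0 ∧ sm (rh n (-3)) E = 1 ∧ sm ε E = 1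
  · obtain ⟨c1, c2, c3⟩ := hc
    have hne : E.Nonempty := by
      rw [nonempty_iff_ne_empty]
      rintro rfl
      rw [sm_empty] at c2
      exact zero_ne_one c2
    have c1' : sm (ap n) E = 0 := by rw [sm_al n hEp]; exact c1
    have c4 : sm (ap n) (P \ E) = 1 := by
      rw [sm_al n hPEp, par_sdiff hEP, ha, c1, add_zero]
    rw [c3, one_mul, if_pos ⟨c1', c2⟩, Yd_CY n hEp hne c1', ← hPE,
      T1_QQ n hPEp c4 (hno4 _ hPEp (mem_sdiff.2 ⟨h3, h3E⟩))]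
    by_cases h6 : CY (-3) (NT n E)
    · by_cases h7 : QQ (NT n (P \ E))
      · rw [ind_pos h6, ind_pos h7, mul_one]
        exact ind_pos ⟨(cls15 n hPp h3 h5 ha hEP hε1 hε2).2 ⟨h3E, c1, c2, c3⟩, h6, h7⟩
      · rw [ind_neg h7, mul_zero]
        exact ind_neg fun h => h7 h.2.2
    · rw [ind_neg h6, zero_mul]
      exact ind_neg fun h => h6 h.2.1
  · have h6 : ind (((Aii (NT n E) ∧ N15 (NT n (P \ E))) ∨ (Aio (NT n E) ∧ N3 (NT n (P \ E)))) ∧
        CY (-3) (NT n E) ∧ QQ (NT n (P \ E))) = 0 := by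
      refine ind_neg fun h => hc ?_
      have := (cls15 n hPp h3 h5 ha hEP hε1 hε2).1 h.1
      exact this.2
    rw [h6]
    symm
    rcases z01 (sm ε E) with h7 | h7
    · rw [h7]; ring
    · rw [if_neg]
      · ring
      · rintro ⟨h8, h9⟩
        rw [sm_al n hEp] at h8
        exact hc ⟨h8, h9, h7⟩

end Pool.Agent.N972.GC
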