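import Pool.Agent.N972.GC.Sg21e

/-!
# The criteria of the classes of twists of `X_0(21)` and the criterion `Sg21` (helper972)

`mQ A = A` (`A` odd), `A / 4` (`A` even) is the squarefree part of the discriminant.

* `sg21_A`: `Sg21 (mQ A) ↔ CY (-7) A` for `Ai`, `A0`;
* `sg21_R`: `Sg21 (mQ A) ↔ C21 A` for `As` (`= R21`), `R21r`;
* `sg21_Kn`: `Sg21 (-mQ n) ↔ CM (-7) 3 n` for `Kn`;
* `sg21_K`: `Sg21 (-mQ n) ↔ QQ n` for `K0`, `K3`, `K7`, `K21`;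
* `class_of_w21`, `class_of_sg21`: the classes exhaust the twists of root number `+1`.
-/

set_option autoImplicit false

open Finset

namespace Pool.Agent.N972.GC

open Pool.Agent.N875.X15
open Pool.Agent.N875.D15 (mQ mQ_odd mQ_even Ps_FP Ps_pos Ng_mD Ng_pos Ng_PR)
open Pool.Agent.N809.PQ
open Pool.Agent.N973.P15G (Ps Ng)
open Pool.Agent.N969.P15 (Ev)
open Pool.Agent.N969.RQ (Fd R21 R21r)
open Pool.Agent.N877.P21G (Ai A0 As Kn K0 K3 K7 K21 Fn I7)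
open Pool.Agent.N877.P21 (Sp7 Cls0 Cls0e Cl3 Cl3e Cl7 Cl7e Cl21 Cl21e)

/-- **`Ai` and `A0`** -/
theorem sg21_A {A : ℕ} (h : Ai A ∨ A0 A) : Sg21 (mQ A : ℤ) ↔ CY (-7) A := by
  have hF : Fd A := by rcases h with h | h <;> exact h.1
  have hP := Fd_Ps hF
  have h7 : jacobiSym A 7 = -1 := by rcases h with h | h <;> exact h.2.2
  rw [jac7.2] at h7
  obtain ⟨m3, m7⟩ := mQ_mod (Or.inl hP)
  have c3 : ¬ C3 (mQ A : ℤ) := by
    unfold C3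
    have : A % 3 ≠ 1 := by
      rcases h with h | h
      · have := h.2.1
        omega
      · have := h.2.1
        omega
    omega
  have c7 : C7 (mQ A : ℤ) := by
    unfold C7
    omega
  have h1 := Fd_ne_one hP
  rw [CY7_iff hP]
  exact ⟨cy7_of_sg (Ps_sqf hP) (Ps_pos hP) c3 c7, sg_of_cy7 (Ps_sqf hP) (Ps_pos hP) h1 c3 c7⟩

/-- **`As` and `R21r`** -/
theorem sg21_R {A : ℕ} (h : As A ∨ R21r A) : Sg21 (mQ A : ℤ) ↔ C21 A := by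
  have hF : Fd A := by rcases h with h | h <;> exact h.1
  have hP := Fd_Ps hF
  have h3 : A % 3 = 1 := by rcases h with h | h <;> exact h.2.1
  have h7 : A % 7 = 0 ∨ (A % 7 = 1 ∨ A % 7 = 2 ∨ A % 7 = 4) := by
    rcases h with h | h
    · exact Or.inr (jac7.1.1 h.2.2)
    · left
      have := h.2.2
      omega
  obtain ⟨m3, m7⟩ := mQ_mod (Or.inl hP)
  have c3 : C3 (mQ A : ℤ) := by
    unfold C3
    omega
  have c7 : ¬ C7 (mQ A : ℤ) := by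
    unfold C7
    omega
  rw [C21_iff hP]
  exact c21m_iff (Ps_sqf hP) (Ps_pos hP) c3 c7 (Fd_ne_one hP)

/-- **`R21` and `R21r`** -/
theorem sg21_R' {A : ℕ} (h : R21 A ∨ R21r A) : Sg21 (mQ A : ℤ) ↔ C21 A := sg21_R h

/-- **`Kn`** -/
theorem sg21_Kn {n : ℕ} (h : Kn n) : Sg21 (-(mQ n : ℤ)) ↔ CM (-7) 3 n := by
  have hN : Ng n := h.1
  have h3 := h.2.1
  have h7 := h.2.2
  unfold I7 at h7
  obtain ⟨m3, m7⟩ := mQ_mod (Or.inr hN)
  have hp := Ng_pos hN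
  have c3 : C3 (-(mQ n : ℤ)) := by
    unfold C3
    omega
  have c7 : C7 (-(mQ n : ℤ)) := by
    unfold C7
    omega
  rw [CM73_iff hN]
  exact ⟨cm73_of_sg (Ng_sqf hN) (by omega) c3 c7, sg_of_cm73 (Ng_sqf hN) (by omega) c3 c7⟩

lemma K_cases {n : ℕ} : (K0 n ∨ K3 n ∨ K7 n ∨ K21 n) ↔
    Ng n ∧ (n % 3 = 1 ∨ 3 ∣ n) ∧ (Sp7 n ∨ 7 ∣ n) := by
  unfold K0 K3 K7 K21 Cls0 Cls0e Cl3 Cl3e Cl7 Cl7e Cl21 Cl21e Ng
  tauto

/-- **`K0`, `K3`, `K7` and `K21`** -/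
theorem sg21_K {n : ℕ} (h : K0 n ∨ K3 n ∨ K7 n ∨ K21 n) : Sg21 (-(mQ n : ℤ)) ↔ QQ n := by
  obtain ⟨hN, h3, h7⟩ := K_cases.1 h
  unfold Sp7 at h7
  obtain ⟨m3, m7⟩ := mQ_mod (Or.inr hN)
  have hp := Ng_pos hN
  have c3 : ¬ C3 (-(mQ n : ℤ)) := by
    unfold C3
    omega
  have c7 : ¬ C7 (-(mQ n : ℤ)) := by
    unfold C7
    omega
  rw [Ct_iff hN (by omega)]
  exact ⟨ct_of_sg (Ng_sqf hN) (by omega) c3, sg_of_ct (Ng_sqf hN) (by omega) c3 c7⟩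

/-! ### the classes -/

lemma not4 {m : ℤ} (hs : Squarefree m) : ¬ 4 ∣ m := by
  intro h
  have h1 := hs 2 (by norm_num; exact h)
  exact absurd (Int.isUnit_iff.1 h1) (by norm_num)

lemma ex_pos {m : ℤ} (hs : Squarefree m) (h1 : m ≠ 1) (hm : 0 < m) :
    ∃ A : ℕ, Fd A ∧ m = mQ A := by
  have hs' : Squarefree m.natAbs := Int.squarefree_natAbs.2 hs
  have h4 : ¬ 4 ∣ m := not4 hs
  by_cases h : m % 4 = 1
  · refine ⟨m.natAbs, ⟨by omega, Or.inl ⟨hs', by omega⟩⟩, ?_⟩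
    rw [mQ_odd (by omega)]
    omega
  · refine ⟨4 * m.natAbs, ⟨by omega, Or.inr ⟨m.natAbs, rfl, hs', by omega⟩⟩, ?_⟩
    rw [mQ_even (by omega)]
    omega

lemma ex_neg {m : ℤ} (hs : Squarefree m) (hm : m < 0) :
    ∃ n : ℕ, Ng n ∧ m = -(mQ n : ℤ) := by
  have hs' : Squarefree m.natAbs := Int.squarefree_natAbs.2 hs
  have h4 : ¬ 4 ∣ m := not4 hs
  by_cases h : m % 4 = 1
  · refine ⟨m.natAbs, Or.inl ⟨hs', by omega⟩, ?_⟩
    rw [mQ_odd (by omega)]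
    omega
  · refine ⟨4 * m.natAbs, Or.inr ⟨m.natAbs, rfl, hs', by omega⟩, ?_⟩
    rw [mQ_even (by omega)]
    omega

/-- **the classes of root number `+1`** -/
theorem class_of_w21 {m : ℤ} (hs : Squarefree m) (h1 : m ≠ 1) (hw : w21 m = 1) :
    (∃ A : ℕ, m = mQ A ∧ ((Ai A ∨ A0 A) ∨ (As A ∨ R21r A))) ∨
    ∃ n : ℕ, m = -(mQ n : ℤ) ∧ (Kn n ∨ (K0 n ∨ K3 n ∨ K7 n ∨ K21 n)) := by
  unfold w21 at hw
  rcases lt_or_gt_of_ne hs.ne_zero with hm | hm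
  · right
    obtain ⟨n, hn, rfl⟩ := ex_neg hs hm
    refine ⟨n, rfl, ?_⟩
    obtain ⟨m3, m7⟩ := mQ_mod (Or.inr hn)
    rw [if_pos hm] at hw
    rw [K_cases]
    unfold Kn Sp7 I7
    by_cases c3 : (-(mQ n : ℤ)) % 3 = 1
    · rw [if_pos c3] at hw
      by_cases c7 : (-(mQ n : ℤ)) % 7 = 3 ∨ (-(mQ n : ℤ)) % 7 = 5 ∨ (-(mQ n : ℤ)) % 7 = 6
      · left
        exact ⟨hn, by omega, by omega⟩
      · rw [if_neg c7] at hw
        exact absurd hw (by norm_num)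
    · rw [if_neg c3] at hw
      by_cases c7 : (-(mQ n : ℤ)) % 7 = 3 ∨ (-(mQ n : ℤ)) % 7 = 5 ∨ (-(mQ n : ℤ)) % 7 = 6
      · rw [if_pos c7] at hw
        exact absurd hw (by norm_num)
      · right
        refine ⟨hn, by omega, ?_⟩
        have := Ng_pos hn
        omega
  · left
    obtain ⟨A, hA, rfl⟩ := ex_pos hs h1 hm
    refine ⟨A, rfl, ?_⟩
    obtain ⟨m3, m7⟩ := mQ_mod (Or.inl (Fd_Ps hA))
    rw [if_neg (by omega)] at hw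
    unfold Ai A0 As R21r
    rw [jac7.1, jac7.2]
    by_cases c3 : (mQ A : ℤ) % 3 = 1
    · rw [if_pos c3] at hw
      by_cases c7 : (mQ A : ℤ) % 7 = 3 ∨ (mQ A : ℤ) % 7 = 5 ∨ (mQ A : ℤ) % 7 = 6
      · rw [if_pos c7] at hw
        exact absurd hw (by norm_num)
      · right
        rcases m7 with h | h | h
        · right
          exact ⟨hA, by omega, by omega⟩
        · left
          exact ⟨hA, by omega, by omega⟩
        · exfalso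
          omega
    · rw [if_neg c3] at hw
      by_cases c7 : (mQ A : ℤ) % 7 = 3 ∨ (mQ A : ℤ) % 7 = 5 ∨ (mQ A : ℤ) % 7 = 6
      · left
        rcases (by omega : A % 3 = 2 ∨ 3 ∣ A) with h | h
        · left
          exact ⟨hA, h, by omega⟩
        · right
          exact ⟨hA, h, by omega⟩
      · rw [if_neg c7] at hw
        exact absurd hw (by norm_num)

/-- **all twists**: the class and its criterion -/
theorem class_of_sg21 {m : ℤ} (hs : Squarefree m) (h1 : m ≠ 1) (hS : Sg21 m) :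
    (∃ A : ℕ, m = mQ A ∧ (((Ai A ∨ A0 A) ∧ CY (-7) A) ∨ ((As A ∨ R21r A) ∧ C21 A))) ∨
    ∃ n : ℕ, m = -(mQ n : ℤ) ∧ ((Kn n ∧ CM (-7) 3 n) ∨ ((K0 n ∨ K3 n ∨ K7 n ∨ K21 n) ∧ QQ n)) := by
  rcases class_of_w21 hs h1 (sg21_parity hs h1 hS) with ⟨A, rfl, h | h⟩ | ⟨n, rfl, h | h⟩
  · exact Or.inl ⟨A, rfl, Or.inl ⟨h, (sg21_A h).1 hS⟩⟩
  · exact Or.inl ⟨A, rfl, Or.inr ⟨h, (sg21_R h).1 hS⟩⟩
  · exact Or.inr ⟨n, rfl, Or.inl ⟨h, (sg21_Kn h).1 hS⟩⟩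
  · exact Or.inr ⟨n, rfl, Or.inr ⟨h, (sg21_K h).1 hS⟩⟩

end Pool.Agent.N972.GC
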