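import Pool.Agent.N972.GC.C21

/-!
# The identities of the criterion `C21` (helper972)
-/

set_option autoImplicit false
set_option linter.unusedSectionVars false

open Finset

namespace Pool.Agent.N972.GC

open Pool.Agent.N855.P17
open Pool.Agent.N972.F2
open Pool.Agent.N972.P17 (ls al LL)
open Pool.Agent.N969.P15 (Qc Qe Ev)
open Pool.Agent.N969.P17G (LLP alP lsP starP)
open Pool.Agent.N969.RQ (Fd ud R21 R21r)
open Pool.Agent.N973.P15G (Ps Ng)
open Pool.Agent.N877.P21G (I7 Ai)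
open Pool.Agent.N855.RQp (En7 Ep7 S_ID21 S_ID21r)

theorem NT_four (n0 : ℕ) {E : Finset ℕ} (hE : ∀ p ∈ E, p.Prime) (h : NT n0 E = 4) :
    E = {2} ∧ Pool.Agent.N972.P17.star n0 2 = -4 := by
  have h1 : E = {2} := by
    rw [← NT_pf (n0 := n0) hE, h, show (4 : ℕ) = 2 ^ 2 by norm_num,
      Nat.primeFactors_prime_pow (by norm_num) Nat.prime_two]
  refine ⟨h1, ?_⟩
  rw [h1, NT_in (mem_singleton_self 2)] at h
  have h2 : NN (({2} : Finset ℕ).erase 2) = 1 := by
    simp [NN]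
  rw [h2, mul_one] at h
  rcases star2 n0 with ⟨h3, _, _⟩ | ⟨_, h4, _⟩ | ⟨_, h4, _⟩
  · exact h3
  · rw [h4] at h; norm_num at h
  · rw [h4] at h; norm_num at h

/-- the sign of the discriminants of the two parts -/
theorem al_Fn (n0 : ℕ) {P E : Finset ℕ} (hP : ∀ p ∈ P, p.Prime) (hE : E ⊆ P)
    (ha : ∑ p ∈ P, al n0 p = 0) (h1 : Fn (NT n0 E)) (h2 : Fn (NT n0 (P \ E))) :
    ∑ p ∈ E, al n0 p = 1 := by
  have hEp : ∀ p ∈ E, p.Prime := fun p hp => hP p (hE hp)
  have hEp' : ∀ p ∈ P \ E, p.Prime := fun p hp => hP p (mem_sdiff.1 hp).1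
  have key : ∀ T : Finset ℕ, (∀ p ∈ T, p.Prime) → 2 ∉ T → Fn (NT n0 T) → ∑ p ∈ T, al n0 p = 1 := by
    intro T hT h2T hF
    have h3 : NT n0 T % 4 = 3 := by
      rcases hF with h | h
      · exact h.2
      · obtain ⟨m, hm, _⟩ := h
        exfalso
        apply h2T
        rw [← two_dvd_NT n0 hT, hm]
        exact ⟨2 * m, by ring⟩
    rwa [NT_out h2T, mod3_iff n0 hT h2T] at h3
  by_cases h2E : 2 ∈ E
  · have h4 := key _ hEp' (fun h => (mem_sdiff.1 h).2 h2E) h2
    rw [par_sdiff hE, ha, zero_add] at h4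
    exact h4
  · exact key _ hEp h2E h1

theorem al_Fd (n0 : ℕ) {P E : Finset ℕ} (hP : ∀ p ∈ P, p.Prime) (hE : E ⊆ P)
    (ha : ∑ p ∈ P, al n0 p = 0) (h1 : Fd (NT n0 E)) (h2 : Fd (NT n0 (P \ E))) :
    ∑ p ∈ E, al n0 p = 0 := by
  have hEp : ∀ p ∈ E, p.Prime := fun p hp => hP p (hE hp)
  have hEp' : ∀ p ∈ P \ E, p.Prime := fun p hp => hP p (mem_sdiff.1 hp).1
  have key : ∀ T : Finset ℕ, (∀ p ∈ T, p.Prime) → 2 ∉ T → Fd (NT n0 T) → ∑ p ∈ T, al n0 p = 0 := by
    intro T hT h2T hF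
    have h3 : NT n0 T % 4 = 1 := by
      rcases hF.2 with h | ⟨m, hm, _⟩
      · exact h.2
      · exfalso
        apply h2T
        rw [← two_dvd_NT n0 hT, hm]
        exact ⟨2 * m, by ring⟩
    rwa [NT_out h2T, mod1_iff n0 hT h2T] at h3
  by_cases h2E : 2 ∈ E
  · have h4 := key _ hEp' (fun h => (mem_sdiff.1 h).2 h2E) h2
    rw [par_sdiff hE, ha, zero_add] at h4
    exact h4
  · exact key _ hEp h2E h1

/-- the symbol at `3`, both signs -/
theorem sym3 (n0 : ℕ) {E : Finset ℕ} (hE : ∀ p ∈ E, p.Prime) (h3 : 3 ∉ E) :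
    NT n0 E % 3 = 2 ↔ sm (rh n0 (-3)) E = 1 := by
  have h1 := sm_rh n0 hE Nat.prime_three (by norm_num) h3 (kr_three n0)
  rcases z01 (∑ p ∈ E, al n0 p) with ha | ha
  · have h2 := (typ_pos n0 hE Nat.prime_three (by norm_num) h3 ha).2
    rw [h1, ha, mul_zero, add_zero, (j3 _).2] at h2
    rw [← h2]
    omega
  · have h2 := (typ_neg n0 hE Nat.prime_three (by norm_num) h3 ha).1
    rw [h1, ha, al_three, mul_one, (j3 _).1] at h2
    have h4 : sm (rh n0 (-3)) E + 1 = 0 ↔ sm (rh n0 (-3)) E = 1 := by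
      have : ∀ u : ZMod 2, u + 1 = 0 ↔ u = 1 := by decide
      exact this _
    rw [← h4, ← h2]
    omega

/-- one term of the sum -/
theorem termE (n0 : ℕ) {P : Finset ℕ} (hP : ∀ p ∈ P, p.Prime) (ha : ∑ p ∈ P, al n0 p = 0)
    (h3P : 3 ∉ P) (hγ : sm (rh n0 (-3)) P = 0) {κ : ℕ → ZMod 2}
    (k2 : ∀ E ⊆ P, ∑ p ∈ E, al n0 p = 1 → (((7 ∣ NT n0 E ∨ I7 (NT n0 E)) ∧
      (7 ∣ NT n0 (P \ E) ∨ I7 (NT n0 (P \ E)))) ↔ sm κ E = 0))
    (k3 : ∀ E ⊆ P, ∑ p ∈ E, al n0 p = 0 → sm (rh n0 (-3)) E = 1 →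
      kk (lp n0) (ap n0) κ E * kk (lp n0) (ap n0) κ (P \ E) =
        ind (Ep7 (CY (-7)) (NT n0 P) (NT n0 E)))
    {c : ℕ} (hc2 : Pool.Agent.N972.P17.star n0 2 = -4 → c = 2) {E : Finset ℕ} (hE : E ⊆ P)
    (hcE : c ∈ E) :
    ind (Ep7 (CY (-7)) (NT n0 P) (NT n0 E) ∨ En7 (NT n0 P) (NT n0 E)) =
      sm (rh n0 (-3)) E * ((1 + sm κ E) * (T1 (lp n0) (ap n0) (kq n0) E *
        T1 (lp n0) (ap n0) (kq n0) (P \ E)) +
          kk (lp n0) (ap n0) κ E * kk (lp n0) (ap n0) κ (P \ E)) +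
      if E = {2} ∧ Pool.Agent.N972.P17.star n0 2 = -4 then
        T1 (lp n0) (ap n0) (kq n0) (P.erase 2) else 0 := by
  have hEp : ∀ p ∈ E, p.Prime := fun p hp => hP p (hE hp)
  have hEp' : ∀ p ∈ P \ E, p.Prime := fun p hp => hP p (mem_sdiff.1 hp).1
  have hq : NT n0 P / NT n0 E = NT n0 (P \ E) := NT_quot n0 hP hE
  have h3E : 3 ∉ E := fun h => h3P (hE h)
  have s3 := sym3 n0 hEp h3E
  have halP : ∑ p ∈ P \ E, al n0 p = ∑ p ∈ E, al n0 p := by rw [par_sdiff hE, ha, zero_add]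
  have hEn : En7 (NT n0 P) (NT n0 E) ↔ (Fn (NT n0 E) ∧ Fn (NT n0 (P \ E)) ∧ NT n0 E % 3 = 2 ∧
      (7 ∣ NT n0 E ∨ I7 (NT n0 E)) ∧ (7 ∣ NT n0 (P \ E) ∨ I7 (NT n0 (P \ E))) ∧
      QQ (NT n0 E) ∧ QQ (NT n0 (P \ E))) ∨ (NT n0 E = 4 ∧ QQ (NT n0 (P \ E))) ∨
      (NT n0 (P \ E) = 4 ∧ QQ (NT n0 E)) := by
    unfold Pool.Agent.N855.RQp.En7
    rw [hq]
    rfl
  have al4 : ∀ T : Finset ℕ, (∀ p ∈ T, p.Prime) → NT n0 T = 4 → ∑ p ∈ T, al n0 p = 1 := by
    intro T hT h
    obtain ⟨h1, h2⟩ := NT_four n0 hT h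
    rw [h1, sum_singleton, al_star n0 h2]
  rcases z01 (∑ p ∈ E, al n0 p) with h0 | h1
  · -- positive
    have hEn' : ¬ En7 (NT n0 P) (NT n0 E) := by
      rw [hEn]
      rintro (h | h | h)
      · have := al_Fn n0 hP hE ha h.1 h.2.1
        rw [h0] at this
        exact zero_ne_one this
      · have := al4 E hEp h.1
        rw [h0] at this
        exact zero_ne_one this
      · have := al4 _ hEp' h.1
        rw [halP, h0] at this
        exact zero_ne_one this
    have hno : ¬ (E = {2} ∧ Pool.Agent.N972.P17.star n0 2 = -4) := by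
      rintro ⟨h4, h5⟩
      rw [h4, sum_singleton, al_star n0 h5] at h0
      exact one_ne_zero h0
    have hT : T1 (lp n0) (ap n0) (kq n0) E = 0 := T1_even (by rw [sm_al n0 hEp]; exact h0)
    rw [if_neg hno, hT, zero_mul, mul_zero, zero_add, add_zero]
    have h6 : ind (Ep7 (CY (-7)) (NT n0 P) (NT n0 E) ∨ En7 (NT n0 P) (NT n0 E)) =
        ind (Ep7 (CY (-7)) (NT n0 P) (NT n0 E)) :=
      ind_congr ⟨fun h => h.resolve_right hEn', Or.inl⟩
    rw [h6]
    rcases z01 (sm (rh n0 (-3)) E) with h7 | h7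
    · rw [h7, zero_mul]
      refine ind_neg fun h => ?_
      have h8 := s3.1 h.1.2.1
      rw [h7] at h8
      exact zero_ne_one h8
    · rw [h7, one_mul, k3 E hE h0 h7]
  · -- negative
    have hEp7 : ¬ Ep7 (CY (-7)) (NT n0 P) (NT n0 E) := by
      rintro ⟨h2, h3, _⟩
      rw [hq] at h3
      have := al_Fd n0 hP hE ha h2.1 h3.1
      rw [h1] at this
      exact one_ne_zero this
    have h6 : ind (Ep7 (CY (-7)) (NT n0 P) (NT n0 E) ∨ En7 (NT n0 P) (NT n0 E)) =
        ind (En7 (NT n0 P) (NT n0 E)) := ind_congr ⟨fun h => h.resolve_left hEp7, Or.inr⟩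
    have hkk : kk (lp n0) (ap n0) κ E = 0 := by
      unfold kk
      rw [if_neg]
      rintro ⟨h2, _⟩
      rw [sm_al n0 hEp, h1] at h2
      exact one_ne_zero h2
    rw [h6, hkk, zero_mul, add_zero, ind_congr hEn]
    have hFn : Fn (NT n0 E) := NT_Fn n0 hEp h1
    have hFn' : Fn (NT n0 (P \ E)) := NT_Fn n0 hEp' (halP.trans h1)
    have h1' : sm (ap n0) E = 1 := by rw [sm_al n0 hEp]; exact h1
    have h1'' : sm (ap n0) (P \ E) = 1 := by rw [sm_al n0 hEp']; exact halP.trans h1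
    by_cases h4 : E = {2} ∧ Pool.Agent.N972.P17.star n0 2 = -4
    · obtain ⟨h4, h5⟩ := h4
      have hN4 : NT n0 E = 4 := by
        rw [h4, NT_in (mem_singleton_self 2)]
        have h2 : NN (({2} : Finset ℕ).erase 2) = 1 := by simp [NN]
        rw [h2, mul_one]
        rcases star2 n0 with ⟨_, h11, _⟩ | ⟨h11, _, _⟩ | ⟨h11, _, _⟩
        · exact h11
        · rw [h11] at h5; norm_num at h5
        · rw [h11] at h5; norm_num at h5
      have hPE : P \ E = P.erase 2 := by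
        rw [h4]
        ext x
        simp only [mem_sdiff, mem_singleton, mem_erase]
        tauto
      have h2n : 2 ∉ P \ E := fun h => (mem_sdiff.1 h).2 (by rw [h4]; exact mem_singleton_self 2)
      have hne4 : NT n0 (P \ E) ≠ 4 := by
        intro h
        apply h2n
        rw [← two_dvd_NT n0 hEp', h]
        norm_num
      have hr : sm (rh n0 (-3)) E = 0 := by
        rw [h4]
        unfold sm
        rw [sum_singleton]
        exact if_pos ⟨rfl, h5⟩
      rw [if_pos ⟨h4, h5⟩, hr, zero_mul, zero_add, ← hPE, T1_QQ n0 hEp' h1'' hne4]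
      refine ind_congr ?_
      constructor
      · rintro (h | h | h)
        · have h8 := h.2.2.1
          rw [hN4] at h8
          norm_num at h8
        · exact h.2
        · exact absurd h.1 hne4
      · intro h
        exact Or.inr (Or.inl ⟨hN4, h⟩)
    · have hN4 : NT n0 E ≠ 4 := fun h => h4 (NT_four n0 hEp h)
      have hN4' : NT n0 (P \ E) ≠ 4 := by
        intro h
        obtain ⟨h5, h7⟩ := NT_four n0 hEp' h
        have h8 : 2 ∈ P \ E := by rw [h5]; exact mem_singleton_self 2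
        exact (mem_sdiff.1 h8).2 (hc2 h7 ▸ hcE)
      rw [if_neg h4, add_zero, T1_QQ n0 hEp h1' hN4, T1_QQ n0 hEp' h1'' hN4']
      have hk2 := k2 E hE h1
      by_cases g1 : sm (rh n0 (-3)) E = 1
      · rw [g1, one_mul]
        by_cases g2 : sm κ E = 0
        · rw [g2, add_zero, one_mul]
          by_cases g3 : QQ (NT n0 E)
          · by_cases g4 : QQ (NT n0 (P \ E))
            · rw [ind_pos g3, ind_pos g4, one_mul]
              exact ind_pos (Or.inl ⟨hFn, hFn', s3.2 g1, (hk2.2 g2).1, (hk2.2 g2).2, g3, g4⟩)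
            · rw [ind_neg g4, mul_zero]
              refine ind_neg ?_
              rintro (h | h | h)
              · exact g4 h.2.2.2.2.2.2
              · exact hN4 h.1
              · exact hN4' h.1
          · rw [ind_neg g3, zero_mul]
            refine ind_neg ?_
            rintro (h | h | h)
            · exact g3 h.2.2.2.2.2.1
            · exact hN4 h.1
            · exact hN4' h.1
        · have g2' : sm κ E = 1 := by
            rcases z01 (sm κ E) with h | h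
            · exact absurd h g2
            · exact h
          have h9 : (1 : ZMod 2) + 1 = 0 := by decide
          rw [g2', h9, zero_mul]
          refine ind_neg ?_
          rintro (h | h | h)
          · exact g2 (hk2.1 ⟨h.2.2.2.1, h.2.2.2.2.1⟩)
          · exact hN4 h.1
          · exact hN4' h.1
      · have g1' : sm (rh n0 (-3)) E = 0 := by
          rcases z01 (sm (rh n0 (-3)) E) with h | h
          · exact h
          · exact absurd h g1
        rw [g1', zero_mul]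
        refine ind_neg ?_
        rintro (h | h | h)
        · exact g1 (s3.1 h.2.2.1)
        · exact hN4 h.1
        · exact hN4' h.1

open Classical in
/-- the sum over the divisors -/
theorem sumE (n0 : ℕ) {P : Finset ℕ} (hP : ∀ p ∈ P, p.Prime) (ha : ∑ p ∈ P, al n0 p = 0)
    (h2P : 2 ∉ P → Pool.Agent.N972.P17.star n0 2 ≠ -4)
    (h3P : 3 ∉ P) (hγ : sm (rh n0 (-3)) P = 0) {κ : ℕ → ZMod 2}
    (hκ2 : Pool.Agent.N972.P17.star n0 2 = -4 → κ 2 = 0) (hκ : sm κ P = 0)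
    (k2 : ∀ E ⊆ P, ∑ p ∈ E, al n0 p = 1 → (((7 ∣ NT n0 E ∨ I7 (NT n0 E)) ∧
      (7 ∣ NT n0 (P \ E) ∨ I7 (NT n0 (P \ E)))) ↔ sm κ E = 0))
    (k3 : ∀ E ⊆ P, ∑ p ∈ E, al n0 p = 0 → sm (rh n0 (-3)) E = 1 →
      kk (lp n0) (ap n0) κ E * kk (lp n0) (ap n0) κ (P \ E) =
        ind (Ep7 (CY (-7)) (NT n0 P) (NT n0 E)))
    {c : ℕ} (hc : c ∈ P) (hc2 : Pool.Agent.N972.P17.star n0 2 = -4 → c = 2) :
    Odd ((ud (NT n0 P)).filter fun d => c ∣ d ∧ d ≠ NT n0 P ∧
      (Ep7 (CY (-7)) (NT n0 P) d ∨ En7 (NT n0 P) d)).card ↔ KK n0 κ P := by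
  refine odd_nat ?_
  rw [card_ind, KK_RHS n0 hP ha h2P hκ2 hκ hγ hc hc2,
    ud_sum n0 hP fun d => ind (c ∣ d ∧ d ≠ NT n0 P ∧
      (Ep7 (CY (-7)) (NT n0 P) d ∨ En7 (NT n0 P) d))]
  unfold RHS
  have hex : (if Pool.Agent.N972.P17.star n0 2 = -4 then
      T1 (lp n0) (ap n0) (kq n0) (P.erase 2) else 0) =
      ∑ E ∈ P.powerset, if E = {2} ∧ Pool.Agent.N972.P17.star n0 2 = -4 then
        T1 (lp n0) (ap n0) (kq n0) (P.erase 2) else 0 := by
    by_cases h4 : Pool.Agent.N972.P17.star n0 2 = -4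
    · rw [if_pos h4]
      have h5 : ∀ E ∈ P.powerset, (if E = {2} ∧ Pool.Agent.N972.P17.star n0 2 = -4 then
          T1 (lp n0) (ap n0) (kq n0) (P.erase 2) else 0) = if E = {2} then
          T1 (lp n0) (ap n0) (kq n0) (P.erase 2) else 0 := by
        intro E _
        by_cases h : E = {2}
        · rw [if_pos h, if_pos ⟨h, h4⟩]
        · rw [if_neg h, if_neg fun h' => h h'.1]
      rw [sum_congr rfl h5, sum_ite_eq' P.powerset {2} fun _ =>
        T1 (lp n0) (ap n0) (kq n0) (P.erase 2), if_pos]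
      rw [mem_powerset, singleton_subset_iff]
      by_contra h
      exact h2P h h4
    · rw [if_neg h4]
      symm
      exact sum_eq_zero fun E _ => if_neg fun h => h4 h.2
  rw [hex, add_comm, ← sum_add_distrib]
  refine sum_congr rfl fun E hE => ?_
  rw [mem_powerset] at hE
  have hEp : ∀ p ∈ E, p.Prime := fun p hp => hP p (hE hp)
  by_cases hcE : c ∈ E
  · rw [if_pos hcE]
    by_cases hEP : E = P
    · have h1 : ¬ (c ∣ NT n0 E ∧ NT n0 E ≠ NT n0 P ∧ (Ep7 (CY (-7)) (NT n0 P) (NT n0 E) ∨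
          En7 (NT n0 P) (NT n0 E))) := fun h => h.2.1 (by rw [hEP])
      have h2 : ¬ (E = {2} ∧ Pool.Agent.N972.P17.star n0 2 = -4) := by
        rintro ⟨h3, h4⟩
        rw [← hEP, h3, sum_singleton, al_star n0 h4] at ha
        exact one_ne_zero ha
      rw [ind_neg h1, if_neg h2, hEP, hγ, zero_mul, add_zero]
    · have h1 : (c ∣ NT n0 E ∧ NT n0 E ≠ NT n0 P ∧ (Ep7 (CY (-7)) (NT n0 P) (NT n0 E) ∨
          En7 (NT n0 P) (NT n0 E))) ↔ (Ep7 (CY (-7)) (NT n0 P) (NT n0 E) ∨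
          En7 (NT n0 P) (NT n0 E)) := by
        constructor
        · exact fun h => h.2.2
        · intro h
          refine ⟨(dvd_NT n0 hEp (hP c hc)).2 hcE, ?_, h⟩
          intro h3
          apply hEP
          rw [← NT_pf (n0 := n0) hEp, h3, NT_pf hP]
      rw [ind_congr h1, termE n0 hP ha h3P hγ k2 k3 hc2 hE hcE]
  · rw [if_neg hcE]
    have h1 : ¬ (c ∣ NT n0 E ∧ NT n0 E ≠ NT n0 P ∧ (Ep7 (CY (-7)) (NT n0 P) (NT n0 E) ∨
          En7 (NT n0 P) (NT n0 E))) := fun h => hcE ((dvd_NT n0 hEp (hP c hc)).1 h.1)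
    have h2 : ¬ (E = {2} ∧ Pool.Agent.N972.P17.star n0 2 = -4) := by
      rintro ⟨h3, h4⟩
      apply hcE
      rw [hc2 h4, h3]
      exact mem_singleton_self 2
    rw [ind_neg h1, if_neg h2, add_zero]

/-- the choice of the prime -/
theorem exc (n0 : ℕ) {P : Finset ℕ} (hne : P.Nonempty)
    (h2P : 2 ∉ P → Pool.Agent.N972.P17.star n0 2 ≠ -4) :
    ∃ c ∈ P, Pool.Agent.N972.P17.star n0 2 = -4 → c = 2 := by
  by_cases h4 : Pool.Agent.N972.P17.star n0 2 = -4
  · refine ⟨2, ?_, fun _ => rfl⟩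
    by_contra h
    exact h2P h h4
  · obtain ⟨c, hc⟩ := hne
    exact ⟨c, hc, fun h => absurd h h4⟩

theorem gam (n0 : ℕ) {P : Finset ℕ} (hP : ∀ p ∈ P, p.Prime) (ha : ∑ p ∈ P, al n0 p = 0)
    (h3P : 3 ∉ P) (h : NT n0 P % 3 = 1) : sm (rh n0 (-3)) P = 0 := by
  have h1 := sym3 n0 hP h3P
  rcases z01 (sm (rh n0 (-3)) P) with h2 | h2
  · exact h2
  · have := h1.2 h2
    omega

theorem i7' (n0 : ℕ) {E : Finset ℕ} (hE : ∀ p ∈ E, p.Prime) (h7 : 7 ∉ E)
    (h1 : ∑ p ∈ E, al n0 p = 1) : I7 (NT n0 E) ↔ sm (rh n0 (-7)) E = 0 := by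
  rw [i7_iff, (typ_neg n0 hE p7 (by norm_num) h7 h1).2, sm_rh n0 hE p7 (by norm_num) h7
    (kr_seven n0), h1, al_seven, mul_one]
  have : ∀ u : ZMod 2, u + 1 = 1 ↔ u = 0 := by decide
  exact this _

/-- **the identity, `7` split** -/
theorem t_ID21 : S_ID21 := by
  intro D hD
  obtain ⟨hFd, h3, h7⟩ := hD
  obtain ⟨n0, hN, ha, h2P⟩ := Fd_NT hFd
  set P := D.primeFactors with hPd
  have hP : ∀ p ∈ P, p.Prime := fun p hp => Nat.prime_of_mem_primeFactors hp
  have hne : P.Nonempty := by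
    rw [nonempty_iff_ne_empty]
    intro h
    rw [h, NT_out (notMem_empty 2)] at hN
    have h1 := hFd.1
    have : NN ∅ = 1 := rfl
    omega
  have h3P : 3 ∉ P := fun h => by
    have := Nat.dvd_of_mem_primeFactors h
    omega
  have h7P : 7 ∉ P := fun h => by
    have h8 := Nat.dvd_of_mem_primeFactors h
    rw [(j7 _).1] at h7
    omega
  have hγ : sm (rh n0 (-3)) P = 0 := gam n0 hP ha h3P (by rw [hN]; exact h3)
  have hκ : sm (rh n0 (-7)) P = 0 := by
    have h1 := sm_rh n0 hP p7 (by norm_num) h7P (kr_seven n0)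
    rw [ha, mul_zero, add_zero] at h1
    rw [← h1, ← (typ_pos n0 hP p7 (by norm_num) h7P ha).1, hN]
    exact h7
  obtain ⟨c, hc, hc2⟩ := exc n0 hne h2P
  refine ⟨c, hP c hc, Nat.dvd_of_mem_primeFactors hc, ?_⟩
  have hS := sumE n0 hP ha h2P h3P hγ (κ := rh n0 (-7)) (fun h4 => if_pos ⟨rfl, h4⟩) hκ (by
    intro E hE h1
    have hEp : ∀ p ∈ E, p.Prime := fun p hp => hP p (hE hp)
    have hEp' : ∀ p ∈ P \ E, p.Prime := fun p hp => hP p (mem_sdiff.1 hp).1
    have h7E : 7 ∉ E := fun h => h7P (hE h)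
    have h7E' : 7 ∉ P \ E := fun h => h7P (mem_sdiff.1 h).1
    rw [i7' n0 hEp h7E h1, i7' n0 hEp' h7E' (by rw [par_sdiff hE, ha, h1, zero_add]),
      dvd_NT n0 hEp p7, dvd_NT n0 hEp' p7, sm_sdiff _ hE, hκ, zero_add]
    constructor
    · rintro ⟨h | h, _⟩
      · exact absurd h h7E
      · exact h
    · intro h
      exact ⟨Or.inr h, Or.inr h⟩) (by
    intro E hE h0 hr
    have hEp : ∀ p ∈ E, p.Prime := fun p hp => hP p (hE hp)
    have hEp' : ∀ p ∈ P \ E, p.Prime := fun p hp => hP p (mem_sdiff.1 hp).1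
    have h7E : 7 ∉ E := fun h => h7P (hE h)
    have h7E' : 7 ∉ P \ E := fun h => h7P (mem_sdiff.1 h).1
    have h0' : ∑ p ∈ P \ E, al n0 p = 0 := by rw [par_sdiff hE, ha, h0, zero_add]
    have hr' : sm (rh n0 (-3)) (P \ E) = 1 := by rw [sm_sdiff _ hE, hγ, zero_add]; exact hr
    -- one factor
    have one : ∀ T : Finset ℕ, (∀ p ∈ T, p.Prime) → 7 ∉ T → 3 ∉ T → ∑ p ∈ T, al n0 p = 0 →
        sm (rh n0 (-3)) T = 1 → kk (lp n0) (ap n0) (rh n0 (-7)) T =
          ind (Ai (NT n0 T) ∧ CY (-7) (NT n0 T)) := by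
      intro T hT h7T h3T h0T hrT
      have hTne : T.Nonempty := by
        rw [nonempty_iff_ne_empty]
        rintro rfl
        rw [sm_empty] at hrT
        exact zero_ne_one hrT
      have h0T' : sm (ap n0) T = 0 := by rw [sm_al n0 hT]; exact h0T
      have h5 := (typ_pos n0 hT p7 (by norm_num) h7T h0T).2
      rw [sm_rh n0 hT p7 (by norm_num) h7T (kr_seven n0), h0T, mul_zero, add_zero] at h5
      unfold kk
      rw [h0T', Yd_congr (lp n0) (fun p _ => (kr7_rh n0 p).symm), Yd_CY n0 hT hTne h0T']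
      by_cases h6 : sm (rh n0 (-7)) T = 1
      · rw [if_pos ⟨rfl, h6⟩]
        refine ind_congr ⟨fun h => ⟨⟨NT_Fd n0 hT hTne h0T, (sym3 n0 hT h3T).2 hrT, h5.2 h6⟩, h⟩,
          fun h => h.2⟩
      · rw [if_neg fun h => h6 h.2]
        symm
        exact ind_neg fun h => h6 (h5.1 h.1.2.2)
    rw [one E hEp h7E (fun h => h3P (hE h)) h0 hr,
      one (P \ E) hEp' h7E' (fun h => h3P (mem_sdiff.1 h).1) h0' hr']
    have hq : NT n0 P / NT n0 E = NT n0 (P \ E) := NT_quot n0 hP hE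
    have h9 : Ep7 (CY (-7)) (NT n0 P) (NT n0 E) ↔ (Ai (NT n0 E) ∧ CY (-7) (NT n0 E)) ∧
        (Ai (NT n0 (P \ E)) ∧ CY (-7) (NT n0 (P \ E))) := by
      unfold Pool.Agent.N855.RQp.Ep7
      rw [hq]
      tauto
    rw [ind_congr h9]
    by_cases g1 : Ai (NT n0 E) ∧ CY (-7) (NT n0 E)
    · by_cases g2 : Ai (NT n0 (P \ E)) ∧ CY (-7) (NT n0 (P \ E))
      · rw [ind_pos g1, ind_pos g2, ind_pos ⟨g1, g2⟩, one_mul]
      · rw [ind_neg g2, mul_zero, ind_neg fun h => g2 h.2]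
    · rw [ind_neg g1, zero_mul, ind_neg fun h => g1 h.1]) hc hc2
  have h10 := C21_KK n0 hP ha
  rw [hN] at hS h10
  have h11 : KK n0 k7 P ↔ KK n0 (rh n0 (-7)) P := by
    have hk : ∀ p ∈ P, k7 p = rh n0 (-7) p := by
      intro p hp
      unfold k7
      rw [if_neg fun h : p = 7 => h7P (h ▸ hp), kr7_rh n0 p]
    have hL : ∀ p ∈ P, ∀ q ∈ P, LK n0 k7 p q = LK n0 (rh n0 (-7)) p q := by
      intro p hp q hq
      unfold LK
      rw [hk p hp, hk q hq]
    have hs : ∀ (X : ℕ → ZMod 2), ∀ p ∈ P, ∑ q ∈ P, LK n0 k7 p q * X q =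
        ∑ q ∈ P, LK n0 (rh n0 (-7)) p q * X q := fun X p hp =>
      sum_congr rfl fun q hq => by rw [hL p hp q hq]
    unfold KK
    constructor
    · intro h x X e h1 h2 h3
      exact h x X e (fun p hp => by rw [hs X p hp]; exact h1 p hp) h2 h3
    · intro h x X e h1 h2 h3
      exact h x X e (fun p hp => by rw [← hs X p hp]; exact h1 p hp) h2 h3
  rw [h10, h11, ← hS]

/-- **the identity, `7 ∣ D`** -/
theorem t_ID21r : S_ID21r := by
  intro D hD
  obtain ⟨hFd, h3, h7⟩ := hD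
  obtain ⟨n0, hN, ha, h2P⟩ := Fd_NT hFd
  have hD0 : D ≠ 0 := by have := hFd.1; omega
  set P := D.primeFactors with hPd
  have hP : ∀ p ∈ P, p.Prime := fun p hp => Nat.prime_of_mem_primeFactors hp
  have h7P : 7 ∈ P := Nat.mem_primeFactors.2 ⟨p7, h7, hD0⟩
  have h3P : 3 ∉ P := fun h => by
    have := Nat.dvd_of_mem_primeFactors h
    omega
  have hγ : sm (rh n0 (-3)) P = 0 := gam n0 hP ha h3P (by rw [hN]; exact h3)
  -- the functional
  set w : ZMod 2 := ∑ p ∈ P.erase 7, kr (-7) p with hw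
  set κ : ℕ → ZMod 2 := fun p => if p = 7 then w else kr (-7) p with hκd
  have hκ7 : ∀ p, p ≠ 7 → κ p = kr (-7) p := fun p hp => if_neg hp
  have hκE : ∀ E : Finset ℕ, 7 ∉ E → sm κ E = sm (rh n0 (-7)) E := by
    intro E h
    refine sm_congr fun p hp => ?_
    rw [hκ7 p fun h' => h (h' ▸ hp), kr7_rh n0 p]
  have hκ : sm κ P = 0 := by
    unfold sm
    rw [← add_sum_erase P _ h7P]
    have h1 : ∑ x ∈ P.erase 7, κ x = w := sum_congr rfl fun p hp => hκ7 p (ne_of_mem_erase hp)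
    have h2 : κ 7 = w := if_pos rfl
    rw [h1, h2]
    exact two0 _
  obtain ⟨c, hc, hc2⟩ := exc n0 ⟨7, h7P⟩ h2P
  refine ⟨c, hP c hc, Nat.dvd_of_mem_primeFactors hc, ?_⟩
  -- no positive pairs
  have hnoE : ∀ d, Pool.Agent.N969.RQ.Un D d → ¬ Ep7 (CY (-7)) D d := by
    rintro d ⟨hd, _⟩ ⟨h1, h2, _⟩
    have h8 : 7 ∣ d * (D / d) := by rw [Nat.mul_div_cancel' hd]; exact h7
    have h9 : ∀ x : ℕ, Ai x → ¬ 7 ∣ x := by
      intro x hx h
      have := (j7 _).2.1 hx.2.2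
      omega
    rcases (Nat.Prime.dvd_mul p7).1 h8 with h | h
    · exact h9 _ h1 h
    · exact h9 _ h2 h
  -- the vanishing
  have hvan : ∀ B ⊆ P, 7 ∈ B → kk (lp n0) (ap n0) κ B = 0 := by
    intro B hB h7B
    have hBp : ∀ p ∈ B, p.Prime := fun p hp => hP p (hB hp)
    unfold kk
    split_ifs with h
    · obtain ⟨h0, h1⟩ := h
      rw [sm_al n0 hBp] at h0
      have hann := tt_ann (lp n0) h7B
      rw [← add_sum_erase B _ h7B] at hann
      unfold Yd
      rw [← add_sum_erase B _ h7B]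
      have e1 : ∑ r ∈ B.erase 7, κ r * tt (lp n0) B r =
          ∑ r ∈ B.erase 7, Lm (lp n0) B r 7 * tt (lp n0) B r := by
        refine sum_congr rfl fun r hr => ?_
        have hr7 := ne_of_mem_erase hr
        have e2 : Lm (lp n0) B r 7 = kr (-7) r := by
          unfold Lm
          rw [if_neg hr7, lp_of (hBp r (mem_of_mem_erase hr)) p7, kr_seven n0]
        rw [e2, hκ7 r hr7]
      have e3 : Lm (lp n0) B 7 7 = κ 7 := by
        have e4 : Lm (lp n0) B 7 7 = ∑ r ∈ B.erase 7, ls n0 r 7 := by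
          unfold Lm
          rw [if_pos rfl]
          exact sum_congr rfl fun r hr => lp_of p7 (hBp r (mem_of_mem_erase hr))
        have hBe : ∀ p ∈ B.erase 7, p.Prime := fun p hp => hBp p (mem_of_mem_erase hp)
        have e5 := sm_rh n0 hBe p7 (by norm_num) (notMem_erase 7 B) (kr_seven n0)
        have e6 : al n0 7 + ∑ q ∈ B.erase 7, al n0 q = 0 := by
          rw [add_sum_erase B (al n0) h7B]
          exact h0
        rw [al_seven] at e6
        have e7 : κ 7 + sm κ (B.erase 7) = 1 := by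
          rw [← h1]
          exact add_sum_erase B κ h7B
        rw [hκE _ (notMem_erase 7 B)] at e7
        rw [e4, e5, al_seven, one_mul]
        have : ∀ u v k : ZMod 2, 1 + v = 0 → k + u = 1 → u + v = k := by decide
        exact this _ _ _ e6 e7
      rw [e1, ← e3]
      exact hann
    · rfl
  have hS := sumE n0 hP ha h2P h3P hγ (κ := κ) (fun _ => by
      rw [hκ7 2 (by norm_num)]; exact kr7_2) hκ (by
    intro E hE h1
    have hEp : ∀ p ∈ E, p.Prime := fun p hp => hP p (hE hp)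
    have hEp' : ∀ p ∈ P \ E, p.Prime := fun p hp => hP p (mem_sdiff.1 hp).1
    have h1' : ∑ p ∈ P \ E, al n0 p = 1 := by rw [par_sdiff hE, ha, h1, zero_add]
    have hκs : sm κ (P \ E) = sm κ E := by rw [sm_sdiff _ hE, hκ, zero_add]
    rw [dvd_NT n0 hEp p7, dvd_NT n0 hEp' p7]
    by_cases h7E : 7 ∈ E
    · have h7E' : 7 ∉ P \ E := fun h => (mem_sdiff.1 h).2 h7E
      rw [i7' n0 hEp' h7E' h1', ← hκE _ h7E', hκs]
      constructor
      · rintro ⟨_, h | h⟩
        · exact absurd h h7E'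
        · exact h
      · intro h
        exact ⟨Or.inl h7E, Or.inr h⟩
    · have h7E' : 7 ∈ P \ E := mem_sdiff.2 ⟨h7P, h7E⟩
      rw [i7' n0 hEp h7E h1, ← hκE _ h7E]
      constructor
      · rintro ⟨h | h, _⟩
        · exact absurd h h7E
        · exact h
      · intro h
        exact ⟨Or.inr h, Or.inl h7E'⟩) (by
    intro E hE h0 hr
    have h9 : ¬ Ep7 (CY (-7)) (NT n0 P) (NT n0 E) := by
      rw [hN]
      refine hnoE _ ?_
      have hmem : NT n0 E ∈ ud (NT n0 P) := by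
        by_contra hcon
        have hEp : ∀ p ∈ E, p.Prime := fun p hp => hP p (hE hp)
        have hEp' : ∀ p ∈ P \ E, p.Prime := fun p hp => hP p (mem_sdiff.1 hp).1
        apply hcon
        unfold ud
        rw [mem_filter, Nat.mem_divisors, NT_quot n0 hP hE]
        refine ⟨⟨⟨NT n0 (P \ E), by rw [mul_comm, NT_mul n0 hE]⟩, (NT_pos hP).ne'⟩, ?_⟩
        rw [← Nat.disjoint_primeFactors (NT_pos hEp).ne' (NT_pos hEp').ne', NT_pf hEp, NT_pf hEp']
        exact disjoint_sdiff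
      unfold ud at hmem
      rw [mem_filter, hN] at hmem
      exact ⟨Nat.dvd_of_mem_divisors hmem.1, hmem.2⟩
    rw [ind_neg h9]
    by_cases h7E : 7 ∈ E
    · rw [hvan E hE h7E, zero_mul]
    · rw [hvan (P \ E) sdiff_subset (mem_sdiff.2 ⟨h7P, h7E⟩), mul_zero]) hc hc2
  have h10 := C21_KK n0 hP ha
  rw [hN] at hS h10
  have h11 : KK n0 k7 P ↔ KK n0 κ P := by
    have hk7 : ∀ p, p ≠ 7 → k7 p = kr (-7) p := fun p hp => if_neg hp
    rcases z01 w with h | h
    · have : κ = k7 := by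
        funext p
        unfold k7
        rw [hκd]
        simp only
        split_ifs
        · exact h
        · rfl
      rw [this]
    · have h12 : κ = ad k7 7 := by
        funext p
        unfold ad k7
        rw [hκd]
        simp only
        split_ifs
        · rw [h, zero_add]
        · rw [add_zero]
      constructor
      · intro h13
        rw [h12]
        exact KK_shift n0 hP h7P hk7 h13
      · intro h13
        have h14 := KK_shift n0 hP h7P hκ7 h13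
        have h15 : ad κ 7 = k7 := by
          rw [h12]
          funext p
          unfold ad
          rw [add_assoc, two0, add_zero]
        rwa [h15] at h14
  rw [h10, h11, ← hS]
  have e : ∀ d ∈ ud D, (c ∣ d ∧ d ≠ D ∧ En7 D d) ↔
      (c ∣ d ∧ d ≠ D ∧ (Ep7 (CY (-7)) D d ∨ En7 D d)) := by
    intro d hd
    unfold ud at hd
    rw [mem_filter] at hd
    have h16 := hnoE d ⟨Nat.dvd_of_mem_divisors hd.1, hd.2⟩
    constructor
    · rintro ⟨g1, g2, g3⟩
      exact ⟨g1, g2, Or.inr g3⟩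
    · rintro ⟨g1, g2, g3⟩
      exact ⟨g1, g2, g3.resolve_left h16⟩
  classical
  have e2 := filter_congr e
  rw [Iff.comm]
  refine iff_of_eq (congrArg Odd (congrArg Finset.card ?_))
  refine Eq.trans ?_ (e2.symm.trans ?_)
  · congr
  · congr

end Pool.Agent.N972.GC
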