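import Pool.Agent.N972.GC.Lv15b
import Pool.Agent.N877.P21G.Defs2

/-!
# Level 21: the relations between the criteria (helper972)
-/

set_option autoImplicit false
set_option linter.unusedSectionVars false

open Finset

namespace Pool.Agent.N972.GC

open Pool.Agent.N855.P17
open Pool.Agent.N972.F2
open Pool.Agent.N972.P17 (ls al LL)
open Pool.Agent.N969.P15 (Qc Qe Ev)
open Pool.Agent.N969.RQ (Fd ud)
open Pool.Agent.N973.P15G (Ps Ng)
open Pool.Agent.N877.P21 (Sp7)
open Pool.Agent.N877.P21G (I7 Ai A0 As K0 K3 K7 K21 Kn)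

theorem K0_iff (m : ℕ) : K0 m ↔ Ng m ∧ m % 3 = 1 ∧ Sp7 m := by
  unfold K0 Pool.Agent.N877.P21.Cls0 Pool.Agent.N877.P21.Cls0e Pool.Agent.N973.P15G.Ng
  tauto

theorem K3_iff (m : ℕ) : K3 m ↔ Ng m ∧ Sp7 m ∧ 3 ∣ m := by
  unfold K3 Pool.Agent.N877.P21.Cl3 Pool.Agent.N877.P21.Cl3e Pool.Agent.N973.P15G.Ng
  tauto

theorem K7_iff (m : ℕ) : K7 m ↔ Ng m ∧ 7 ∣ m ∧ m % 3 = 1 := by
  unfold K7 Pool.Agent.N877.P21.Cl7 Pool.Agent.N877.P21.Cl7e Pool.Agent.N973.P15G.Ng
  tauto

theorem K21_iff (m : ℕ) : K21 m ↔ Ng m ∧ 7 ∣ m ∧ 3 ∣ m := by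
  unfold K21 Pool.Agent.N877.P21.Cl21 Pool.Agent.N877.P21.Cl21e Pool.Agent.N973.P15G.Ng
  tauto

theorem p7 : Nat.Prime 7 := by norm_num

/-- `7` split in `ℚ(√-m)` -/
theorem sp7_iff (m : ℕ) : Sp7 m ↔ jacobiSym (-(m : ℤ)) 7 = 1 := by
  rw [(j7 _).1]
  unfold Pool.Agent.N877.P21.Sp7
  omega

theorem i7_iff (m : ℕ) : I7 m ↔ jacobiSym (-(m : ℤ)) 7 = -1 := by
  rw [(j7 _).2]
  unfold Pool.Agent.N877.P21G.I7
  omega

theorem kr7_2 : kr (-7) 2 = 0 := by
  unfold kr
  rw [if_pos rfl, if_pos (by norm_num)]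

theorem kr7_rh (n p : ℕ) : kr (-7) p = rh n (-7) p := by
  unfold rh
  split_ifs with h
  · rw [h.1, kr7_2]
  · rfl

/-- the symbols at `7` -/
theorem sym7 (n : ℕ) {P E : Finset ℕ} (hP : ∀ p ∈ P, p.Prime) (h7P : 7 ∉ P) (hE : E ⊆ P)
    (ha : ∑ p ∈ P, al n p = 1) (h0 : ∑ p ∈ E, al n p = 0) (hρ : sm (rh n (-7)) P = 0) :
    (jacobiSym (NT n E : ℕ) 7 = -1 ↔ sm (rh n (-7)) E = 1) ∧
    (Sp7 (NT n (P \ E)) ↔ sm (rh n (-7)) E = 1) := by
  have hEp : ∀ p ∈ E, p.Prime := fun p hp => hP p (hE hp)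
  have hEp' : ∀ p ∈ P \ E, p.Prime := fun p hp => hP p (mem_sdiff.1 hp).1
  have h1 := (typ_pos n hEp p7 (by norm_num) (fun h => h7P (hE h)) h0).2
  rw [sm_rh n hEp p7 (by norm_num) (fun h => h7P (hE h)) (kr_seven n), h0, mul_zero, add_zero] at h1
  refine ⟨h1, ?_⟩
  have ha' : ∑ p ∈ P \ E, al n p = 1 := by rw [par_sdiff hE, ha, h0, add_zero]
  have h7' : 7 ∉ P \ E := fun h => h7P (mem_sdiff.1 h).1
  have h2 := (typ_neg n hEp' p7 (by norm_num) h7' ha').1
  rw [sm_rh n hEp' p7 (by norm_num) h7' (kr_seven n), ha', al_seven, mul_one,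
    sm_sdiff (rh n (-7)) hE, hρ, zero_add] at h2
  rw [sp7_iff, h2]
  have : ∀ u : ZMod 2, u + 1 = 0 ↔ u = 1 := by decide
  exact this _

theorem ls73 (n : ℕ) : ls n 7 3 = 1 := by
  rw [ls_odd n (by norm_num), star_odd n (by norm_num), if_neg (by norm_num : ¬ 7 % 4 = 1)]
  norm_num

/-- the classes, `3 ∣ n` and `7` inert -/
theorem cls21a (n : ℕ) {P E : Finset ℕ} (hP : ∀ p ∈ P, p.Prime) (h3 : 3 ∈ P) (h7 : 7 ∉ P)
    (ha : ∑ p ∈ P, al n p = 1) (hE : E ⊆ P) (hρ : sm (rh n (-7)) P = 0) {ε : ℕ → ZMod 2}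
    (hε : ∀ p ∈ P, p ≠ 3 → ε p = ls n p 3) (hεP : sm ε P = 0) :
    ((Ai (NT n E) ∧ K3 (NT n (P \ E))) ∨ (A0 (NT n E) ∧ K0 (NT n (P \ E)))) ↔
      (True ∧ ∑ p ∈ E, al n p = 0 ∧ sm (rh n (-7)) E = 1 ∧ sm ε E = 1) := by
  have hEp : ∀ p ∈ E, p.Prime := fun p hp => hP p (hE hp)
  have hEp' : ∀ p ∈ P \ E, p.Prime := fun p hp => hP p (mem_sdiff.1 hp).1
  set A := NT n E with hA
  set m := NT n (P \ E) with hm
  have pa : ∑ p ∈ E, al n p = 0 → ∑ p ∈ P \ E, al n p = 1 := by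
    intro h
    rw [par_sdiff hE, ha, h, add_zero]
  have k7 := fun h0 => sym7 n hP h7 hE ha h0 hρ
  -- the symbol at `3`
  have k3 : ∑ p ∈ E, al n p = 0 → 3 ∉ E → (A % 3 = 2 ↔ sm ε E = 1) := by
    intro hal h3E
    have e : sm ε E = ∑ q ∈ E, ls n q 3 :=
      sum_congr rfl fun q hq => hε q (hE hq) fun h => h3E (h ▸ hq)
    have h1 := (typ_pos n hEp Nat.prime_three (by norm_num) h3E hal).2
    rw [(j3 _).2, ← hA] at h1
    rw [e, ← h1]
    omega
  have k3' : ∑ p ∈ E, al n p = 0 → 3 ∈ E → (m % 3 = 1 ↔ sm ε E = 1) := by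
    intro hal h3E
    have h3E' : 3 ∉ P \ E := fun h => (mem_sdiff.1 h).2 h3E
    have e : sm ε E = ∑ q ∈ P \ E, ls n q 3 := by
      have h5 : sm ε E = sm ε (P \ E) := by rw [sm_sdiff ε hE, hεP, zero_add]
      rw [h5]
      exact sum_congr rfl fun q hq => hε q (mem_sdiff.1 hq).1 fun h => h3E' (h ▸ hq)
    have h1 := (typ_neg n hEp' Nat.prime_three (by norm_num) h3E' (pa hal)).2
    rw [(j3 _).2, ← hm] at h1
    rw [e, ← h1]
    omega
  constructor
  · rintro (⟨⟨h1, h2, h4⟩, h6⟩ | ⟨⟨h1, h2, h4⟩, h6⟩)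
    · obtain ⟨h6, h7', h8⟩ := (K3_iff _).1 h6
      have h3E : 3 ∉ E := by
        intro h
        have := (dvd_NT n hEp Nat.prime_three).2 h
        rw [← hA] at this
        omega
      have hal := pair_al n hP hE ha h1 h6
      exact ⟨trivial, hal, (k7 hal).1.1 h4, (k3 hal h3E).1 h2⟩
    · obtain ⟨h6, h7', h8⟩ := (K0_iff _).1 h6
      have h3E : 3 ∈ E := (dvd_NT n hEp Nat.prime_three).1 h2
      have hal := pair_al n hP hE ha h1 h6
      exact ⟨trivial, hal, (k7 hal).1.1 h4, (k3' hal h3E).1 h7'⟩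
  · rintro ⟨_, hal, h2, h4⟩
    have hne : E.Nonempty := by
      rw [nonempty_iff_ne_empty]
      rintro rfl
      rw [sm_empty] at h2
      exact zero_ne_one h2
    have hFd : Fd A := NT_Fd n hEp hne hal
    have hFn : Ng m := NT_Fn n hEp' (pa hal)
    have h5 := (k7 hal).1.2 h2
    have h6 := (k7 hal).2.2 h2
    by_cases h3E : 3 ∈ E
    · right
      refine ⟨⟨hFd, (dvd_NT n hEp Nat.prime_three).2 h3E, h5⟩, (K0_iff _).2 ⟨hFn, ?_, h6⟩⟩
      exact (k3' hal h3E).2 h4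
    · left
      refine ⟨⟨hFd, (k3 hal h3E).2 h4, h5⟩, (K3_iff _).2 ⟨hFn, h6, ?_⟩⟩
      exact (dvd_NT n hEp' Nat.prime_three).2 (mem_sdiff.2 ⟨h3, h3E⟩)

/-- the sum of the functional of `-7` -/
theorem rho7 {n : ℕ} {P : Finset ℕ} (hP : ∀ p ∈ P, p.Prime) (hN : NT n P = n)
    (ha : ∑ p ∈ P, al n p = 1) (h7 : 7 ∉ P) (hi : I7 n) : sm (rh n (-7)) P = 0 := by
  have h1 := sm_rh n hP p7 (by norm_num) h7 (kr_seven n)
  rw [ha, al_seven, mul_one] at h1
  have h2 : ∑ q ∈ P, ls n q 7 = 1 := by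
    rw [← (typ_neg n hP p7 (by norm_num) h7 ha).2, hN, ← i7_iff]
    exact hi
  rw [h2] at h1
  have : ∀ u : ZMod 2, 1 = u + 1 → u = 0 := by decide
  exact this _ h1

open Classical in
/-- **the relation for `3 ∣ n`, `7` inert** -/
theorem z21a {n : ℕ} (hFn : Ng n) (h3n : 3 ∣ n) (hi : I7 n) : QQ n ↔ Odd (((ud n).filter fun A =>
    ((Ai A ∧ K3 (n / A)) ∨ (A0 A ∧ K0 (n / A))) ∧ CY (-7) A ∧ QQ (n / A)).card) := by
  obtain ⟨hN, ha⟩ := Fn_NT hFn
  set P := n.primeFactors with hP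
  have hPp : ∀ p ∈ P, p.Prime := fun p hp => Nat.prime_of_mem_primeFactors hp
  have h7n : ¬ 7 ∣ n := by
    intro h
    unfold Pool.Agent.N877.P21G.I7 at hi
    omega
  have hn0 : n ≠ 0 := by
    rintro rfl
    exact h7n (dvd_zero 7)
  have h3 : 3 ∈ P := Nat.mem_primeFactors.2 ⟨Nat.prime_three, h3n, hn0⟩
  have h7 : 7 ∉ P := fun h => h7n (Nat.dvd_of_mem_primeFactors h)
  have ha' : sm (ap n) P = 1 := by rw [sm_al n hPp]; exact ha
  have hρ := rho7 hPp hN ha h7 hi
  -- the functional of the row of `3`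
  set ε : ℕ → ZMod 2 := fun j => Lm (lp n) P 3 j with hε
  have hε1 : ∀ p ∈ P, p ≠ 3 → ε p = ls n p 3 := by
    intro p hp hp3
    rw [hε]
    simp only
    unfold Lm
    rw [if_neg (Ne.symm hp3), lp_of Nat.prime_three (hPp p hp)]
  have hεP : sm ε P = 0 := Lm_row (lp n) h3
  -- the root
  obtain ⟨r, hr, hkr, hr3⟩ : ∃ r ∈ P, kq n r = 1 ∧ (3 : ℕ) ≠ r := by
    by_contra h
    push Not at h
    have h1 : ∀ r ∈ P, r ≠ 3 → r = 2 ∧ Pool.Agent.N972.P17.star n 2 = -4 := by
      intro r hr hr3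
      by_contra h2
      exact hr3 (h r hr (if_neg h2)).symm
    by_cases h2 : ∃ r ∈ P, r ≠ 3
    · obtain ⟨r, hr, hr3⟩ := h2
      have h4 := h1 r hr hr3
      have h5 : P = insert 2 {3} := by
        ext x
        rw [mem_insert, mem_singleton]
        constructor
        · intro hx
          by_cases hx3 : x = 3
          · exact Or.inr hx3
          · exact Or.inl (h1 x hx hx3).1
        · rintro (rfl | rfl)
          · rw [← h4.1]; exact hr
          · exact h3
      rw [h5, sum_insert (by simp), sum_singleton, al_star n h4.2, al_three] at ha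
      exact absurd ha (by decide)
    · push Not at h2
      have h5 : P = {3} := by
        ext x
        rw [mem_singleton]
        constructor
        · exact h2 x
        · rintro rfl; exact h3
      have h6 : n = 3 := by
        rw [← hN, h5, NT_out (by simp)]
        unfold NN
        simp
      rw [h6] at hi
      unfold Pool.Agent.N877.P21G.I7 at hi
      omega
  have hid := idD0 (hk n) (ρ := rh n (-7)) (rh_sup n (-7)) ε hr hkr ha' hρ hεP
  rw [Mf_row (lp n) hr h3 hr3 (by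
    rw [← kr7_rh]
    unfold kr
    rw [if_neg (by norm_num), if_neg (by norm_num)]) (fun j _ => rfl)] at hid
  have hQn : T1 (lp n) (ap n) (kq n) P = ind (QQ n) := by
    rw [T1_QQ n hPp ha' (by rw [hN]; omega), hN]
  have hG := gsum (s := -7) hN ha (ε := ε)
    (fun A m => (Ai A ∧ K3 m) ∨ (A0 A ∧ K0 m)) (fun _ => True)
    (fun E hE => cls21a n hPp h3 h7 ha hE hρ hε1 hεP) (by
      intro E hE _ c1 c2 c3 h6
      have := (sym7 n hPp h7 hE ha c1 hρ).2.2 c2
      rw [← hP] at h6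
      rw [h6] at this
      unfold Pool.Agent.N877.P21.Sp7 at this
      omega)
  simp only [if_true] at hG
  symm
  refine odd_nat ?_
  have hG2 : ((((ud n).filter fun A => ((Ai A ∧ K3 (n / A)) ∨ (A0 A ∧ K0 (n / A))) ∧
      CY (-7) A ∧ QQ (n / A)).card : ℕ) : ZMod 2) = ∑ E ∈ P.powerset, sm ε E *
      (if sm (ap n) E = 0 ∧ sm (rh n (-7)) E = 1 then
      Yd (lp n) (kr (-7)) E else 0) * T1 (lp n) (ap n) (kq n) (P \ E) := by
    rw [hP, ← hG]
    congr
  rw [hG2, ← hQn]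
  have h9 := (eq_of_add hid.symm).symm
  rw [← h9]
  refine sum_congr rfl fun E _ => ?_
  unfold kk
  rw [Yd_congr (lp n) fun p _ => kr7_rh n p]

/-- the classes, `21 ∣ n` -/
theorem cls21b (n : ℕ) {P E : Finset ℕ} (hP : ∀ p ∈ P, p.Prime) (h3 : 3 ∈ P) (h7 : 7 ∈ P)
    (ha : ∑ p ∈ P, al n p = 1) (hE : E ⊆ P) {ε : ℕ → ZMod 2}
    (hε : ∀ p ∈ P.erase 7, p ≠ 3 → ε p = ls n p 3) (hεP : sm ε (P.erase 7) = 1) :
    ((Ai (NT n E) ∧ K21 (NT n (P \ E))) ∨ (A0 (NT n E) ∧ K7 (NT n (P \ E)))) ↔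
      (7 ∉ E ∧ ∑ p ∈ E, al n p = 0 ∧ sm (rh n (-7)) E = 1 ∧ sm ε E = 1) := by
  have hEp : ∀ p ∈ E, p.Prime := fun p hp => hP p (hE hp)
  have hEp' : ∀ p ∈ P \ E, p.Prime := fun p hp => hP p (mem_sdiff.1 hp).1
  set A := NT n E with hA
  set m := NT n (P \ E) with hm
  have pa : ∑ p ∈ E, al n p = 0 → ∑ p ∈ P \ E, al n p = 1 := by
    intro h
    rw [par_sdiff hE, ha, h, add_zero]
  have k7 : ∑ p ∈ E, al n p = 0 → 7 ∉ E → (jacobiSym (A : ℕ) 7 = -1 ↔ sm (rh n (-7)) E = 1) := by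
    intro hal h7E
    have h1 := (typ_pos n hEp p7 (by norm_num) h7E hal).2
    rw [sm_rh n hEp p7 (by norm_num) h7E (kr_seven n), hal, mul_zero, add_zero] at h1
    exact h1
  -- the symbol at `3`
  have k3 : ∑ p ∈ E, al n p = 0 → 3 ∉ E → 7 ∉ E → (A % 3 = 2 ↔ sm ε E = 1) := by
    intro hal h3E h7E
    have e : sm ε E = ∑ q ∈ E, ls n q 3 :=
      sum_congr rfl fun q hq => hε q (mem_erase.2 ⟨fun h => h7E (h ▸ hq), hE hq⟩)
        fun h => h3E (h ▸ hq)
    have h1 := (typ_pos n hEp Nat.prime_three (by norm_num) h3E hal).2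
    rw [(j3 _).2, ← hA] at h1
    rw [e, ← h1]
    omega
  have k3' : ∑ p ∈ E, al n p = 0 → 3 ∈ E → 7 ∉ E → (m % 3 = 1 ↔ sm ε E = 1) := by
    intro hal h3E h7E
    have h3E' : 3 ∉ P \ E := fun h => (mem_sdiff.1 h).2 h3E
    have hsub : E ⊆ P.erase 7 := fun x hx => mem_erase.2 ⟨fun h => h7E (h ▸ hx), hE hx⟩
    have h7' : 7 ∉ P.erase 7 \ E := fun h => (notMem_erase 7 P) (mem_sdiff.1 h).1
    have hPE : P \ E = insert 7 (P.erase 7 \ E) := by
      rw [← insert_sdiff_of_notMem _ h7E, insert_erase h7]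
    have e : ∑ q ∈ P \ E, ls n q 3 = sm ε E := by
      have h5 : sm ε (P.erase 7 \ E) = 1 + sm ε E := by rw [sm_sdiff ε hsub, hεP]
      have h6 : ∑ q ∈ P.erase 7 \ E, ls n q 3 = sm ε (P.erase 7 \ E) :=
        sum_congr rfl fun q hq => (hε q (mem_sdiff.1 hq).1 fun h =>
          (mem_sdiff.1 hq).2 (h ▸ h3E)).symm
      rw [hPE, sum_insert h7', ls73, h6, h5]
      have : ∀ u : ZMod 2, 1 + (1 + u) = u := by decide
      exact this _
    have h1 := (typ_neg n hEp' Nat.prime_three (by norm_num) h3E' (pa hal)).2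
    rw [(j3 _).2, ← hm] at h1
    rw [← e, ← h1]
    omega
  constructor
  · rintro (⟨⟨h1, h2, h4⟩, h6⟩ | ⟨⟨h1, h2, h4⟩, h6⟩)
    · obtain ⟨h6, h7', h8⟩ := (K21_iff _).1 h6
      have h3E : 3 ∉ E := by
        intro h
        have := (dvd_NT n hEp Nat.prime_three).2 h
        rw [← hA] at this
        omega
      have h7E : 7 ∉ E := by
        intro h
        have h9 := (dvd_NT n hEp p7).2 h
        rw [← hA] at h9
        rw [(j7 _).2] at h4
        omega
      have hal := pair_al n hP hE ha h1 h6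
      exact ⟨h7E, hal, (k7 hal h7E).1 h4, (k3 hal h3E h7E).1 h2⟩
    · obtain ⟨h6, h7', h8⟩ := (K7_iff _).1 h6
      have h3E : 3 ∈ E := (dvd_NT n hEp Nat.prime_three).1 h2
      have h7E : 7 ∉ E := by
        intro h
        have h9 := (dvd_NT n hEp p7).2 h
        rw [← hA] at h9
        rw [(j7 _).2] at h4
        omega
      have hal := pair_al n hP hE ha h1 h6
      exact ⟨h7E, hal, (k7 hal h7E).1 h4, (k3' hal h3E h7E).1 h8⟩
  · rintro ⟨h7E, hal, h2, h4⟩
    have hne : E.Nonempty := by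
      rw [nonempty_iff_ne_empty]
      rintro rfl
      rw [sm_empty] at h2
      exact zero_ne_one h2
    have hFd : Fd A := NT_Fd n hEp hne hal
    have hFn : Ng m := NT_Fn n hEp' (pa hal)
    have h5 := (k7 hal h7E).2 h2
    have h7m : 7 ∣ m := (dvd_NT n hEp' p7).2 (mem_sdiff.2 ⟨h7, h7E⟩)
    by_cases h3E : 3 ∈ E
    · right
      refine ⟨⟨hFd, (dvd_NT n hEp Nat.prime_three).2 h3E, h5⟩, (K7_iff _).2 ⟨hFn, h7m, ?_⟩⟩
      exact (k3' hal h3E h7E).2 h4
    · left
      refine ⟨⟨hFd, (k3 hal h3E h7E).2 h4, h5⟩, (K21_iff _).2 ⟨hFn, h7m, ?_⟩⟩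
      exact (dvd_NT n hEp' Nat.prime_three).2 (mem_sdiff.2 ⟨h3, h3E⟩)

open Classical in
/-- **the relation for `21 ∣ n`** -/
theorem z21b {n : ℕ} (hFn : Ng n) (h21 : 21 ∣ n) : QQ n ↔ Odd (((ud n).filter fun A =>
    ((Ai A ∧ K21 (n / A)) ∨ (A0 A ∧ K7 (n / A))) ∧ CY (-7) A ∧ QQ (n / A)).card) := by
  obtain ⟨hN, ha⟩ := Fn_NT hFn
  set P := n.primeFactors with hP
  have hPp : ∀ p ∈ P, p.Prime := fun p hp => Nat.prime_of_mem_primeFactors hp
  have hn0 : n ≠ 0 := by
    rintro rfl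
    rcases hFn with h | ⟨m, hm, hs, _⟩
    · exact absurd h.1 (by simp)
    · have : m = 0 := by omega
      rw [this] at hs
      exact absurd hs (by simp)
  have h3 : 3 ∈ P := Nat.mem_primeFactors.2 ⟨Nat.prime_three, by omega, hn0⟩
  have h7 : 7 ∈ P := Nat.mem_primeFactors.2 ⟨p7, by omega, hn0⟩
  set D := P.erase 7 with hD
  have h7D : 7 ∉ D := notMem_erase 7 P
  have hDP : insert 7 D = P := insert_erase h7
  have hDp : ∀ p ∈ D, p.Prime := fun p hp => hPp p (mem_of_mem_erase hp)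
  have h3D : 3 ∈ D := mem_erase.2 ⟨by norm_num, h3⟩
  have haD : sm (ap n) D = 0 := by
    rw [sm_al n hDp]
    have := sum_insert (f := al n) h7D
    rw [hDP, ha, al_seven] at this
    have a1 : ∀ u : ZMod 2, 1 = 1 + u → u = 0 := by decide
    exact a1 _ this
  -- the functional
  set ε : ℕ → ZMod 2 := fun q => if q = 3 then 1 + ∑ q ∈ D.erase 3, ls n q 3 else ls n q 3 with hε
  have hε1 : ∀ p ∈ D, p ≠ 3 → ε p = ls n p 3 := fun p _ hp => if_neg hp
  have hε2 : sm ε D = 1 := by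
    unfold sm
    rw [← add_sum_erase D _ h3D]
    have h6 : ∑ x ∈ D.erase 3, ε x = ∑ q ∈ D.erase 3, ls n q 3 :=
      sum_congr rfl fun q hq => if_neg (ne_of_mem_erase hq)
    have h7 : ε 3 = 1 + ∑ q ∈ D.erase 3, ls n q 3 := if_pos rfl
    rw [h6, h7]
    have : ∀ u : ZMod 2, 1 + u + u = 1 := by decide
    exact this _
  have hid := idC0 (hk n) (ρ := rh n (-7)) (rh_sup n (-7)) ε (s := 7) (D := D) h7D
    (kq_odd (by norm_num)) (by rw [ap_of p7, al_seven]) (fun i hi => by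
      rw [lp_of (hDp i hi) p7, ← kr7_rh, kr_seven n]) haD
  rw [hε2, one_mul] at hid
  have hno4 : ∀ T : Finset ℕ, (∀ p ∈ T, p.Prime) → 7 ∈ T → NT n T ≠ 4 := by
    intro T hT h7T h4
    have := (dvd_NT n hT p7).2 h7T
    omega
  have hQn : T1 (lp n) (ap n) (kq n) (insert 7 D) = ind (QQ n) := by
    rw [hDP, T1_QQ n hPp (by rw [sm_al n hPp]; exact ha) (hno4 P hPp h7), hN]
  have hG := gsum (s := -7) hN ha (ε := ε)
    (fun A m => (Ai A ∧ K21 m) ∨ (A0 A ∧ K7 m)) (fun E => 7 ∉ E)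
    (fun E hE => cls21b n hPp h3 h7 ha hE hε1 hε2) (by
      intro E hE h7E c1 c2 c3
      exact hno4 _ (fun p hp => hPp p (mem_sdiff.1 hp).1) (mem_sdiff.2 ⟨h7, h7E⟩))
  beta_reduce at hG
  symm
  refine odd_nat ?_
  have hG2 : ((((ud n).filter fun A => ((Ai A ∧ K21 (n / A)) ∨ (A0 A ∧ K7 (n / A))) ∧
      CY (-7) A ∧ QQ (n / A)).card : ℕ) : ZMod 2) = ∑ E ∈ P.powerset, if 7 ∉ E then sm ε E *
      (if sm (ap n) E = 0 ∧ sm (rh n (-7)) E = 1 then
      Yd (lp n) (kr (-7)) E else 0) * T1 (lp n) (ap n) (kq n) (P \ E) else 0 := by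
    refine Eq.trans ?_ (hG.trans ?_)
    · congr
    · refine sum_congr rfl fun E _ => ?_
      by_cases h : 7 ∈ E
      · rw [if_neg (not_not.2 h), if_neg (not_not.2 h)]
      · rw [if_pos h, if_pos h]
  rw [hG2, ← hQn, ← hid, ← hDP, sum_powerset_insert h7D]
  have h0 : ∑ E ∈ D.powerset, (if 7 ∉ insert 7 E then sm ε (insert 7 E) *
      (if sm (ap n) (insert 7 E) = 0 ∧ sm (rh n (-7)) (insert 7 E) = 1 then
      Yd (lp n) (kr (-7)) (insert 7 E) else 0) *
        T1 (lp n) (ap n) (kq n) (insert 7 D \ insert 7 E) else 0) = 0 :=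
    sum_eq_zero fun E _ => if_neg fun h => h (mem_insert_self 7 E)
  rw [h0, add_zero]
  refine sum_congr rfl fun E hE => ?_
  rw [mem_powerset] at hE
  have h7E : 7 ∉ E := fun h => h7D (hE h)
  rw [if_pos h7E, insert_sdiff_of_notMem _ h7E]
  unfold kk
  rw [Yd_congr (lp n) fun p _ => kr7_rh n p]

/-- the classes, `3` split and `7` inert -/
theorem cls21n (n : ℕ) {P E : Finset ℕ} (hP : ∀ p ∈ P, p.Prime) (h3 : 3 ∉ P) (h7 : 7 ∉ P)
    (ha : ∑ p ∈ P, al n p = 1) (hE : E ⊆ P) (hρ : sm (rh n (-7)) P = 0)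
    (hεP : ∑ p ∈ P, ls n p 3 = 0) :
    (Ai (NT n E) ∧ K0 (NT n (P \ E))) ↔
      (True ∧ ∑ p ∈ E, al n p = 0 ∧ sm (rh n (-7)) E = 1 ∧ sm (fun q => ls n q 3) E = 1) := by
  have hEp : ∀ p ∈ E, p.Prime := fun p hp => hP p (hE hp)
  have hEp' : ∀ p ∈ P \ E, p.Prime := fun p hp => hP p (mem_sdiff.1 hp).1
  set A := NT n E with hA
  set m := NT n (P \ E) with hm
  have pa : ∑ p ∈ E, al n p = 0 → ∑ p ∈ P \ E, al n p = 1 := by
    intro h
    rw [par_sdiff hE, ha, h, add_zero]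
  have k7 := fun h0 => sym7 n hP h7 hE ha h0 hρ
  have h3E : 3 ∉ E := fun h => h3 (hE h)
  have h3E' : 3 ∉ P \ E := fun h => h3 (mem_sdiff.1 h).1
  have k3 : ∑ p ∈ E, al n p = 0 → (A % 3 = 2 ↔ sm (fun q => ls n q 3) E = 1) := by
    intro hal
    have h1 := (typ_pos n hEp Nat.prime_three (by norm_num) h3E hal).2
    rw [(j3 _).2, ← hA] at h1
    unfold sm
    rw [← h1]
    omega
  have k3' : ∑ p ∈ E, al n p = 0 → (m % 3 = 1 ↔ sm (fun q => ls n q 3) E = 1) := by
    intro hal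
    have h1 := (typ_neg n hEp' Nat.prime_three (by norm_num) h3E' (pa hal)).2
    rw [(j3 _).2, ← hm] at h1
    have h5 : ∑ q ∈ P \ E, ls n q 3 = ∑ q ∈ E, ls n q 3 := by
      have := sm_sdiff (fun q => ls n q 3) hE
      unfold sm at this
      rw [this, hεP, zero_add]
    unfold sm
    rw [← h5, ← h1]
    omega
  constructor
  · rintro ⟨⟨h1, h2, h4⟩, h6⟩
    obtain ⟨h6, h7', h8⟩ := (K0_iff _).1 h6
    have hal := pair_al n hP hE ha h1 h6
    exact ⟨trivial, hal, (k7 hal).1.1 h4, (k3 hal).1 h2⟩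
  · rintro ⟨_, hal, h2, h4⟩
    have hne : E.Nonempty := by
      rw [nonempty_iff_ne_empty]
      rintro rfl
      rw [sm_empty] at h2
      exact zero_ne_one h2
    have hFd : Fd A := NT_Fd n hEp hne hal
    have hFn : Ng m := NT_Fn n hEp' (pa hal)
    exact ⟨⟨hFd, (k3 hal).2 h4, (k7 hal).1.2 h2⟩, (K0_iff _).2 ⟨hFn, (k3' hal).2 h4, (k7 hal).2.2 h2⟩⟩

open Classical in
/-- **the criterion for the class `(-;1,-1)` of level `21`** -/
theorem z21n {n : ℕ} (hn : Kn n) : CM (-7) 3 n ↔ Odd ((if QQ n then 1 else 0) +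
    ((ud n).filter fun A => (Ai A ∧ K0 (n / A)) ∧ CY (-7) A ∧ QQ (n / A)).card) := by
  obtain ⟨hng, hn3, hi⟩ := id hn
  have hng : Ng n := hng
  obtain ⟨hN, ha⟩ := Fn_NT hng
  set P := n.primeFactors with hP
  have hPp : ∀ p ∈ P, p.Prime := fun p hp => Nat.prime_of_mem_primeFactors hp
  have h3 : 3 ∉ P := fun h => by
    have := Nat.dvd_of_mem_primeFactors h
    omega
  have h7 : 7 ∉ P := fun h => by
    have := Nat.dvd_of_mem_primeFactors h
    unfold Pool.Agent.N877.P21G.I7 at hi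
    omega
  have ha' : sm (ap n) P = 1 := by rw [sm_al n hPp]; exact ha
  have hPne : P.Nonempty := by
    rw [nonempty_iff_ne_empty]
    intro h
    rw [h, sum_empty] at ha
    exact zero_ne_one ha
  have hn4 : n ≠ 4 := by omega
  obtain ⟨r, hr, hkr⟩ := exk n hPp hPne (by rw [hN]; exact hn4)
  have hρ := rho7 hPp hN ha h7 hi
  have hεP : ∑ p ∈ P, ls n p 3 = 0 := by
    rw [← (typ_neg n hPp Nat.prime_three (by norm_num) h3 ha).1, (j3 _).1, hN]
    omega
  have hM := CM_Mf (s := -7) ha (r := 3) (ε := fun q => ls n q 3) (fun q _ => rfl) hεP hρ hr hkr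
  have hid := idD0 (hk n) (ρ := rh n (-7)) (rh_sup n (-7)) (fun q => ls n q 3) hr hkr ha' hρ hεP
  have hQn : T1 (lp n) (ap n) (kq n) P = ind (QQ n) := by
    rw [T1_QQ n hPp ha' (by rw [hN]; exact hn4), hN]
  have hG := gsum (s := -7) hN ha (ε := fun q => ls n q 3)
    (fun A m => Ai A ∧ K0 m) (fun _ => True)
    (fun E hE => cls21n n hPp h3 h7 ha hE hρ hεP) (by
      intro E hE _ c1 c2 c3 h6
      have := (sym7 n hPp h7 hE ha c1 hρ).2.2 c2
      rw [← hP] at h6
      rw [h6] at this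
      unfold Pool.Agent.N877.P21.Sp7 at this
      omega)
  simp only [if_true] at hG
  rw [← hP] at hM
  have hite : ∀ (p : Prop) [Decidable p], (((if p then 1 else 0 : ℕ)) : ZMod 2) = ind p := by
    intro p _
    split_ifs with h
    · rw [ind_pos h]; rfl
    · rw [ind_neg h]; rfl
  have hG2 : ((((ud n).filter fun A => (Ai A ∧ K0 (n / A)) ∧
      CY (-7) A ∧ QQ (n / A)).card : ℕ) : ZMod 2) = ∑ E ∈ P.powerset, sm (fun q => ls n q 3) E *
      (if sm (ap n) E = 0 ∧ sm (rh n (-7)) E = 1 then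
      Yd (lp n) (kr (-7)) E else 0) * T1 (lp n) (ap n) (kq n) (P \ E) := by
    rw [hP, ← hG]
    congr
  symm
  refine odd_nat ?_
  rw [Nat.cast_add, hite, hG2, ← hM, ← hQn]
  have h9 : Mf (lp n) (kr (-7)) (fun q => ls n q 3) P r =
      Mf (lp n) (rh n (-7)) (fun q => ls n q 3) P r := by
    unfold Mf
    congr 1
    refine sum_congr rfl fun C hC => ?_
    rw [Yd_congr (lp n) fun p _ => kr7_rh n p]
  rw [h9, hid]
  congr 1
  refine sum_congr rfl fun E hE => ?_
  unfold kk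
  rw [Yd_congr (lp n) fun p _ => kr7_rh n p]

/-! ### uniqueness -/

theorem QQ7 : QQ 7 := by
  unfold QQ
  rw [if_neg (by norm_num)]
  intro b c hbc _ _
  have hb : b ∣ 7 := ⟨c, hbc.symm⟩
  rcases (Nat.dvd_prime p7).1 hb with h | h
  · exact Or.inl h
  · right
    rw [h] at hbc
    omega

/-- a measure -/
def me3 (A : ℕ) : ℕ := 2 * A.primeFactors.card + if 3 ∣ A then 0 else 1

theorem me3_drop {A B : ℕ} (hA : A ≠ 0) (hB : B ∣ A) (hc : Nat.Coprime B (A / B)) (hne : B ≠ A) :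
    me3 B < me3 A := by
  have := card_lt hA hB hc hne
  unfold me3
  split_ifs <;> omega

theorem Ai_ne {A : ℕ} (h : Ai A ∨ A0 A) : A ≠ 0 := by
  rintro rfl
  rcases h with ⟨_, h, _⟩ | ⟨h, _⟩
  · simp at h
  · exact absurd h.1 (by norm_num)

theorem co7 {A : ℕ} (h : jacobiSym A 7 = -1) : Nat.Coprime A 7 := by
  rw [Nat.coprime_comm, Nat.Prime.coprime_iff_not_dvd p7]
  intro h1
  rw [(j7 _).2] at h
  omega

open Classical in
/-- **the recursion determines the parities of level `21`** -/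
theorem par21 {y : ℕ → Prop}
    (hya : ∀ n : ℕ, Ng n → 3 ∣ n → I7 n → (QQ n ↔
      Odd (((ud n).filter fun A => ((Ai A ∧ K3 (n / A)) ∨ (A0 A ∧ K0 (n / A))) ∧
        y A ∧ QQ (n / A)).card)))
    (hyb : ∀ n : ℕ, Ng n → 21 ∣ n → (QQ n ↔
      Odd (((ud n).filter fun A => ((Ai A ∧ K21 (n / A)) ∨ (A0 A ∧ K7 (n / A))) ∧
        y A ∧ QQ (n / A)).card))) :
    ∀ A : ℕ, (Ai A ∨ A0 A) → (y A ↔ CY (-7) A) := by
  have key : ∀ k : ℕ, ∀ A : ℕ, me3 A = k → (Ai A ∨ A0 A) → (y A ↔ CY (-7) A) := by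
    intro k
    induction k using Nat.strong_induction_on with
    | _ k ih =>
      intro A hk hA
      have hA0 := Ai_ne hA
      rcases hA with hA | hA
      · -- `n = 3 A`
        have hPs : Ps A := (Ps_Fd _).2 hA.1
        have hco : Nat.Coprime A 3 := by
          rw [Nat.coprime_comm, Nat.Prime.coprime_iff_not_dvd Nat.prime_three]
          have := hA.2.1
          omega
        have hd : 3 * A / A = 3 := Nat.mul_div_cancel _ (Nat.pos_of_ne_zero hA0)
        have hn : Ng (3 * A) := Ng_odd hPs Nat.prime_three.squarefree (by norm_num) hco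
        have hI : I7 (3 * A) := by
          have h5 := (j7 _).2.1 hA.2.2
          unfold Pool.Agent.N877.P21G.I7
          omega
        have h1 := hya _ hn (Dvd.intro _ rfl) hI
        have h2 := z21a hn (Dvd.intro _ rfl) hI
        rw [h1] at h2
        have hmem : A ∈ ud (3 * A) := by
          unfold ud
          rw [mem_filter, hd]
          exact ⟨Nat.mem_divisors.2 ⟨Dvd.intro_left _ rfl, by positivity⟩, hco⟩
        have h3 := odd_uniq (ud (3 * A))
          (fun B => ((Ai B ∧ K3 (3 * A / B)) ∨ (A0 B ∧ K0 (3 * A / B))) ∧ y B ∧ QQ (3 * A / B))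
          (fun B => ((Ai B ∧ K3 (3 * A / B)) ∨ (A0 B ∧ K0 (3 * A / B))) ∧ CY (-7) B ∧
            QQ (3 * A / B)) hmem (by
            intro B hB hBA
            unfold ud at hB
            rw [mem_filter] at hB
            obtain ⟨hB1, hB2⟩ := hB
            have hBd := Nat.dvd_of_mem_divisors hB1
            have hsm : ((Ai B ∧ K3 (3 * A / B)) ∨ (A0 B ∧ K0 (3 * A / B))) → me3 B < me3 A := by
              rintro (⟨hB, _⟩ | ⟨hB, hK⟩)
              · have hcoB : Nat.Coprime B 3 := by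
                  rw [Nat.coprime_comm, Nat.Prime.coprime_iff_not_dvd Nat.prime_three]
                  have := hB.2.1
                  omega
                obtain ⟨h5, h6⟩ := ud_cancel hA0 (by norm_num) hcoB hBd hB2
                exact me3_drop hA0 h5 h6 hBA
              · obtain ⟨_, ⟨C, hC⟩, _⟩ := id hB
                have hCA : C ∣ A := by
                  rw [hC] at hBd
                  exact Nat.dvd_of_mul_dvd_mul_left (by norm_num) hBd
                have hdv : 3 * A / B = A / C := by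
                  rw [hC, Nat.mul_div_mul_left _ _ (by norm_num)]
                have hCc : Nat.Coprime C (A / C) := by
                  rw [hdv, hC] at hB2
                  exact Nat.Coprime.coprime_mul_left hB2
                have hCne : C ≠ A := by
                  rintro rfl
                  rw [hdv, Nat.div_self (Nat.pos_of_ne_zero hA0)] at hK
                  have := ((K0_iff _).1 hK).2.2
                  unfold Pool.Agent.N877.P21.Sp7 at this
                  omega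
                have h7 := card_lt hA0 hCA hCc hCne
                have hC0 : C ≠ 0 := by
                  rintro rfl
                  rw [mul_zero] at hC
                  exact Ai_ne (Or.inr hB) hC
                have h8 : B.primeFactors.card ≤ 1 + C.primeFactors.card := by
                  rw [hC, Nat.primeFactors_mul (by norm_num) hC0]
                  refine (card_union_le _ _).trans ?_
                  rw [Nat.Prime.primeFactors Nat.prime_three, card_singleton]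
                have h3B : 3 ∣ B := ⟨C, hC⟩
                have h3A' : ¬ 3 ∣ A := by
                  have := hA.2.1
                  omega
                unfold me3
                rw [if_pos h3B, if_neg h3A']
                omega
            have hcl : ((Ai B ∧ K3 (3 * A / B)) ∨ (A0 B ∧ K0 (3 * A / B))) → (Ai B ∨ A0 B) := by
              rintro (h | h)
              · exact Or.inl h.1
              · exact Or.inr h.1
            constructor
            · rintro ⟨g2, g3, g4⟩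
              exact ⟨g2, (ih _ (hk ▸ hsm g2) B rfl (hcl g2)).1 g3, g4⟩
            · rintro ⟨g2, g3, g4⟩
              exact ⟨g2, (ih _ (hk ▸ hsm g2) B rfl (hcl g2)).2 g3, g4⟩) h2
        have hK : K3 (3 * A / A) := by
          rw [hd, K3_iff]
          refine ⟨Or.inl ⟨Nat.prime_three.squarefree, by norm_num⟩, ?_, dvd_rfl⟩
          unfold Pool.Agent.N877.P21.Sp7
          norm_num
        have hQ : QQ (3 * A / A) := by rw [hd]; exact QQ3
        constructor
        · intro g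
          exact (h3.1 ⟨Or.inl ⟨hA, hK⟩, g, hQ⟩).2.1
        · intro g
          exact (h3.2 ⟨Or.inl ⟨hA, hK⟩, g, hQ⟩).2.1
      · -- `n = 7 A`
        have hPs : Ps A := (Ps_Fd _).2 hA.1
        have hco := co7 hA.2.2
        have hd : 7 * A / A = 7 := Nat.mul_div_cancel _ (Nat.pos_of_ne_zero hA0)
        have hn : Ng (7 * A) := Ng_odd hPs p7.squarefree (by norm_num) hco
        have h21 : 21 ∣ 7 * A := by
          have := hA.2.1
          omega
        have h1 := hyb _ hn h21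
        have h2 := z21b hn h21
        rw [h1] at h2
        have hmem : A ∈ ud (7 * A) := by
          unfold ud
          rw [mem_filter, hd]
          exact ⟨Nat.mem_divisors.2 ⟨Dvd.intro_left _ rfl, by positivity⟩, hco⟩
        have h3 := odd_uniq (ud (7 * A))
          (fun B => ((Ai B ∧ K21 (7 * A / B)) ∨ (A0 B ∧ K7 (7 * A / B))) ∧ y B ∧ QQ (7 * A / B))
          (fun B => ((Ai B ∧ K21 (7 * A / B)) ∨ (A0 B ∧ K7 (7 * A / B))) ∧ CY (-7) B ∧
            QQ (7 * A / B)) hmem (by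
            intro B hB hBA
            unfold ud at hB
            rw [mem_filter] at hB
            obtain ⟨hB1, hB2⟩ := hB
            have hBd := Nat.dvd_of_mem_divisors hB1
            have hsm : ((Ai B ∧ K21 (7 * A / B)) ∨ (A0 B ∧ K7 (7 * A / B))) → me3 B < me3 A := by
              intro hB
              have hcoB : Nat.Coprime B 7 := by
                rcases hB with ⟨hB, _⟩ | ⟨hB, _⟩
                · exact co7 hB.2.2
                · exact co7 hB.2.2
              obtain ⟨h5, h6⟩ := ud_cancel hA0 (by norm_num) hcoB hBd hB2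
              exact me3_drop hA0 h5 h6 hBA
            have hcl : ((Ai B ∧ K21 (7 * A / B)) ∨ (A0 B ∧ K7 (7 * A / B))) → (Ai B ∨ A0 B) := by
              rintro (h | h)
              · exact Or.inl h.1
              · exact Or.inr h.1
            constructor
            · rintro ⟨g2, g3, g4⟩
              exact ⟨g2, (ih _ (hk ▸ hsm g2) B rfl (hcl g2)).1 g3, g4⟩
            · rintro ⟨g2, g3, g4⟩
              exact ⟨g2, (ih _ (hk ▸ hsm g2) B rfl (hcl g2)).2 g3, g4⟩) h2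
        have hK : K7 (7 * A / A) := by
          rw [hd, K7_iff]
          exact ⟨Or.inl ⟨p7.squarefree, by norm_num⟩, dvd_rfl, by norm_num⟩
        have hQ : QQ (7 * A / A) := by rw [hd]; exact QQ7
        constructor
        · intro g
          exact (h3.1 ⟨Or.inr ⟨hA, hK⟩, g, hQ⟩).2.1
        · intro g
          exact (h3.2 ⟨Or.inr ⟨hA, hK⟩, g, hQ⟩).2.1
  intro A hA
  exact key _ A rfl hA

end Pool.Agent.N972.GC
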