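import Pool.Agent.N972.F2.Crit
import Pool.Agent.N972.GC.Defs
import Pool.Agent.N855.P17.ZZ
import Pool.Agent.N816.P17.Crit
import Pool.Agent.N969.RQ.Defs

/-!
# Arithmetic of the Rédei matrices (helper972)
-/

set_option autoImplicit false
set_option linter.unusedSectionVars false

open Finset

namespace Pool.Agent.N972.GC

open Pool.Agent.N855.P17
open Pool.Agent.N972.F2
open Pool.Agent.N972.P17 (ls al LL)
open Pool.Agent.N969.P15 (Qc Qe Ev)
open Pool.Agent.N969.P17G (LLP alP lsP starP)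
open Pool.Agent.N969.RQ (Fd ud)

/-! ### the matrices -/

/-- the off-diagonal entries for the set of all primes -/
def lp (n0 p q : ℕ) : ZMod 2 := if p.Prime ∧ q.Prime then ls n0 q p else 0

/-- the signs -/
def ap (n0 q : ℕ) : ZMod 2 := if q.Prime then al n0 q else 0

/-- the weights of the left relation -/
def kq (n0 p : ℕ) : ZMod 2 :=
  if p = 2 ∧ Pool.Agent.N972.P17.star n0 2 = -4 then 0 else 1

theorem lp_of {n0 p q : ℕ} (hp : p.Prime) (hq : q.Prime) : lp n0 p q = ls n0 q p := if_pos ⟨hp, hq⟩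

theorem ap_of {n0 q : ℕ} (hq : q.Prime) : ap n0 q = al n0 q := if_pos hq

theorem kq_odd {n0 p : ℕ} (hp : p ≠ 2) : kq n0 p = 1 := if_neg fun h => hp h.1

theorem recip' (n0 : ℕ) {p q : ℕ} (hp : p.Prime) (hq : q.Prime) (hpq : p ≠ q)
    (h : (p ≠ 2 ∧ q ≠ 2) ∨ Pool.Agent.N972.P17.star n0 2 ≠ -4) :
    ls n0 q p + ls n0 p q = al n0 p * al n0 q := by
  by_cases hp2 : p = 2
  · subst hp2
    have h8 : Pool.Agent.N972.P17.star n0 2 ≠ -4 := by
      rcases h with h | h
      · exact absurd rfl h.1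
      · exact h
    rw [add_comm, recip2 n0 h8 hq (Ne.symm hpq), mul_comm]
  · by_cases hq2 : q = 2
    · subst hq2
      have h8 : Pool.Agent.N972.P17.star n0 2 ≠ -4 := by
        rcases h with h | h
        · exact absurd rfl h.2
        · exact h
      exact recip2 n0 h8 hp hp2
    · exact recip n0 hp hq hp2 hq2 hpq

theorem Lm_filter (n0 : ℕ) (S : Finset ℕ) {p q : ℕ} (hq : q.Prime) :
    Lm (lp n0) S p q = if p.Prime then
      (if p = q then ∑ r ∈ (S.filter Nat.Prime).erase p, ls n0 r p else ls n0 q p) else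
      (if p = q then 1 else 0) := by
  unfold Lm
  by_cases hpq : p = q
  · subst hpq
    rw [if_pos rfl, if_pos hq, if_pos rfl]
    have e : (S.filter Nat.Prime).erase p = (S.erase p).filter Nat.Prime := by
      ext x
      simp only [mem_erase, mem_filter]
      tauto
    rw [e, sum_filter]
    refine sum_congr rfl fun r _ => ?_
    unfold lp
    by_cases hr : r.Prime
    · rw [if_pos ⟨hq, hr⟩, if_pos hr]
    · rw [if_neg fun h => hr h.2, if_neg hr]
  · rw [if_neg hpq, if_neg hpq, if_neg hpq]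
    unfold lp
    by_cases hp : p.Prime
    · rw [if_pos ⟨hp, hq⟩, if_pos hp]
    · rw [if_neg fun h => hp h.1, if_neg hp]

theorem sm_ap (n0 : ℕ) (S : Finset ℕ) : sm (ap n0) S = ∑ p ∈ S.filter Nat.Prime, al n0 p := by
  unfold sm ap
  rw [sum_filter]

/-- **the left relation** -/
theorem hk (n0 : ℕ) : HK (lp n0) (ap n0) (kq n0) := by
  intro S q hqS
  by_cases hq : q.Prime
  · set B := S.filter Nat.Prime with hB
    have hBp : ∀ p ∈ B, p.Prime := fun p hp => (mem_filter.1 hp).2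
    have hqB : q ∈ B := mem_filter.2 ⟨hqS, hq⟩
    rw [sm_ap, ap_of hq, ← hB]
    have e1 : ∑ p ∈ S, kq n0 p * Lm (lp n0) S p q = ∑ p ∈ B, kq n0 p *
        (if p = q then ∑ r ∈ B.erase p, ls n0 r p else ls n0 q p) := by
      rw [hB, sum_filter]
      refine sum_congr rfl fun p _ => ?_
      rw [Lm_filter n0 S hq]
      by_cases hp : p.Prime
      · rw [if_pos hp, if_pos hp]
      · rw [if_neg hp, if_neg hp, if_neg, mul_zero]
        rintro rfl
        exact hp hq
    rw [e1, ← add_sum_erase B _ hqB, if_pos rfl]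
    have e2 : ∑ p ∈ B.erase q, kq n0 p * (if p = q then ∑ r ∈ B.erase p, ls n0 r p else ls n0 q p) =
        ∑ p ∈ B.erase q, kq n0 p * ls n0 q p :=
      sum_congr rfl fun p hp => by rw [if_neg (ne_of_mem_erase hp)]
    rw [e2]
    have hal : ∑ p ∈ B, al n0 p = al n0 q + ∑ p ∈ B.erase q, al n0 p :=
      (add_sum_erase B _ hqB).symm
    have hz2 : ∀ z : ZMod 2, z * z = z := by decide
    by_cases h4 : Pool.Agent.N972.P17.star n0 2 = -4
    · have ha2 : al n0 2 = 1 := by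
        unfold al
        rw [h4]
        rfl
      by_cases hq2 : q = 2
      · subst hq2
        have hk0 : kq n0 2 = 0 := if_pos ⟨rfl, h4⟩
        rw [hk0, zero_mul, zero_add, hal, ha2, mul_one]
        have : ∀ z : ZMod 2, 1 + z + 1 = z := by decide
        rw [this]
        refine sum_congr rfl fun p hp => ?_
        have hp2 := ne_of_mem_erase hp
        rw [kq_odd hp2, one_mul]
        exact ls_m4 h4 (hBp p (mem_of_mem_erase hp)) hp2
      · rw [kq_odd hq2, one_mul, ← sum_add_distrib]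
        have e3 : ∀ p ∈ B.erase q, ls n0 p q + kq n0 p * ls n0 q p =
            if p = 2 then al n0 q else al n0 p * al n0 q := by
          intro p hp
          have hpq := ne_of_mem_erase hp
          have hpp := hBp p (mem_of_mem_erase hp)
          split_ifs with h
          · subst h
            have hk0 : kq n0 2 = 0 := if_pos ⟨rfl, h4⟩
            rw [hk0, zero_mul, add_zero]
            exact ls_m4 h4 hq hq2
          · rw [kq_odd h, one_mul, add_comm]
            exact recip' n0 hpp hq hpq (Or.inl ⟨h, hq2⟩)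
        have e4 : ∀ p ∈ B.erase q, (if p = 2 then al n0 q else al n0 p * al n0 q) =
            al n0 p * al n0 q := by
          intro p _
          split_ifs with h
          · rw [h, ha2, one_mul]
          · rfl
        rw [sum_congr rfl e3, sum_congr rfl e4, ← sum_mul, hal]
        have : ∀ u w : ZMod 2, w * u = (u + w + 1) * u := by decide
        exact this _ _
    · have hk1 : ∀ p, kq n0 p = 1 := fun p => if_neg fun h => h4 h.2
      rw [hk1, one_mul, ← sum_add_distrib]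
      have e3 : ∀ p ∈ B.erase q, ls n0 p q + kq n0 p * ls n0 q p = al n0 p * al n0 q := by
        intro p hp
        rw [hk1, one_mul, add_comm]
        exact recip' n0 (hBp p (mem_of_mem_erase hp)) hq (ne_of_mem_erase hp) (Or.inr h4)
      rw [sum_congr rfl e3, ← sum_mul, hal]
      have : ∀ u w : ZMod 2, w * u = (u + w + 1) * u := by decide
      exact this _ _
  · have ha : ap n0 q = 0 := if_neg hq
    rw [ha, mul_zero]
    refine sum_eq_zero fun p _ => ?_
    have hl : ∀ r, lp n0 r q = 0 := fun r => if_neg fun h => hq h.2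
    have hl' : ∀ r, lp n0 q r = 0 := fun r => if_neg fun h => hq h.1
    unfold Lm
    split_ifs with h
    · subst h
      rw [sum_eq_zero fun r _ => hl' r, mul_zero]
    · rw [hl, mul_zero]

/-- the matrix of a set of primes -/
theorem Lm_lp (n0 : ℕ) {T : Finset ℕ} (hT : ∀ p ∈ T, p.Prime) {p q : ℕ} (hp : p ∈ T) (hq : q ∈ T) :
    Lm (lp n0) T p q = Lm (fun p q => ls n0 q p) T p q := by
  unfold Lm
  split_ifs with h
  · exact sum_congr rfl fun r hr => lp_of (hT p hp) (hT r (mem_of_mem_erase hr))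
  · exact lp_of (hT p hp) (hT q hq)

theorem sm_al (n0 : ℕ) {T : Finset ℕ} (hT : ∀ p ∈ T, p.Prime) :
    sm (ap n0) T = ∑ p ∈ T, al n0 p := sum_congr rfl fun p hp => ap_of (hT p hp)

theorem Ts_lp (n0 : ℕ) {T : Finset ℕ} (hT : ∀ p ∈ T, p.Prime) :
    Ts (lp n0) T ↔ Ts (fun p q => ls n0 q p) T := by
  unfold Ts
  have h : ∀ (y : ℕ → ZMod 2), ∀ p ∈ T, ∑ q ∈ T, Lm (lp n0) T p q * y q =
      ∑ q ∈ T, Lm (fun p q => ls n0 q p) T p q * y q := fun y p hp =>
    sum_congr rfl fun q hq => by rw [Lm_lp n0 hT hp hq]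
  constructor
  · intro h1 y hy
    exact h1 y fun p hp => by rw [h y p hp]; exact hy p hp
  · intro h1 y hy
    exact h1 y fun p hp => by rw [← h y p hp]; exact hy p hp

/-! ### the class number criterion -/

/-- the class number criterion -/
def QQ (n : ℕ) : Prop := if 2 ∣ n then Qe n else Qc n

theorem two_dvd_NT (n0 : ℕ) {T : Finset ℕ} (hT : ∀ p ∈ T, p.Prime) : 2 ∣ NT n0 T ↔ 2 ∈ T := by
  constructor
  · intro h
    rw [← NT_pf (n0 := n0) hT]
    exact Nat.mem_primeFactors.2 ⟨Nat.prime_two, h, (NT_pos hT).ne'⟩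
  · intro h
    rw [← NT_pf (n0 := n0) hT] at h
    exact Nat.dvd_of_mem_primeFactors h

theorem QQ_Ts (n0 : ℕ) {T : Finset ℕ} (hT : ∀ p ∈ T, p.Prime) (ha : ∑ p ∈ T, al n0 p = 1)
    (h4 : NT n0 T ≠ 4) : QQ (NT n0 T) ↔ Ts (fun p q => ls n0 q p) T := by
  unfold QQ
  by_cases h2 : 2 ∈ T
  · rw [if_pos ((two_dvd_NT n0 hT).2 h2)]
    have hev := NT_Ev (n0 := n0) hT h2 ha
    rw [← Pool.Agent.N816.P17.Crit.Ts_Qe hev.1 h4, NT_pf hT]
    refine Ts_congr fun p _ q _ _ => ?_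
    unfold ls
    rw [hev.2]
  · rw [if_neg fun h => h2 ((two_dvd_NT n0 hT).1 h)]
    have h3 := (mod3_iff n0 hT h2).2 ha
    have hN : NT n0 T = NN T := NT_out h2
    rw [hN, ← Pool.Agent.N816.P17.Crit.Ts_Qc (NN_sq hT) h3, NN_pf hT]
    exact Ts_congr fun p hp q hq _ => ls_eq _ _ fun h => h2 (h ▸ hq)

/-- an odd prime of the set, or the prime `2` with another type -/
theorem exk (n0 : ℕ) {T : Finset ℕ} (hT : ∀ p ∈ T, p.Prime) (hne : T.Nonempty)
    (h4 : NT n0 T ≠ 4) : ∃ r ∈ T, kq n0 r = 1 := by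
  by_contra h
  push Not at h
  have h1 : ∀ r ∈ T, r = 2 ∧ Pool.Agent.N972.P17.star n0 2 = -4 := by
    intro r hr
    by_contra h2
    exact h r hr (if_neg h2)
  obtain ⟨r, hr⟩ := hne
  have h2 : T = {2} := by
    ext x
    rw [mem_singleton]
    constructor
    · intro hx
      exact (h1 x hx).1
    · rintro rfl
      rw [← (h1 r hr).1]
      exact hr
  apply h4
  rw [h2, NT_in (mem_singleton_self 2)]
  unfold kp NN
  rw [(h1 r hr).2]
  simp

theorem T1_QQ (n0 : ℕ) {T : Finset ℕ} (hT : ∀ p ∈ T, p.Prime) (ha : sm (ap n0) T = 1)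
    (h4 : NT n0 T ≠ 4) : T1 (lp n0) (ap n0) (kq n0) T = ind (QQ (NT n0 T)) := by
  have hne : T.Nonempty := by
    rw [nonempty_iff_ne_empty]
    rintro rfl
    rw [sm_empty] at ha
    exact zero_ne_one ha
  obtain ⟨r, hr, hkr⟩ := exk n0 hT hne h4
  rw [T1_Ts (lp n0) (hk n0) ha hr hkr]
  rw [sm_al n0 hT] at ha
  exact ind_congr ((Ts_lp n0 hT).trans (QQ_Ts n0 hT ha h4).symm)

/-! ### the criterion with a functional -/

theorem lsP_ls (n0 : ℕ) {T : Finset ℕ} (hT : ∀ p ∈ T, p.Prime) (ha : ∑ p ∈ T, al n0 p = 0)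
    {p q : ℕ} (hq : q ∈ T) : lsP (NT n0 T) q p = ls n0 q p := by
  unfold lsP ls
  rw [starP_eq n0 hT ha q hq]

theorem LLP_Lm (n0 : ℕ) {T : Finset ℕ} (hT : ∀ p ∈ T, p.Prime) (ha : ∑ p ∈ T, al n0 p = 0)
    {p q : ℕ} (hp : p ∈ T) (hq : q ∈ T) : LLP (NT n0 T) p q = Lm (lp n0) T p q := by
  rw [Lm_lp n0 hT hp hq]
  unfold LLP Lm
  rw [NT_pf hT]
  split_ifs with h
  · exact sum_congr rfl fun r hr => lsP_ls n0 hT ha (mem_of_mem_erase hr)
  · exact lsP_ls n0 hT ha hq

theorem CY_Yd (n0 : ℕ) {T : Finset ℕ} (hT : ∀ p ∈ T, p.Prime) (hne : T.Nonempty)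
    (ha : sm (ap n0) T = 0) (s : ℤ) : CY s (NT n0 T) ↔ Yd (lp n0) (kr s) T = 1 := by
  rw [Yd_ker (lp n0) (kr s) hne]
  rw [sm_al n0 hT] at ha
  unfold CY
  rw [NT_pf hT]
  have h : ∀ (y : ℕ → ZMod 2), ∀ p ∈ T, ∑ q ∈ T, LLP (NT n0 T) p q * y q =
      ∑ q ∈ T, Lm (lp n0) T p q * y q := fun y p hp =>
    sum_congr rfl fun q hq => by rw [LLP_Lm n0 hT ha hp hq]
  constructor
  · intro h1 y a hy
    exact h1 y a fun p hp => by rw [h y p hp]; exact hy p hp
  · intro h1 y a hy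
    exact h1 y a fun p hp => by rw [← h y p hp]; exact hy p hp

theorem Yd_CY (n0 : ℕ) {T : Finset ℕ} (hT : ∀ p ∈ T, p.Prime) (hne : T.Nonempty)
    (ha : sm (ap n0) T = 0) (s : ℤ) : Yd (lp n0) (kr s) T = ind (CY s (NT n0 T)) := by
  rw [ind_congr (CY_Yd n0 hT hne ha s), ← ind_congr (a01 _), ind_ne]

/-! ### the functionals -/

/-- the functional with the value zero at the vertex of `-4` -/
def rh (n0 : ℕ) (s : ℤ) (p : ℕ) : ZMod 2 :=
  if p = 2 ∧ Pool.Agent.N972.P17.star n0 2 = -4 then 0 else kr s p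

theorem kr_three (n0 p : ℕ) : kr (-3) p = ls n0 3 p := by
  have h : Pool.Agent.N972.P17.star n0 3 = -3 := by
    rw [star_odd n0 (by norm_num)]
    norm_num
  unfold kr ls
  rw [h]

theorem kr_five (n0 p : ℕ) : kr 5 p = ls n0 5 p := by
  have h : Pool.Agent.N972.P17.star n0 5 = 5 := by
    rw [star_odd n0 (by norm_num)]
    norm_num
  unfold kr ls
  rw [h]

theorem kr_seven (n0 p : ℕ) : kr (-7) p = ls n0 7 p := by
  have h : Pool.Agent.N972.P17.star n0 7 = -7 := by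
    rw [star_odd n0 (by norm_num)]
    norm_num
  unfold kr ls
  rw [h]

theorem rh_sup (n0 : ℕ) (s : ℤ) (p : ℕ) (hp : kq n0 p = 0) : rh n0 s p = 0 := by
  unfold rh
  by_cases h : p = 2 ∧ Pool.Agent.N972.P17.star n0 2 = -4
  · rw [if_pos h]
  · unfold kq at hp
    rw [if_neg h] at hp
    exact absurd hp one_ne_zero

theorem al_star (n0 : ℕ) (h : Pool.Agent.N972.P17.star n0 2 = -4) : al n0 2 = 1 := by
  unfold al
  rw [h]
  rfl

theorem jac_m4 {r : ℕ} (hr : Odd r) : jacobiSym (-4) r = if r % 4 = 1 then 1 else -1 := J4 hr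

/-- the value at a prime `r` and the functional of the prime discriminant of `r` -/
theorem ls_rh (n0 : ℕ) {r q : ℕ} (hr : r.Prime) (hr2 : r ≠ 2) (hq : q.Prime) (hqr : q ≠ r)
    {s : ℤ} (hs : ∀ p, kr s p = ls n0 r p) : ls n0 q r = rh n0 s q + al n0 r * al n0 q := by
  unfold rh
  by_cases h : q = 2 ∧ Pool.Agent.N972.P17.star n0 2 = -4
  · rw [if_pos h, zero_add]
    obtain ⟨rfl, h4⟩ := h
    rw [ls_m4 h4 hr hr2, al_star n0 h4, mul_one]
  · rw [if_neg h, hs]
    have h1 : (r ≠ 2 ∧ q ≠ 2) ∨ Pool.Agent.N972.P17.star n0 2 ≠ -4 := by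
      by_cases h2 : q = 2
      · right
        intro h3
        exact h ⟨h2, h3⟩
      · exact Or.inl ⟨hr2, h2⟩
    have h2 := recip' n0 hr hq (Ne.symm hqr) h1
    have : ∀ u w z : ZMod 2, u + w = z → u = w + z := by decide
    exact this _ _ _ h2

/-- the discriminant of a set -/
theorem DD_prod (n0 : ℕ) {T : Finset ℕ} (hT : ∀ p ∈ T, p.Prime) :
    ∏ q ∈ T, Pool.Agent.N972.P17.star n0 q =
      (if ∑ q ∈ T, al n0 q = 0 then 1 else -1) * (NT n0 T : ℤ) := by
  have hodd : ∀ U : Finset ℕ, (∀ p ∈ U, p.Prime) → 2 ∉ U →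
      ∏ q ∈ U, Pool.Agent.N972.P17.star n0 q = (if ∑ q ∈ U, al n0 q = 0 then 1 else -1) * (NN U : ℤ) := by
    intro U hU h2
    rw [Pool.Agent.N816.P17.Crit.star_prod n0 U fun p hp =>
      (hU p hp).odd_of_ne_two fun h => h2 (h ▸ hp)]
    have hN : (∏ p ∈ U, p) = NN U := rfl
    rw [hN]
    unfold Pool.Agent.N816.P17.Crit.st
    rcases par_mod n0 hU h2 with ⟨h3, h4⟩ | ⟨h3, h4⟩
    · rw [if_pos h3, h4, if_pos rfl, one_mul]
    · rw [if_neg (by omega), h4, if_neg one_ne_zero]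
      ring
  by_cases h2 : 2 ∈ T
  · rw [← mul_prod_erase T _ h2, hodd _ (hTe hT) (notMem_erase 2 T), NT_in h2, al_split h2]
    rcases star2 n0 with ⟨h3, h4, h5⟩ | ⟨h3, h4, h5⟩ | ⟨h3, h4, h5⟩
    · rw [h3, h4, h5]
      rcases z01 (∑ p ∈ T.erase 2, al n0 p) with h | h
      · rw [h, if_pos rfl, if_neg (by decide)]
        push_cast
        ring
      · rw [h, if_neg one_ne_zero, if_pos (by decide)]
        push_cast
        ring
    · rw [h3, h4, h5]
      rcases z01 (∑ p ∈ T.erase 2, al n0 p) with h | h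
      · rw [h, if_pos rfl, if_neg (by decide)]
        push_cast
        ring
      · rw [h, if_neg one_ne_zero, if_pos (by decide)]
        push_cast
        ring
    · rw [h3, h4, h5, zero_add]
      push_cast
      ring
  · rw [hodd T hT h2, NT_out h2]

theorem star_cop (n0 : ℕ) {q r : ℕ} (hq : q.Prime) (hr : r.Prime) (hr2 : r ≠ 2) (hqr : q ≠ r) :
    Int.gcd (Pool.Agent.N972.P17.star n0 q) r = 1 := by
  by_cases h : q = 2
  · subst h
    have h2 : Int.gcd 2 (r : ℤ) = 1 := by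
      have h5 : Nat.gcd 2 r = 1 := (Nat.coprime_primes Nat.prime_two hr).2 (Ne.symm hr2)
      exact (Int.gcd_natCast_natCast 2 r).trans h5
    have h8 : Int.gcd (2 ^ 3) (r : ℤ) = 1 := by
      rw [Int.gcd_eq_natAbs] at h2 ⊢
      exact Nat.Coprime.pow_left 3 h2
    have h4 : Int.gcd (2 ^ 2) (r : ℤ) = 1 := by
      rw [Int.gcd_eq_natAbs] at h2 ⊢
      exact Nat.Coprime.pow_left 2 h2
    rcases star2 n0 with ⟨h3, _, _⟩ | ⟨h3, _, _⟩ | ⟨h3, _, _⟩
    · rw [h3, show (-4 : ℤ) = -(2 ^ 2) by norm_num, Int.neg_gcd]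
      exact h4
    · rw [h3, show (-8 : ℤ) = -(2 ^ 3) by norm_num, Int.neg_gcd]
      exact h8
    · rw [h3, show (8 : ℤ) = 2 ^ 3 by norm_num]
      exact h8
  · rw [star_odd n0 h]
    have h5 : Nat.gcd q r = 1 := (Nat.coprime_primes hq hr).2 hqr
    split_ifs
    · exact (Int.gcd_natCast_natCast q r).trans h5
    · rw [Int.neg_gcd]
      exact (Int.gcd_natCast_natCast q r).trans h5

/-- the symbol of the discriminant at a prime `r` -/
theorem typ (n0 : ℕ) {T : Finset ℕ} (hT : ∀ p ∈ T, p.Prime) {r : ℕ} (hr : r.Prime) (hr2 : r ≠ 2)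
    (hrT : r ∉ T) : jacobiSym ((if ∑ q ∈ T, al n0 q = 0 then 1 else -1) * (NT n0 T : ℤ)) r =
      if ∑ q ∈ T, ls n0 q r = 0 then 1 else -1 := by
  rw [← DD_prod n0 hT]
  clear * - hT hrT hr hr2
  induction T using Finset.induction_on with
  | empty =>
    rw [prod_empty, sum_empty, if_pos rfl, jacobiSym.one_left]
  | insert q T hq ih =>
    have ih' := ih (fun p hp => hT p (mem_insert_of_mem hp)) fun h => hrT (mem_insert_of_mem h)
    have hqp := hT q (mem_insert_self q T)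
    have hqr : q ≠ r := by
      rintro rfl
      exact hrT (mem_insert_self q T)
    rw [prod_insert hq, sum_insert hq, jacobiSym.mul_left, ih', ls_odd n0 hr2]
    rcases jacobiSym.eq_one_or_neg_one (star_cop n0 hqp hr hr2 hqr) with h | h
    · rw [h, if_pos rfl, zero_add, one_mul]
    · rw [h, if_neg (by norm_num : ¬ (-1 : ℤ) = 1)]
      rcases z01 (∑ q ∈ T, ls n0 q r) with h1 | h1
      · rw [h1, if_pos rfl, if_neg (by decide)]
        norm_num
      · rw [h1, if_neg one_ne_zero, if_pos (by decide)]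
        norm_num

/-! ### fundamental discriminants -/

/-- `-n` is a fundamental discriminant -/
def Fn (n : ℕ) : Prop := (Squarefree n ∧ n % 4 = 3) ∨ Ev n

theorem Fn_NT {n : ℕ} (h : Fn n) : NT n n.primeFactors = n ∧ ∑ p ∈ n.primeFactors, al n p = 1 := by
  rcases h with ⟨h1, h2⟩ | h
  · have h2' : 2 ∉ n.primeFactors := by
      intro h
      have := Nat.dvd_of_mem_primeFactors h
      omega
    have hN : NN n.primeFactors = n := Nat.prod_primeFactors_of_squarefree h1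
    have hp : ∀ p ∈ n.primeFactors, p.Prime := fun p hp => Nat.prime_of_mem_primeFactors hp
    refine ⟨by rw [NT_out h2', hN], ?_⟩
    rw [← mod3_iff n hp h2', hN]
    exact h2
  · exact ⟨(Ev_NT h).2.1, (Ev_NT h).2.2⟩

theorem NT_Fn (n0 : ℕ) {T : Finset ℕ} (hT : ∀ p ∈ T, p.Prime) (ha : ∑ p ∈ T, al n0 p = 1) :
    Fn (NT n0 T) := by
  by_cases h2 : 2 ∈ T
  · exact Or.inr (NT_Ev (n0 := n0) hT h2 ha).1
  · left
    rw [NT_out h2]
    exact ⟨NN_sq hT, (mod3_iff n0 hT h2).2 ha⟩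

theorem NT_one (n0 : ℕ) {T : Finset ℕ} (hT : ∀ p ∈ T, p.Prime) : NT n0 T = 1 ↔ T = ∅ := by
  constructor
  · intro h
    rw [← NT_pf (n0 := n0) hT, h]
    simp
  · rintro rfl
    rw [NT_out (notMem_empty 2)]
    rfl

theorem NT_Fd (n0 : ℕ) {T : Finset ℕ} (hT : ∀ p ∈ T, p.Prime) (hne : T.Nonempty)
    (ha : ∑ p ∈ T, al n0 p = 0) : Fd (NT n0 T) := by
  have h1 : 1 < NT n0 T := by
    have h2 := NT_pos (n0 := n0) hT
    have h3 : NT n0 T ≠ 1 := fun h => hne.ne_empty ((NT_one n0 hT).1 h)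
    omega
  refine ⟨h1, ?_⟩
  by_cases h2 : 2 ∈ T
  · right
    obtain ⟨k1, _, hk, hsq, hm⟩ := NT_pos_disc (n0 := n0) hT h2 ha
    exact ⟨k1 * NN (T.erase 2), by rw [NT_in h2, hk]; ring, hsq, hm⟩
  · left
    rw [NT_out h2]
    exact ⟨NN_sq hT, (mod1_iff n0 hT h2).2 ha⟩

theorem four_dvd_NT (n0 : ℕ) {X : Finset ℕ} (hX : 2 ∈ X) : 4 ∣ NT n0 X := by
  rw [NT_in hX]
  rcases kp_cases n0 with h | h
  · rw [h]; exact Dvd.intro _ rfl
  · rw [h]; exact Dvd.dvd.mul_right (by norm_num) _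

/-- the sign of the discriminant of a part -/
theorem pair_al (n0 : ℕ) {P E : Finset ℕ} (hP : ∀ p ∈ P, p.Prime) (hE : E ⊆ P)
    (ha : ∑ p ∈ P, al n0 p = 1) (h1 : Fd (NT n0 E)) (h2 : Fn (NT n0 (P \ E))) :
    ∑ p ∈ E, al n0 p = 0 := by
  have hEp : ∀ p ∈ E, p.Prime := fun p hp => hP p (hE hp)
  have hEp' : ∀ p ∈ P \ E, p.Prime := fun p hp => hP p (mem_sdiff.1 hp).1
  by_cases h2E : 2 ∈ E
  · have h9 : 2 ∉ P \ E := fun h => (mem_sdiff.1 h).2 h2E
    have h3 : NT n0 (P \ E) % 4 = 3 := by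
      rcases h2 with h | h
      · exact h.2
      · obtain ⟨m, hm, _⟩ := h
        exfalso
        apply h9
        rw [← two_dvd_NT n0 hEp', hm]
        exact ⟨2 * m, by ring⟩
    rw [NT_out h9, mod3_iff n0 hEp' h9, par_sdiff hE, ha] at h3
    have : ∀ z : ZMod 2, 1 + z = 1 → z = 0 := by decide
    exact this _ h3
  · have h3 : NT n0 E % 4 = 1 := by
      rcases h1.2 with h | ⟨m, hm, _⟩
      · exact h.2
      · exfalso
        apply h2E
        rw [← two_dvd_NT n0 hEp, hm]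
        exact ⟨2 * m, by ring⟩
    rw [NT_out h2E, mod1_iff n0 hEp h2E] at h3
    exact h3

/-- the sum over the unitary divisors -/
theorem ud_sum {M : Type} [AddCommMonoid M] (n0 : ℕ) {P : Finset ℕ} (hP : ∀ p ∈ P, p.Prime)
    (f : ℕ → M) : ∑ A ∈ ud (NT n0 P), f A = ∑ E ∈ P.powerset, f (NT n0 E) := by
  have hsub : ∀ E ⊆ P, ∀ p ∈ E, p.Prime := fun E hE p hp => hP p (hE hp)
  symm
  refine sum_bij' (fun E _ => NT n0 E) (fun A _ => A.primeFactors) ?_ ?_ ?_ ?_ ?_
  · intro E hE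
    rw [mem_powerset] at hE
    unfold ud
    have hm := NT_mul n0 hE
    have hd : NT n0 P / NT n0 E = NT n0 (P \ E) := by
      rw [← hm]
      exact Nat.mul_div_cancel _ (NT_pos (hsub E hE))
    rw [mem_filter, Nat.mem_divisors, hd]
    refine ⟨⟨⟨NT n0 (P \ E), by rw [mul_comm, hm]⟩, (NT_pos hP).ne'⟩, ?_⟩
    rw [← Nat.disjoint_primeFactors (NT_pos (hsub E hE)).ne'
      (NT_pos (hsub _ (sdiff_subset : P \ E ⊆ P))).ne', NT_pf (hsub E hE),
      NT_pf (hsub _ (sdiff_subset : P \ E ⊆ P))]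
    exact disjoint_sdiff
  · intro A hA
    unfold ud at hA
    rw [mem_filter, Nat.mem_divisors] at hA
    rw [mem_powerset]
    exact (unit_NT n0 hP (Nat.mul_div_cancel' hA.1.1) hA.2).1
  · intro E hE
    exact NT_pf (hsub E (mem_powerset.1 hE))
  · intro A hA
    unfold ud at hA
    rw [mem_filter, Nat.mem_divisors] at hA
    exact (unit_NT n0 hP (Nat.mul_div_cancel' hA.1.1) hA.2).2
  · intro E _
    rfl

theorem NT_quot (n0 : ℕ) {P E : Finset ℕ} (hP : ∀ p ∈ P, p.Prime) (hE : E ⊆ P) :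
    NT n0 P / NT n0 E = NT n0 (P \ E) := by
  rw [← NT_mul n0 hE]
  exact Nat.mul_div_cancel _ (NT_pos fun p hp => hP p (hE hp))

theorem dvd_NT (n0 : ℕ) {T : Finset ℕ} (hT : ∀ p ∈ T, p.Prime) {r : ℕ} (hr : r.Prime) :
    r ∣ NT n0 T ↔ r ∈ T := by
  constructor
  · intro h
    rw [← NT_pf (n0 := n0) hT]
    exact Nat.mem_primeFactors.2 ⟨hr, h, (NT_pos hT).ne'⟩
  · intro h
    rw [← NT_pf (n0 := n0) hT] at h
    exact Nat.dvd_of_mem_primeFactors h

end Pool.Agent.N972.GC
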