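import Pool.Agent.N972.F2.Pf
import Pool.Agent.N972.GC.Lv21
import Pool.Agent.N855.RQ.Fin21

/-!
# The criterion `C21` and the pairs of divisors (helper972)
-/

set_option autoImplicit false
set_option linter.unusedSectionVars false

open Finset

namespace Pool.Agent.N972.GC

open Pool.Agent.N855.P17
open Pool.Agent.N972.F2
open Pool.Agent.N972.P17 (ls al LL)
open Pool.Agent.N969.P15 (Qc Qe Ev)
open Pool.Agent.N969.P17G (LLP alP lsP starP)
open Pool.Agent.N969.RQ (Fd ud R21 R21r)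
open Pool.Agent.N973.P15G (Ps Ng)
open Pool.Agent.N877.P21G (I7 Ai)
open Pool.Agent.N855.RQp (En7 Ep7 S_ID21 S_ID21r)

/-! ### the discriminants -/

theorem Fd_NT {D : ℕ} (h : Fd D) : ∃ n0 : ℕ, NT n0 D.primeFactors = D ∧
    ∑ p ∈ D.primeFactors, al n0 p = 0 ∧ (2 ∉ D.primeFactors →
      Pool.Agent.N972.P17.star n0 2 ≠ -4) := by
  have hp : ∀ p ∈ D.primeFactors, p.Prime := fun p hp => Nat.prime_of_mem_primeFactors hp
  rcases h with ⟨_, ⟨h1, h2⟩ | ⟨M, h1, h2, h3⟩⟩
  · have h2' : 2 ∉ D.primeFactors := by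
      intro h
      have := Nat.dvd_of_mem_primeFactors h
      omega
    have hN : NN D.primeFactors = D := Nat.prod_primeFactors_of_squarefree h1
    refine ⟨0, by rw [NT_out h2', hN], ?_, fun _ => ?_⟩
    · rw [← mod1_iff 0 hp h2', hN]
      exact h2
    · unfold Pool.Agent.N972.P17.star
      rw [if_pos rfl, if_neg (by norm_num), if_neg (by norm_num)]
      norm_num
  · have hM0 : M ≠ 0 := fun h => by rw [h] at h2; exact absurd h2 (by simp)
    have h2D : 2 ∈ D.primeFactors := Nat.mem_primeFactors.2 ⟨Nat.prime_two, by omega, by omega⟩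
    -- the odd part
    have key : ∀ κ u n0 : ℕ, D = κ * u → (κ = 4 ∨ κ = 8) → u % 2 = 1 → Squarefree u →
        kp n0 = κ → al n0 2 + ∑ p ∈ u.primeFactors, al n0 p = 0 →
        NT n0 D.primeFactors = D ∧ ∑ p ∈ D.primeFactors, al n0 p = 0 := by
      intro κ u n0 hD hκ hu hsq hkp hal
      have hu0 : u ≠ 0 := by omega
      have h2u : 2 ∉ u.primeFactors := by
        intro h
        have := Nat.dvd_of_mem_primeFactors h
        omega
      have hpf : D.primeFactors = insert 2 u.primeFactors := by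
        have hκ2 : κ.primeFactors = {2} := by
          rcases hκ with h | h
          · rw [h, show (4 : ℕ) = 2 ^ 2 by norm_num, Nat.primeFactors_prime_pow (by norm_num)
              Nat.prime_two]
          · rw [h, show (8 : ℕ) = 2 ^ 3 by norm_num, Nat.primeFactors_prime_pow (by norm_num)
              Nat.prime_two]
        rw [hD, Nat.primeFactors_mul (by omega) hu0, hκ2]
        rfl
      have hN : NN u.primeFactors = u := Nat.prod_primeFactors_of_squarefree hsq
      rw [hpf, NT_in (mem_insert_self 2 _), erase_insert h2u, hN, hkp, sum_insert h2u]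
      exact ⟨hD.symm, hal⟩
    have hpu : ∀ u : ℕ, ∀ p ∈ u.primeFactors, p.Prime := fun u p hp =>
      Nat.prime_of_mem_primeFactors hp
    have st4 : Pool.Agent.N972.P17.star 4 2 = -4 := by
      unfold Pool.Agent.N972.P17.star
      rw [if_pos rfl, if_pos (by norm_num)]
    have st8 : Pool.Agent.N972.P17.star 8 2 = -8 := by
      unfold Pool.Agent.N972.P17.star
      rw [if_pos rfl, if_neg (by norm_num), if_pos (by norm_num)]
    have st0 : Pool.Agent.N972.P17.star 0 2 = 8 := by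
      unfold Pool.Agent.N972.P17.star
      rw [if_pos rfl, if_neg (by norm_num), if_neg (by norm_num)]
    rcases h3 with h3 | h3
    · obtain ⟨u, hu⟩ : 2 ∣ M := by omega
      have hu1 : u % 2 = 1 := by omega
      have hsq : Squarefree u := h2.squarefree_of_dvd ⟨2, by omega⟩
      have h2u : 2 ∉ u.primeFactors := by
        intro h
        have := Nat.dvd_of_mem_primeFactors h
        omega
      have hN : NN u.primeFactors = u := Nat.prod_primeFactors_of_squarefree hsq
      rcases (by omega : u % 4 = 1 ∨ u % 4 = 3) with hu4 | hu4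
      · rcases star2 0 with ⟨h4, h5, h6⟩ | ⟨h4, h5, h6⟩ | ⟨h4, h5, h6⟩
        · rw [st0] at h4; norm_num at h4
        · rw [st0] at h4; norm_num at h4
        · obtain ⟨h7, h8⟩ := key 8 u 0 (by omega) (Or.inr rfl) hu1 hsq h5 (by
            rw [h6, zero_add, ← mod1_iff 0 (hpu u) h2u, hN]
            exact hu4)
          exact ⟨0, h7, h8, fun h => absurd h2D h⟩
      · rcases star2 8 with ⟨h4, h5, h6⟩ | ⟨h4, h5, h6⟩ | ⟨h4, h5, h6⟩
        · rw [st8] at h4; norm_num at h4
        · obtain ⟨h7, h8⟩ := key 8 u 8 (by omega) (Or.inr rfl) hu1 hsq h5 (by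
            have : ∑ p ∈ u.primeFactors, al 8 p = 1 := by
              rw [← mod3_iff 8 (hpu u) h2u, hN]
              exact hu4
            rw [h6, this]
            decide)
          exact ⟨8, h7, h8, fun h => absurd h2D h⟩
        · rw [st8] at h4; norm_num at h4
    · have h2u : 2 ∉ M.primeFactors := by
        intro h
        have := Nat.dvd_of_mem_primeFactors h
        omega
      have hN : NN M.primeFactors = M := Nat.prod_primeFactors_of_squarefree h2
      rcases star2 4 with ⟨h4, h5, h6⟩ | ⟨h4, h5, h6⟩ | ⟨h4, h5, h6⟩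
      · obtain ⟨h7, h8⟩ := key 4 M 4 h1 (Or.inl rfl) (by omega) h2 h5 (by
          have : ∑ p ∈ M.primeFactors, al 4 p = 1 := by
            rw [← mod3_iff 4 (hpu M) h2u, hN]
            exact h3
          rw [h6, this]
          decide)
        exact ⟨4, h7, h8, fun h => absurd h2D h⟩
      · rw [st4] at h4; norm_num at h4
      · rw [st4] at h4; norm_num at h4

/-! ### the kernel condition -/

open Classical in
/-- the alternating form with the functional `κ` -/
noncomputable def LK (n0 : ℕ) (κ : ℕ → ZMod 2) (p q : ℕ) : ZMod 2 := if p = q then 0 else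
  if p = 2 ∧ Pool.Agent.N972.P17.star n0 2 = -4 then lp n0 2 q else
  if q = 2 ∧ Pool.Agent.N972.P17.star n0 2 = -4 then lp n0 2 p else ap n0 p * ap n0 q + κ p * κ q

theorem LK_symm (n0 : ℕ) (κ : ℕ → ZMod 2) (p q : ℕ) : LK n0 κ p q = LK n0 κ q p := by
  unfold LK
  by_cases hpq : p = q
  · rw [if_pos hpq, if_pos hpq.symm]
  · rw [if_neg hpq, if_neg (Ne.symm hpq)]
    by_cases h1 : p = 2 ∧ Pool.Agent.N972.P17.star n0 2 = -4
    · rw [if_pos h1, if_neg fun h2 => hpq (h1.1.trans h2.1.symm), if_pos h1]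
    · rw [if_neg h1]
      by_cases h2 : q = 2 ∧ Pool.Agent.N972.P17.star n0 2 = -4
      · rw [if_pos h2, if_pos h2]
      · rw [if_neg h2, if_neg h2, if_neg h1]
        ring

theorem LK_self (n0 : ℕ) (κ : ℕ → ZMod 2) (p : ℕ) : LK n0 κ p p = 0 := if_pos rfl

open Classical in
/-- the vector of the vertex `-4` -/
noncomputable def dvN (n0 p : ℕ) : ZMod 2 := if p = 2 ∧ Pool.Agent.N972.P17.star n0 2 = -4 then 1 else 0

/-- the kernel condition -/
def KK (n0 : ℕ) (κ : ℕ → ZMod 2) (P : Finset ℕ) : Prop := ∀ (x X : ℕ → ZMod 2) (e : ZMod 2),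
  (∀ p ∈ P, ∑ q ∈ P, Lm (lp n0) P p q * x q + ∑ q ∈ P, LK n0 κ p q * X q + e * dvN n0 p = 0) →
  (∀ q ∈ P, ∑ p ∈ P, Lm (lp n0) P p q * X p + e * rh n0 (-3) q = 0) →
  ∑ p ∈ P, rh n0 (-3) p * x p + ∑ p ∈ P, dvN n0 p * X p = 0 →
  (∀ p ∈ P, X p = 0) ∧ e = 0 ∧ ∀ p ∈ P, ∀ q ∈ P, x p = x q

theorem C21_KK (n0 : ℕ) {P : Finset ℕ} (hP : ∀ p ∈ P, p.Prime) (ha : ∑ p ∈ P, al n0 p = 0) :
    C21 (NT n0 P) ↔ KK n0 k7 P := by
  have hv : ∀ p ∈ P, v4 (NT n0 P) p ↔ (p = 2 ∧ Pool.Agent.N972.P17.star n0 2 = -4) := by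
    intro p hp
    unfold v4
    constructor
    · rintro ⟨rfl, h⟩
      refine ⟨rfl, ?_⟩
      rw [← starP_eq n0 hP ha 2 hp]
      unfold starP
      rw [if_pos rfl, if_pos h]
    · rintro ⟨rfl, h⟩
      refine ⟨rfl, ?_⟩
      rw [← starP_eq n0 hP ha 2 hp] at h
      unfold starP at h
      rw [if_pos rfl] at h
      by_contra h1
      rw [if_neg h1] at h
      split_ifs at h <;> omega
  have hal : ∀ p ∈ P, alP (NT n0 P) p = ap n0 p := by
    intro p hp
    rw [ap_of (hP p hp)]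
    unfold alP al
    rw [starP_eq n0 hP ha p hp]
  have hL : ∀ p ∈ P, ∀ q ∈ P, LLP (NT n0 P) p q = Lm (lp n0) P p q := fun p hp q hq =>
    LLP_Lm n0 hP ha hp hq
  have hg : ∀ p ∈ P, g3 (NT n0 P) p = rh n0 (-3) p := by
    intro p hp
    unfold g3 rh
    by_cases h : p = 2 ∧ Pool.Agent.N972.P17.star n0 2 = -4
    · rw [if_pos h, if_pos ((hv p hp).2 h)]
    · rw [if_neg h, if_neg fun h2 => h ((hv p hp).1 h2)]
  have hd : ∀ p ∈ P, d4 (NT n0 P) p = dvN n0 p := by
    intro p hp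
    unfold d4 dvN
    by_cases h : p = 2 ∧ Pool.Agent.N972.P17.star n0 2 = -4
    · rw [if_pos h, if_pos ((hv p hp).2 h)]
    · rw [if_neg h, if_neg fun h2 => h ((hv p hp).1 h2)]
  have hΛ : ∀ p ∈ P, ∀ q ∈ P, Lam (NT n0 P) p q = LK n0 k7 p q := by
    intro p hp q hq
    unfold Lam LK
    by_cases hpq : p = q
    · rw [if_pos hpq, if_pos hpq]
    · rw [if_neg hpq, if_neg hpq]
      by_cases h : p = 2 ∧ Pool.Agent.N972.P17.star n0 2 = -4
      · rw [if_pos h, if_pos ((hv p hp).2 h)]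
        have h2 : 2 ∈ P := h.1 ▸ hp
        rw [hL 2 h2 q hq]
        exact if_neg fun h3 => hpq (h.1.trans h3)
      · rw [if_neg h, if_neg fun h2 => h ((hv p hp).1 h2)]
        by_cases h' : q = 2 ∧ Pool.Agent.N972.P17.star n0 2 = -4
        · rw [if_pos h', if_pos ((hv q hq).2 h')]
          have h2 : 2 ∈ P := h'.1 ▸ hq
          rw [hL 2 h2 p hp]
          exact if_neg fun h3 => hpq (h3.symm.trans h'.1.symm)
        · rw [if_neg h', if_neg fun h2 => h' ((hv q hq).1 h2), hal p hp, hal q hq]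
  unfold C21 KK
  rw [NT_pf hP]
  have e1 : ∀ (x : ℕ → ZMod 2), ∀ p ∈ P, ∑ q ∈ P, LLP (NT n0 P) p q * x q =
      ∑ q ∈ P, Lm (lp n0) P p q * x q := fun x p hp => sum_congr rfl fun q hq => by rw [hL p hp q hq]
  have e2 : ∀ (x : ℕ → ZMod 2), ∀ p ∈ P, ∑ q ∈ P, Lam (NT n0 P) p q * x q =
      ∑ q ∈ P, LK n0 k7 p q * x q := fun x p hp => sum_congr rfl fun q hq => by rw [hΛ p hp q hq]
  have e3 : ∀ (x : ℕ → ZMod 2), ∀ q ∈ P, ∑ p ∈ P, LLP (NT n0 P) p q * x p =
      ∑ p ∈ P, Lm (lp n0) P p q * x p := fun x q hq => sum_congr rfl fun p hp => by rw [hL p hp q hq]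
  have e4 : ∀ (x : ℕ → ZMod 2), ∑ p ∈ P, g3 (NT n0 P) p * x p = ∑ p ∈ P, rh n0 (-3) p * x p :=
    fun x => sum_congr rfl fun p hp => by rw [hg p hp]
  have e5 : ∀ (x : ℕ → ZMod 2), ∑ p ∈ P, d4 (NT n0 P) p * x p = ∑ p ∈ P, dvN n0 p * x p :=
    fun x => sum_congr rfl fun p hp => by rw [hd p hp]
  constructor
  · intro h x X e h1 h2 h3
    refine h x X e (fun p hp => ?_) (fun q hq => ?_) ?_
    · rw [e1 x p hp, e2 X p hp, hd p hp]; exact h1 p hp
    · rw [e3 X q hq, hg q hq]; exact h2 q hq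
    · rw [e4, e5]; exact h3
  · intro h x X e h1 h2 h3
    refine h x X e (fun p hp => ?_) (fun q hq => ?_) ?_
    · rw [← e1 x p hp, ← e2 X p hp, ← hd p hp]; exact h1 p hp
    · rw [← e3 X q hq, ← hg q hq]; exact h2 q hq
    · rw [← e4, ← e5]; exact h3

theorem rh3_7 (n0 : ℕ) : rh n0 (-3) 7 = 0 := by
  unfold rh kr
  rw [if_neg (by norm_num), if_neg (by norm_num), if_pos]
  norm_num

/-- the value of `κ` at `7` does not matter -/
theorem KK_shift (n0 : ℕ) {P : Finset ℕ} (hP : ∀ p ∈ P, p.Prime) (h7 : 7 ∈ P)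
    {κ : ℕ → ZMod 2} (hκ : ∀ p, p ≠ 7 → κ p = kr (-7) p) (h : KK n0 κ P) :
    KK n0 (ad κ 7) P := by
  intro x X e h1 h2 h3
  set x' : ℕ → ZMod 2 := fun p => x p + if p = 7 then X 7 else 0 with hx'
  have hlk : ∀ p ∈ P, p ≠ 7 → Lm (lp n0) P p 7 = κ p := by
    intro p hp hp7
    unfold Lm
    rw [if_neg hp7, lp_of (hP p hp) p7, hκ p hp7, kr_seven n0]
  have hsx : ∀ f : ℕ → ZMod 2, ∑ q ∈ P, f q * x' q = ∑ q ∈ P, f q * x q + f 7 * X 7 := by
    intro f
    have h4 : ∀ q ∈ P, f q * x' q = f q * x q + if q = 7 then f 7 * X 7 else 0 := by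
      intro q _
      rw [hx']
      simp only
      split_ifs with h
      · rw [h]; ring
      · ring
    rw [sum_congr rfl h4, sum_add_distrib, sum_ite_eq' P 7 fun _ => f 7 * X 7, if_pos h7]
  have hκ2 : Pool.Agent.N972.P17.star n0 2 = -4 → κ 2 = 0 := by
    intro _
    rw [hκ 2 (by norm_num)]
    exact kr7_2
  have hΛ : ∀ p q, p ≠ q → LK n0 (ad κ 7) p q = LK n0 κ p q + ((if p = 7 then κ q else 0) +
      if q = 7 then κ p else 0) := by
    intro p q hpq
    unfold LK
    rw [if_neg hpq, if_neg hpq]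
    by_cases h4 : p = 2 ∧ Pool.Agent.N972.P17.star n0 2 = -4
    · rw [if_pos h4, if_pos h4, h4.1, hκ2 h4.2, if_neg (by norm_num : (2 : ℕ) ≠ 7)]
      simp
    · rw [if_neg h4, if_neg h4]
      by_cases h5 : q = 2 ∧ Pool.Agent.N972.P17.star n0 2 = -4
      · rw [if_pos h5, if_pos h5, h5.1, hκ2 h5.2, if_neg (by norm_num : (2 : ℕ) ≠ 7)]
        simp
      · rw [if_neg h5, if_neg h5]
        unfold ad
        by_cases hp7 : p = 7
        · have hq7 : q ≠ 7 := fun h => hpq (hp7.trans h.symm)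
          rw [if_pos hp7, if_neg hq7, if_pos hp7, if_neg hq7]
          ring
        · rw [if_neg hp7, if_neg hp7]
          by_cases hq7 : q = 7
          · rw [if_pos hq7, if_pos hq7]; ring
          · rw [if_neg hq7, if_neg hq7]; ring
  have hsum : ∀ f : ℕ → ZMod 2, ∑ q ∈ P, f q = f 7 + ∑ q ∈ P.erase 7, f q := fun f =>
    (add_sum_erase P f h7).symm
  obtain ⟨k1, k2, k3⟩ := h x' X e (fun p hp => by
    have h4 := h1 p hp
    have h5 : ∑ q ∈ P, LK n0 (ad κ 7) p q * X q = ∑ q ∈ P, LK n0 κ p q * X q +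
        ∑ q ∈ P.erase p, ((if p = 7 then κ q else 0) + if q = 7 then κ p else 0) * X q := by
      rw [← add_sum_erase P _ hp, ← add_sum_erase P (fun q => LK n0 κ p q * X q) hp, LK_self,
        LK_self, zero_mul, zero_add, zero_add, ← sum_add_distrib]
      refine sum_congr rfl fun q hq => ?_
      rw [hΛ p q (ne_of_mem_erase hq).symm]
      ring
    have h6 : ∑ q ∈ P.erase p, ((if p = 7 then κ q else 0) + if q = 7 then κ p else 0) * X q =
        Lm (lp n0) P p 7 * X 7 := by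
      by_cases hp7 : p = 7
      · subst hp7
        have h7' := h2 7 h7
        rw [rh3_7, mul_zero, add_zero, hsum] at h7'
        have h8 : ∑ q ∈ P.erase 7, ((if (7 : ℕ) = 7 then κ q else 0) +
            if q = 7 then κ 7 else 0) * X q = ∑ q ∈ P.erase 7, Lm (lp n0) P q 7 * X q := by
          refine sum_congr rfl fun q hq => ?_
          have hq7 := ne_of_mem_erase hq
          rw [if_pos rfl, if_neg hq7, add_zero, hlk q (mem_of_mem_erase hq) hq7]
        rw [h8]
        exact (eq_of_add h7').symm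
      · rw [hlk p hp hp7]
        have h8 : ∀ q ∈ P.erase p, ((if p = 7 then κ q else 0) + if q = 7 then κ p else 0) * X q =
            if q = 7 then κ p * X 7 else 0 := by
          intro q _
          rw [if_neg hp7, zero_add]
          split_ifs with h
          · rw [h]
          · rw [zero_mul]
        rw [sum_congr rfl h8, sum_ite_eq' (P.erase p) 7 fun _ => κ p * X 7,
          if_pos (mem_erase.2 ⟨fun h => hp7 h.symm, h7⟩)]
    rw [h5, h6] at h4
    rw [hsx, ← h4]
    ring) h2 (by rw [hsx, rh3_7, zero_mul, add_zero]; exact h3)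
  refine ⟨k1, k2, fun p hp q hq => ?_⟩
  have h4 := k3 p hp q hq
  rw [hx'] at h4
  simp only at h4
  rw [k1 7 h7, ite_self, ite_self, add_zero, add_zero] at h4
  exact h4

/-! ### the value -/

theorem ap_two (n0 : ℕ) (h : Pool.Agent.N972.P17.star n0 2 = -4) : ap n0 2 = 1 := by
  rw [ap_of Nat.prime_two, al_star n0 h]

/-- **the kernel condition as a sum over pairs** -/
theorem KK_RHS (n0 : ℕ) {P : Finset ℕ} (hP : ∀ p ∈ P, p.Prime) (ha : ∑ p ∈ P, al n0 p = 0)
    (h2P : 2 ∉ P → Pool.Agent.N972.P17.star n0 2 ≠ -4) {κ : ℕ → ZMod 2}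
    (hκ2 : Pool.Agent.N972.P17.star n0 2 = -4 → κ 2 = 0) (hκ : sm κ P = 0)
    (hγ : sm (rh n0 (-3)) P = 0) {c : ℕ} (hc : c ∈ P)
    (hc2 : Pool.Agent.N972.P17.star n0 2 = -4 → c = 2) :
    ind (KK n0 κ P) = (if Pool.Agent.N972.P17.star n0 2 = -4 then
      T1 (lp n0) (ap n0) (kq n0) (P.erase 2) else 0) +
        RHS (lp n0) (ap n0) (kq n0) κ (rh n0 (-3)) P c := by
  have ha' : sm (ap n0) P = 0 := by rw [sm_al n0 hP]; exact ha
  have h1 := Pf_ker (l := lp n0) (LK_symm n0 κ) (LK_self n0 κ) (dvN n0) (rh n0 (-3)) hγ hc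
  have h2 : ind (KK n0 κ P) = Yd (lp n0) (dvN n0) P + ∑ A ∈ P.powerset, (if c ∈ A then
      sm (rh n0 (-3)) A * BB (lp n0) (LK n0 κ) A (P \ A) else 0) := by
    rw [h1]
    rfl
  rw [h2]
  by_cases h4 : Pool.Agent.N972.P17.star n0 2 = -4
  · have h2P' : 2 ∈ P := by
      by_contra h
      exact h2P h h4
    have hkt : kq n0 2 = 0 := if_pos ⟨rfl, h4⟩
    have hk1 : ∀ i, i ≠ 2 → kq n0 i = 1 := fun i hi => kq_odd hi
    have hlt : ∀ i, i ≠ 2 → lp n0 i 2 = ap n0 i := by
      intro i hi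
      unfold lp ap
      by_cases hip : i.Prime
      · rw [if_pos ⟨hip, Nat.prime_two⟩, if_pos hip]
        exact ls_m4 h4 hip hi
      · rw [if_neg fun h => hip h.1, if_neg hip]
    have hcc := hc2 h4
    subst hcc
    rw [if_pos h4, ev1 (hk n0) (ap_two n0 h4) hkt hk1 hlt (hκ2 h4) (if_pos ⟨rfl, h4⟩) h2P' ha' hκ hγ
      (LK n0 κ) (fun j _ hj => by
        unfold LK
        rw [if_neg (Ne.symm hj), if_pos ⟨rfl, h4⟩]) (fun i _ j _ hi hj hij => by
        unfold LK
        rw [if_neg hij, if_neg fun h => hi h.1, if_neg fun h => hj h.1])]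
    congr 1
    -- the cofactor at the vertex
    have h5 : Yd (lp n0) (dvN n0) P = tt (lp n0) P 2 := by
      unfold Yd
      have h6 : ∀ r ∈ P, dvN n0 r * tt (lp n0) P r = if r = 2 then tt (lp n0) P 2 else 0 := by
        intro r _
        unfold dvN
        by_cases h : r = 2
        · rw [if_pos ⟨h, h4⟩, if_pos h, h, one_mul]
        · rw [if_neg fun h' => h h'.1, if_neg h, zero_mul]
      rw [sum_congr rfl h6, sum_ite_eq' P 2 fun _ => tt (lp n0) P 2, if_pos h2P']
    rw [h5, tt_t (hk n0) hk1 hlt h2P']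
    have h7 : un1 (P.erase 2) = 0 := by
      unfold un1
      rw [if_neg]
      intro h8
      have h9 := add_sum_erase P (al n0) h2P'
      rw [h8, sum_empty, add_zero, al_star n0 h4, ha] at h9
      exact one_ne_zero h9
    rw [h7, zero_add]
  · have hk1 : ∀ i, kq n0 i = 1 := fun i => if_neg fun h => h4 h.2
    rw [if_neg h4, ev0 (hk n0) hk1 ha' hκ hγ c (LK n0 κ) (fun i _ j _ hij => by
        unfold LK
        rw [if_neg hij, if_neg fun h => h4 h.2, if_neg fun h => h4 h.2])]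
    congr 1
    unfold Yd
    refine sum_eq_zero fun r _ => ?_
    unfold dvN
    rw [if_neg fun h => h4 h.2, zero_mul]

end Pool.Agent.N972.GC
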