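import Pool.Agent.N972.GC.Lv15

/-!
# Sums over unitary divisors and sums over sets of primes (helper972)
-/

set_option autoImplicit false
set_option linter.unusedSectionVars false

open Finset

namespace Pool.Agent.N972.GC

open Pool.Agent.N855.P17
open Pool.Agent.N972.F2
open Pool.Agent.N972.P17 (ls al LL)
open Pool.Agent.N969.P15 (Qc Qe Ev)
open Pool.Agent.N969.RQ (Fd ud)
open Pool.Agent.N973.P15G (Ps Ng)

theorem Ng_star {n : ℕ} (h : Ng n) :
    (2 ∈ n.primeFactors ∧ Pool.Agent.N972.P17.star n 2 = -4) ↔ n % 8 = 4 := by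
  have hs : Pool.Agent.N972.P17.star n 2 = if n % 16 = 4 then -4 else if n % 32 = 8 then -8 else 8 :=
    if_pos rfl
  rcases h with ⟨_, h⟩ | ⟨m, h1, h2, h3⟩
  · constructor
    · rintro ⟨h4, _⟩
      have := Nat.dvd_of_mem_primeFactors h4
      omega
    · intro h4
      omega
  · have hm : m ≠ 0 := fun h => by rw [h] at h2; exact absurd h2 (by simp)
    constructor
    · rintro ⟨_, h5⟩
      rcases h3 with h3 | h3
      · omega
      · rw [hs, if_neg (by omega)] at h5
        split_ifs at h5 <;> omega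
    · intro h4
      refine ⟨Nat.mem_primeFactors.2 ⟨Nat.prime_two, by omega, by omega⟩, ?_⟩
      rw [hs, if_pos (by omega)]

theorem LL_Lm (n : ℕ) {p q : ℕ} (hp : p ∈ n.primeFactors) (hq : q ∈ n.primeFactors) :
    LL n p q = Lm (lp n) n.primeFactors p q := by
  rw [Lm_lp n (fun p hp => Nat.prime_of_mem_primeFactors hp) hp hq]
  rfl

open Classical in
/-- the generic sum -/
theorem gsum {n : ℕ} (hN : NT n n.primeFactors = n) (ha : ∑ p ∈ n.primeFactors, al n p = 1)
    {s : ℤ} {ε : ℕ → ZMod 2} (cls : ℕ → ℕ → Prop) (C : Finset ℕ → Prop)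
    (hc : ∀ E ⊆ n.primeFactors, cls (NT n E) (NT n (n.primeFactors \ E)) ↔
      (C E ∧ ∑ p ∈ E, al n p = 0 ∧ sm (rh n s) E = 1 ∧ sm ε E = 1))
    (h4 : ∀ E ⊆ n.primeFactors, C E → ∑ p ∈ E, al n p = 0 → sm (rh n s) E = 1 → sm ε E = 1 →
      NT n (n.primeFactors \ E) ≠ 4) :
    ((((ud n).filter fun A => cls A (n / A) ∧ CY s A ∧ QQ (n / A)).card : ℕ) : ZMod 2) =
    ∑ E ∈ n.primeFactors.powerset, if C E then sm ε E * (if sm (ap n) E = 0 ∧ sm (rh n s) E = 1 then
      Yd (lp n) (kr s) E else 0) * T1 (lp n) (ap n) (kq n) (n.primeFactors \ E) else 0 := by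
  set P := n.primeFactors with hP
  have hPp : ∀ p ∈ P, p.Prime := fun p hp => Nat.prime_of_mem_primeFactors hp
  have h1 := card_ud hN fun A => cls A (n / A) ∧ CY s A ∧ QQ (n / A)
  rw [h1, ← hP]
  refine sum_congr rfl fun E hE => ?_
  rw [mem_powerset] at hE
  have hEp : ∀ p ∈ E, p.Prime := fun p hp => hPp p (hE hp)
  have hPEp : ∀ p ∈ P \ E, p.Prime := fun p hp => hPp p (mem_sdiff.1 hp).1
  have hq : n / NT n E = NT n (P \ E) := by
    have := NT_quot n hPp hE
    rwa [hN] at this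
  rw [hq]
  by_cases hcc : C E ∧ ∑ p ∈ E, al n p = 0 ∧ sm (rh n s) E = 1 ∧ sm ε E = 1
  · obtain ⟨c0, c1, c2, c3⟩ := hcc
    have hne : E.Nonempty := by
      rw [nonempty_iff_ne_empty]
      rintro rfl
      rw [sm_empty] at c2
      exact zero_ne_one c2
    have c1' : sm (ap n) E = 0 := by rw [sm_al n hEp]; exact c1
    have c4 : sm (ap n) (P \ E) = 1 := by
      rw [sm_al n hPEp, par_sdiff hE, ha, c1, add_zero]
    rw [if_pos c0, c3, one_mul, if_pos ⟨c1', c2⟩, Yd_CY n hEp hne c1',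
      T1_QQ n hPEp c4 (h4 E hE c0 c1 c2 c3)]
    have hcl := (hc E hE).2 ⟨c0, c1, c2, c3⟩
    by_cases h6 : CY s (NT n E)
    · by_cases h7 : QQ (NT n (P \ E))
      · rw [ind_pos h6, ind_pos h7, mul_one]
        exact ind_pos ⟨hcl, h6, h7⟩
      · rw [ind_neg h7, mul_zero]
        exact ind_neg fun h => h7 h.2.2
    · rw [ind_neg h6, zero_mul]
      exact ind_neg fun h => h6 h.2.1
  · have h6 : ind (cls (NT n E) (NT n (P \ E)) ∧ CY s (NT n E) ∧ QQ (NT n (P \ E))) = 0 :=
      ind_neg fun h => hcc ((hc E hE).1 h.1)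
    rw [h6]
    symm
    by_cases h0 : C E
    · rw [if_pos h0]
      rcases z01 (sm ε E) with h7 | h7
      · rw [h7]; ring
      · rw [if_neg]
        · ring
        · rintro ⟨h8, h9⟩
          rw [sm_al n hEp] at h8
          exact hcc ⟨h0, h8, h9, h7⟩
    · rw [if_neg h0]

/-- the left relation on the functional -/
theorem kq_kr (n : ℕ) (s : ℤ) (P : Finset ℕ) : ∑ p ∈ P, kq n p * kr s p = sm (rh n s) P := by
  refine sum_congr rfl fun p _ => ?_
  unfold kq rh
  split_ifs
  · rw [zero_mul]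
  · rw [one_mul]

/-- the criterion with two functionals -/
theorem CM_Mf {n r : ℕ} {s : ℤ} (ha : ∑ p ∈ n.primeFactors, al n p = 1)
    {ε : ℕ → ZMod 2} (hε : ∀ q ∈ n.primeFactors, ε q = ls n q r)
    (hεn : sm ε n.primeFactors = 0) (hρn : sm (rh n s) n.primeFactors = 0) {c : ℕ}
    (hc : c ∈ n.primeFactors) (hkc : kq n c = 1) :
    Mf (lp n) (kr s) ε n.primeFactors c = ind (CM s r n) := by
  have hPp : ∀ p ∈ n.primeFactors, p.Prime := fun p hp => Nat.prime_of_mem_primeFactors hp
  have h1 := Mf_ker (lp n) (hk n) (kr s) ε (n := n.primeFactors) (by rw [sm_al n hPp]; exact ha)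
    hεn (by rw [kq_kr]; exact hρn) hc hkc
  rw [← a01] at h1
  rw [← ind_ne (Mf (lp n) (kr s) ε n.primeFactors c), ind_congr h1]
  refine ind_congr ?_
  unfold CM
  have e1 : ∀ (x : ℕ → ZMod 2), ∀ p ∈ n.primeFactors, ∑ q ∈ n.primeFactors, LL n p q * x q =
      ∑ q ∈ n.primeFactors, Lm (lp n) n.primeFactors p q * x q := fun x p hp =>
    sum_congr rfl fun q hq => by rw [LL_Lm n hp hq]
  have e2 : ∀ (x : ℕ → ZMod 2), ∑ q ∈ n.primeFactors, ls n q r * x q =
      ∑ q ∈ n.primeFactors, ε q * x q := fun x => sum_congr rfl fun q hq => by rw [hε q hq]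
  constructor
  · intro h x hx
    refine h x fun p hp => ?_
    rw [← e1 x p hp, hx p hp, e2 x]
  · intro h x hx
    refine h x fun p hp => ?_
    rw [e1 x p hp, hx p hp, e2 x]

/-! ### uniqueness -/

/-- two predicates which agree outside one element -/
theorem odd_uniq {α : Type} [DecidableEq α] (S : Finset α) (p q : α → Prop) [DecidablePred p]
    [DecidablePred q] {a : α} (ha : a ∈ S) (h : ∀ b ∈ S, b ≠ a → (p b ↔ q b))
    (ho : Odd (S.filter p).card ↔ Odd (S.filter q).card) : p a ↔ q a := by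
  have h1 : ∀ (r : α → Prop) [DecidablePred r],
      (S.filter r).card = (if r a then 1 else 0) + ((S.erase a).filter r).card := by
    intro r _
    rw [← insert_erase ha, filter_insert, erase_insert (notMem_erase a S)]
    split_ifs with hr
    · rw [card_insert_of_notMem, add_comm]
      intro h2
      exact notMem_erase a S (mem_filter.1 h2).1
    · rw [zero_add]
  have h2 : (S.erase a).filter p = (S.erase a).filter q :=
    filter_congr fun b hb => h b (mem_of_mem_erase hb) (ne_of_mem_erase hb)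
  rw [h1 p, h1 q, h2] at ho
  by_cases hp : p a
  · by_cases hq : q a
    · exact ⟨fun _ => hq, fun _ => hp⟩
    · rw [if_pos hp, if_neg hq, Nat.odd_iff, Nat.odd_iff] at ho
      omega
  · by_cases hq : q a
    · rw [if_neg hp, if_pos hq, Nat.odd_iff, Nat.odd_iff] at ho
      omega
    · exact ⟨fun h => absurd h hp, fun h => absurd h hq⟩

/-- a proper unitary divisor has fewer prime factors -/
theorem card_lt {A B : ℕ} (hA : A ≠ 0) (hB : B ∣ A) (hc : Nat.Coprime B (A / B)) (hne : B ≠ A) :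
    B.primeFactors.card < A.primeFactors.card := by
  refine card_lt_card ⟨Nat.primeFactors_mono hB hA, fun h => ?_⟩
  obtain ⟨C, hC⟩ := hB
  have hB0 : B ≠ 0 := by
    rintro rfl
    rw [zero_mul] at hC
    exact hA hC
  have hdiv : A / B = C := by rw [hC]; exact Nat.mul_div_cancel_left C (Nat.pos_of_ne_zero hB0)
  rw [hdiv] at hc
  have hC1 : C ≠ 1 := by
    rintro rfl
    rw [mul_one] at hC
    exact hne hC.symm
  obtain ⟨p, hp, hpC⟩ := Nat.exists_prime_and_dvd hC1
  have hpA : p ∈ A.primeFactors := Nat.mem_primeFactors.2 ⟨hp, by rw [hC]; exact hpC.mul_left B, hA⟩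
  have hpB := Nat.dvd_of_mem_primeFactors (h hpA)
  exact hp.one_lt.ne' (Nat.dvd_one.1 (by rw [← hc]; exact Nat.dvd_gcd hpB hpC))

end Pool.Agent.N972.GC
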