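import Pool.Agent.N972.GC.Gs
import Pool.Agent.N973.P15G.Defs2

/-!
# Level 15: the class `(-;-1,1)`, and the uniqueness of the parities (helper972)
-/

set_option autoImplicit false
set_option linter.unusedSectionVars false

open Finset

namespace Pool.Agent.N972.GC

open Pool.Agent.N855.P17
open Pool.Agent.N972.F2
open Pool.Agent.N972.P17 (ls al LL)
open Pool.Agent.N969.P15 (Qc Qe Ev)
open Pool.Agent.N969.RQ (Fd ud)
open Pool.Agent.N973.P15G (Ps Ng Aii Aio N15 N3 Nsi Nis Ass)

/-- the classes -/
theorem cls4 (n : ℕ) (hn : Nis n) (hN : NT n n.primeFactors = n)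
    (ha : ∑ p ∈ n.primeFactors, al n p = 1) {E : Finset ℕ} (hE : E ⊆ n.primeFactors)
    {ε : ℕ → ZMod 2} (hε : ∀ p ∈ n.primeFactors, ε p = ls n p 5) :
    (Aii (NT n E) ∧ Nsi (NT n (n.primeFactors \ E))) ↔
      (True ∧ ∑ p ∈ E, al n p = 0 ∧ sm (rh n (-3)) E = 1 ∧ sm ε E = 1) := by
  set P := n.primeFactors with hPdef
  have hP : ∀ p ∈ P, p.Prime := fun p hp => Nat.prime_of_mem_primeFactors hp
  have hEp : ∀ p ∈ E, p.Prime := fun p hp => hP p (hE hp)
  have hEp' : ∀ p ∈ P \ E, p.Prime := fun p hp => hP p (mem_sdiff.1 hp).1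
  obtain ⟨hng, hn3, hn5⟩ := hn
  have h3P : 3 ∉ P := fun h => by
    have := Nat.dvd_of_mem_primeFactors h
    omega
  have h5P : 5 ∉ P := fun h => by
    have := Nat.dvd_of_mem_primeFactors h
    omega
  have h3E : 3 ∉ E := fun h => h3P (hE h)
  have h5E : 5 ∉ E := fun h => h5P (hE h)
  have hmul : NT n E * NT n (P \ E) = n := by
    rw [mul_comm, NT_mul n hE, hN]
  have e5 : sm ε E = ∑ q ∈ E, ls n q 5 := sum_congr rfl fun q hq => hε q (hE hq)
  set A := NT n E with hA
  set m := NT n (P \ E) with hm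
  have k3 : ∑ p ∈ E, al n p = 0 → (A % 3 = 2 ↔ sm (rh n (-3)) E = 1) := by
    intro hal
    have h1 := (typ_pos n hEp Nat.prime_three (by norm_num) h3E hal).2
    rw [sm_rh n hEp Nat.prime_three (by norm_num) h3E (kr_three n), hal, mul_zero, add_zero,
      (j3 _).2] at h1
    rw [← h1]
    omega
  have k5 : ∑ p ∈ E, al n p = 0 → ((A % 5 = 2 ∨ A % 5 = 3) ↔ sm ε E = 1) := by
    intro hal
    rw [e5, ← (typ_pos n hEp Nat.prime_five (by norm_num) h5E hal).2, (j5 _).2]
    omega
  constructor
  · rintro ⟨⟨h1, h2, h4⟩, ⟨h6, _, _⟩⟩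
    have hal := pair_al n hP hE ha ((Ps_Fd _).1 h1) h6
    exact ⟨trivial, hal, (k3 hal).1 h2, (k5 hal).1 h4⟩
  · rintro ⟨_, hal, h2, h4⟩
    have hne : E.Nonempty := by
      rw [nonempty_iff_ne_empty]
      rintro rfl
      rw [sm_empty] at h2
      exact zero_ne_one h2
    have hFd : Ps A := (Ps_Fd _).2 (NT_Fd n hEp hne hal)
    have ha' : ∑ p ∈ P \ E, al n p = 1 := by rw [par_sdiff hE, ha, hal, add_zero]
    have hFn : Ng m := NT_Fn n hEp' ha'
    have h3 := (k3 hal).2 h2
    have h5 := (k5 hal).2 h4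
    have hm3 : m % 3 = 2 := by
      have h7 : (A % 3) * (m % 3) % 3 = 1 := by rw [← Nat.mul_mod, hmul]; exact hn3
      rw [h3] at h7
      have : m % 3 < 3 := Nat.mod_lt _ (by norm_num)
      interval_cases hmm : m % 3 <;> omega
    have hm5 : m % 5 = 2 ∨ m % 5 = 3 := by
      have h7 : (A % 5) * (m % 5) % 5 = n % 5 := by rw [← Nat.mul_mod, hmul]
      have h8 : m % 5 < 5 := Nat.mod_lt _ (by norm_num)
      rcases h5 with h5 | h5 <;> rw [h5] at h7 <;> interval_cases hmm : m % 5 <;> omega
    exact ⟨⟨hFd, h3, h5⟩, hFn, hm3, hm5⟩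

open Classical in
/-- **the criterion for the class `(-;-1,1)` of level `15`** -/
theorem z4 {n : ℕ} (hn : Nis n) (h4 : 4 < n) : CM (-3) 5 n ↔ Odd ((if QQ n then 1 else 0) +
    ((ud n).filter fun A => (Aii A ∧ Nsi (n / A)) ∧ CY (-3) A ∧ QQ (n / A)).card +
    if n % 8 = 4 ∧ Ass (n / 4) ∧ CY 5 (n / 4) then 1 else 0) := by
  obtain ⟨hng, hn3, hn5⟩ := id hn
  obtain ⟨hN, ha⟩ := Fn_NT hng
  set P := n.primeFactors with hP
  have hPp : ∀ p ∈ P, p.Prime := fun p hp => Nat.prime_of_mem_primeFactors hp
  have h3P : 3 ∉ P := fun h => by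
    have := Nat.dvd_of_mem_primeFactors h
    omega
  have h5P : 5 ∉ P := fun h => by
    have := Nat.dvd_of_mem_primeFactors h
    omega
  have ha' : sm (ap n) P = 1 := by rw [sm_al n hPp]; exact ha
  have hPne : P.Nonempty := by
    rw [nonempty_iff_ne_empty]
    intro h
    rw [h, sum_empty] at ha
    exact zero_ne_one ha
  obtain ⟨r, hr, hkr⟩ := exk n hPp hPne (by rw [hN]; omega)
  set ε : ℕ → ZMod 2 := fun q => if q = 2 ∧ Pool.Agent.N972.P17.star n 2 = -4 then 0 else ls n q 5
    with hε
  have ls25 : Pool.Agent.N972.P17.star n 2 = -4 → ls n 2 5 = 0 := by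
    intro h
    rw [ls_odd n (by norm_num), h]
    norm_num
  have hε1 : ∀ p ∈ P, ε p = ls n p 5 := by
    intro p _
    rw [hε]
    simp only
    split_ifs with h
    · obtain ⟨rfl, h2⟩ := h
      exact (ls25 h2).symm
    · rfl
  have hεn : sm ε P = 0 := by
    have h1 : sm ε P = ∑ q ∈ P, ls n q 5 := sum_congr rfl hε1
    rw [h1, ← (typ_neg n hPp Nat.prime_five (by norm_num) h5P ha).1, (j5 _).1, hN]
    omega
  have hρn : sm (rh n (-3)) P = 0 := by
    have h1 := sm_rh n hPp Nat.prime_three (by norm_num) h3P (kr_three n)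
    rw [ha, al_three, mul_one] at h1
    have h2 : ∑ q ∈ P, ls n q 3 = 1 := by
      rw [← (typ_neg n hPp Nat.prime_three (by norm_num) h3P ha).2, (j3 _).2, hN]
      omega
    rw [h2] at h1
    have : ∀ u : ZMod 2, 1 = u + 1 → u = 0 := by decide
    exact this _ h1
  have hM := CM_Mf (s := -3) ha (r := 5) hε1 hεn hρn hr hkr
  have hQn : T1 (lp n) (ap n) (kq n) P = ind (QQ n) := by
    rw [T1_QQ n hPp ha' (by rw [hN]; omega), hN]
  have hG := gsum (s := -3) hN ha (ε := ε) (fun A m => Aii A ∧ Nsi m) (fun _ => True)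
    (fun E hE => cls4 n hn hN ha hE hε1) (by
      intro E hE _ c1 c2 c3 h6
      have := (cls4 n hn hN ha hE hε1).2 ⟨trivial, c1, c2, c3⟩
      have h7 := this.2.2.1
      rw [h6] at h7
      norm_num at h7)
  simp only [if_true] at hG
  rw [← hP] at hM hG
  have hite : ∀ (p : Prop) [Decidable p], (((if p then 1 else 0 : ℕ)) : ZMod 2) = ind p := by
    intro p _
    split_ifs with h
    · rw [ind_pos h]; rfl
    · rw [ind_neg h]; rfl
  symm
  refine odd_nat ?_
  have hG2 : ((((ud n).filter fun A => (Aii A ∧ Nsi (n / A)) ∧ CY (-3) A ∧ QQ (n / A)).card : ℕ) :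
      ZMod 2) = ∑ E ∈ P.powerset, sm ε E * (if sm (ap n) E = 0 ∧ sm (rh n (-3)) E = 1 then
      Yd (lp n) (kr (-3)) E else 0) * T1 (lp n) (ap n) (kq n) (P \ E) := by
    rw [← hG]
    congr
  rw [Nat.cast_add, Nat.cast_add, hite, hite, hG2, ← hM, ← hQn]
  by_cases h : 2 ∈ P ∧ Pool.Agent.N972.P17.star n 2 = -4
  · obtain ⟨h2, hs4⟩ := h
    have h8 := (Ng_star hng).1 ⟨h2, hs4⟩
    have hkr2 : kr (-3) 2 = 1 := by
      unfold kr
      rw [if_pos rfl, if_neg (by norm_num)]
    have hkf : kr (-3) = ad (rh n (-3)) 2 := funext (kr_ad n hs4 hkr2)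
    have hrt : r ≠ 2 := by
      rintro rfl
      have : kq n 2 = 0 := if_pos ⟨rfl, hs4⟩
      rw [this] at hkr
      exact zero_ne_one hkr
    have hid := idD1 (hk n) (t := 2) (by rw [ap_of Nat.prime_two, al_star n hs4])
      (if_pos ⟨rfl, hs4⟩) (fun i hi => kq_odd hi) (by
        intro i hi
        unfold lp ap
        by_cases hip : i.Prime
        · rw [if_pos ⟨hip, Nat.prime_two⟩, if_pos hip]
          exact ls_m4 hs4 hip hi
        · rw [if_neg fun h => hip h.1, if_neg hip]) (ρ := rh n (-3)) (if_pos ⟨rfl, hs4⟩) (ε := ε)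
      (if_pos ⟨rfl, hs4⟩) hr hrt h2 ha' hρn hεn
    rw [hkf, hid]
    congr 1
    -- the correction
    have hQp : ∀ p ∈ P.erase 2, p.Prime := fun p hp => hPp p (mem_of_mem_erase hp)
    have haQ : ∑ p ∈ P.erase 2, al n p = 0 := by
      have := add_sum_erase P (al n) h2
      rw [ha, al_star n hs4] at this
      have a1 : ∀ u : ZMod 2, 1 + u = 1 → u = 0 := by decide
      exact a1 _ this
    have haQ' : sm (ap n) (P.erase 2) = 0 := by rw [sm_al n hQp]; exact haQ
    have hNQ : NT n (P.erase 2) = n / 4 := by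
      have h9 : NT n P = kp n * NN (P.erase 2) := NT_in h2
      have h10 : kp n = 4 := by
        rcases star2 n with ⟨_, h11, _⟩ | ⟨h11, _, _⟩ | ⟨h11, _, _⟩
        · exact h11
        · rw [h11] at hs4; norm_num at hs4
        · rw [h11] at hs4; norm_num at hs4
      rw [NT_out (notMem_erase 2 P)]
      rw [hN, h10] at h9
      omega
    have hQne : (P.erase 2).Nonempty := by
      rw [nonempty_iff_ne_empty]
      intro h9
      have := (NT_one n hQp).2 h9
      rw [hNQ] at this
      omega
    have hFd : Ps (n / 4) := by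
      rw [← hNQ]
      exact (Ps_Fd _).2 (NT_Fd n hQp hQne haQ)
    have hAss : Ass (n / 4) := ⟨hFd, by omega, by omega⟩
    have h12 : ind (n % 8 = 4 ∧ Ass (n / 4) ∧ CY 5 (n / 4)) = ind (CY 5 (n / 4)) :=
      ind_congr ⟨fun h => h.2.2, fun h => ⟨h8, hAss, h⟩⟩
    rw [h12, ← hNQ, ← Yd_CY n hQp hQne haQ']
    symm
    refine Yd_congr (lp n) fun p hp => ?_
    have hp2 : p ≠ 2 := ne_of_mem_erase hp
    have hpP := mem_of_mem_erase hp
    have hp5 : p ≠ 5 := fun h => h5P (h ▸ hpP)
    rw [hε1 p hpP, ls_rh n Nat.prime_five (by norm_num) (hPp p hpP) hp5 (kr_five n), al_five,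
      zero_mul, add_zero]
    unfold rh
    rw [if_neg fun h => hp2 h.1]
  · have hkrh := kr_rh n (s := -3) h
    have h8 : ¬ (n % 8 = 4 ∧ Ass (n / 4) ∧ CY 5 (n / 4)) := fun h9 => h ((Ng_star hng).2 h9.1)
    rw [ind_neg h8, add_zero]
    have hid := idD0 (hk n) (ρ := rh n (-3)) (rh_sup n (-3)) ε hr hkr ha' hρn hεn
    have h9 : Mf (lp n) (kr (-3)) ε P r = Mf (lp n) (rh n (-3)) ε P r := by
      unfold Mf
      congr 1
      refine sum_congr rfl fun C hC => ?_
      rw [Yd_congr (lp n) fun p hp => hkrh p (mem_of_mem_erase (mem_powerset.1 hC hp))]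
    rw [h9, hid]
    congr 1
    refine sum_congr rfl fun E hE => ?_
    rw [mem_powerset] at hE
    unfold kk
    rw [Yd_congr (lp n) fun p hp => hkrh p (hE hp)]

/-! ### uniqueness -/

theorem Ng_odd {A c : ℕ} (hA : Ps A) (hc : Squarefree c) (hc4 : c % 4 = 3) (hco : Nat.Coprime A c) :
    Ng (c * A) := by
  rcases hA with ⟨h1, h2, _⟩ | ⟨M, h1, h2, h3⟩
  · refine Or.inl ⟨(Nat.squarefree_mul hco.symm).2 ⟨hc, h1⟩, ?_⟩
    rw [Nat.mul_mod, hc4, h2]
  · refine Or.inr ⟨c * M, by rw [h1]; ring, ?_, ?_⟩
    · refine (Nat.squarefree_mul ?_).2 ⟨hc, h2⟩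
      refine (Nat.Coprime.coprime_dvd_left ⟨4, ?_⟩ hco).symm
      rw [h1]; ring
    · rw [Nat.mul_mod, hc4]
      rcases h3 with h3 | h3 <;> rw [h3] <;> norm_num

theorem sqf15 : Squarefree 15 := by
  rw [show (15 : ℕ) = 3 * 5 by norm_num, Nat.squarefree_mul (by norm_num)]
  exact ⟨Nat.prime_three.squarefree, Nat.prime_five.squarefree⟩

theorem QQ3 : QQ 3 := by
  unfold QQ
  rw [if_neg (by norm_num)]
  intro b c hbc _ _
  have hb : b ∣ 3 := ⟨c, hbc.symm⟩
  rcases (Nat.dvd_prime Nat.prime_three).1 hb with h | h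
  · exact Or.inl h
  · right
    rw [h] at hbc
    omega

theorem QQ15 : QQ 15 := by
  unfold QQ
  rw [if_neg (by norm_num)]
  intro b c hbc h1 h2
  have hb : b ≤ 15 := Nat.le_of_dvd (by norm_num) ⟨c, hbc.symm⟩
  have p3 : (3 : ℕ).primeFactors = {3} := Nat.Prime.primeFactors Nat.prime_three
  have p5 : (5 : ℕ).primeFactors = {5} := Nat.Prime.primeFactors Nat.prime_five
  interval_cases b
  all_goals first
    | exact Or.inl rfl
    | (exfalso; omega)
    | skip
  · exfalso
    have hc : c = 5 := by omega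
    rw [hc] at h1
    have := h1 5 (by rw [p5]; simp)
    norm_num at this
  · exfalso
    have hc : c = 3 := by omega
    rw [hc] at h1
    have := h1 3 (by rw [p3]; simp)
    norm_num at this
  · right
    omega

/-- a measure -/
def me (A : ℕ) : ℕ := 2 * A.primeFactors.card + if 5 ∣ A then 0 else 1

theorem me_drop {A B : ℕ} (hA : A ≠ 0) (hB : B ∣ A) (hc : Nat.Coprime B (A / B)) (hne : B ≠ A) :
    me B < me A := by
  have := card_lt hA hB hc hne
  unfold me
  split_ifs <;> omega

/-- cancelling a factor -/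
theorem ud_cancel {A B c : ℕ} (hA : A ≠ 0) (hc : 0 < c) (hco : Nat.Coprime B c)
    (hB : B ∣ c * A) (h : Nat.Coprime B (c * A / B)) : B ∣ A ∧ Nat.Coprime B (A / B) := by
  have h1 : B ∣ A := hco.dvd_of_dvd_mul_left hB
  refine ⟨h1, ?_⟩
  rw [Nat.mul_div_assoc c h1] at h
  exact Nat.Coprime.coprime_mul_left_right h

open Classical in
/-- **the recursion determines the parities of level `15`** -/
theorem par15 {y : ℕ → Prop} (hy : ∀ n : ℕ, N15 n → (QQ n ↔
      Odd ((n.divisors.filter fun A => Nat.Coprime A (n / A) ∧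
        ((Aii A ∧ N15 (n / A)) ∨ (Aio A ∧ N3 (n / A))) ∧ y A ∧ QQ (n / A)).card))) :
    ∀ A : ℕ, (Aii A ∨ Aio A) → (y A ↔ CY (-3) A) := by
  have key : ∀ k : ℕ, ∀ A : ℕ, me A = k → (Aii A ∨ Aio A) → (y A ↔ CY (-3) A) := by
    intro k
    induction k using Nat.strong_induction_on with
    | _ k ih =>
      intro A hk hA
      have hA0 : A ≠ 0 := by
        rintro rfl
        rcases hA with ⟨_, h, _⟩ | ⟨_, h, _⟩ <;> simp at h
      -- the number
      obtain ⟨c, hc0, hn, hcls, hQ, hsub⟩ : ∃ c : ℕ, 0 < c ∧ N15 (c * A) ∧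
          (Nat.Coprime A (c * A / A) ∧ ((Aii A ∧ N15 (c * A / A)) ∨ (Aio A ∧ N3 (c * A / A)))) ∧
          QQ (c * A / A) ∧
          ∀ B : ℕ, B ∣ c * A → Nat.Coprime B (c * A / B) → B ≠ A →
            ((Aii B ∧ N15 (c * A / B)) ∨ (Aio B ∧ N3 (c * A / B))) → me B < me A := by
        rcases hA with hA | hA
        · have hco : Nat.Coprime A 15 := by
            rw [show (15 : ℕ) = 3 * 5 by norm_num]
            refine Nat.Coprime.mul_right ?_ ?_
            · rw [Nat.coprime_comm, Nat.Prime.coprime_iff_not_dvd Nat.prime_three]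
              have := hA.2.1
              omega
            · rw [Nat.coprime_comm, Nat.Prime.coprime_iff_not_dvd Nat.prime_five]
              have := hA.2.2
              omega
          have hd : 15 * A / A = 15 := Nat.mul_div_cancel _ (Nat.pos_of_ne_zero hA0)
          refine ⟨15, by norm_num, ⟨Ng_odd hA.1 sqf15 (by norm_num) hco, Dvd.intro _ rfl⟩, ?_, ?_, ?_⟩
          · rw [hd]
            exact ⟨hco, Or.inl ⟨hA, Or.inl ⟨sqf15, by norm_num⟩, dvd_rfl⟩⟩
          · rw [hd]
            exact QQ15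
          · intro B hB1 hB2 hB3 hB
            rcases hB with ⟨hB, _⟩ | ⟨hB, _⟩
            · have hcoB : Nat.Coprime B 15 := by
                rw [show (15 : ℕ) = 3 * 5 by norm_num]
                refine Nat.Coprime.mul_right ?_ ?_
                · rw [Nat.coprime_comm, Nat.Prime.coprime_iff_not_dvd Nat.prime_three]
                  have := hB.2.1
                  omega
                · rw [Nat.coprime_comm, Nat.Prime.coprime_iff_not_dvd Nat.prime_five]
                  have := hB.2.2
                  omega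
              obtain ⟨h5, h6⟩ := ud_cancel hA0 (by norm_num) hcoB hB1 hB2
              exact me_drop hA0 h5 h6 hB3
            · -- `B = 5 C`
              obtain ⟨_, hb3, C, hC⟩ := id hB
              have hB3' : Nat.Coprime B 3 := by
                rw [Nat.coprime_comm, Nat.Prime.coprime_iff_not_dvd Nat.prime_three]
                omega
              have h15 : 15 * A = 3 * (5 * A) := by ring
              rw [h15] at hB1 hB2
              have h5A : 5 * A ≠ 0 := by omega
              obtain ⟨h5, h6⟩ := ud_cancel h5A (by norm_num) hB3' hB1 hB2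
              have hCA : C ∣ A := by
                rw [hC] at h5
                exact Nat.dvd_of_mul_dvd_mul_left (by norm_num) h5
              have hdv : 5 * A / B = A / C := by
                rw [hC, Nat.mul_div_mul_left _ _ (by norm_num)]
              have hCc : Nat.Coprime C (A / C) := by
                rw [hdv, hC] at h6
                exact Nat.Coprime.coprime_mul_left h6
              have hCne : C ≠ A := by
                rintro rfl
                have := hA.2.1
                omega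
              have h7 := card_lt hA0 hCA hCc hCne
              have hC0 : C ≠ 0 := by
                rintro rfl
                rw [mul_zero] at hC
                rw [hC] at hb3
                simp at hb3
              have h8 : B.primeFactors.card ≤ 1 + C.primeFactors.card := by
                rw [hC, Nat.primeFactors_mul (by norm_num) hC0]
                refine (card_union_le _ _).trans ?_
                rw [Nat.Prime.primeFactors Nat.prime_five, card_singleton]
              have h5B : 5 ∣ B := ⟨C, hC⟩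
              have h5A' : ¬ 5 ∣ A := by
                have := hA.2.2
                omega
              unfold me
              rw [if_pos h5B, if_neg h5A']
              omega
        · have hco : Nat.Coprime A 3 := by
            rw [Nat.coprime_comm, Nat.Prime.coprime_iff_not_dvd Nat.prime_three]
            have := hA.2.1
            omega
          have hd : 3 * A / A = 3 := Nat.mul_div_cancel _ (Nat.pos_of_ne_zero hA0)
          refine ⟨3, by norm_num, ⟨Ng_odd hA.1 Nat.prime_three.squarefree (by norm_num) hco, ?_⟩,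
            ?_, ?_, ?_⟩
          · have := hA.2.2
            omega
          · rw [hd]
            exact ⟨hco, Or.inr ⟨hA, Or.inl ⟨Nat.prime_three.squarefree, by norm_num⟩, dvd_rfl,
              Or.inr (by norm_num)⟩⟩
          · rw [hd]
            exact QQ3
          · intro B hB1 hB2 hB3 hB
            have hcoB : Nat.Coprime B 3 := by
              rw [Nat.coprime_comm, Nat.Prime.coprime_iff_not_dvd Nat.prime_three]
              rcases hB with ⟨hB, _⟩ | ⟨hB, _⟩
              · have := hB.2.1
                omega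
              · have := hB.2.1
                omega
            obtain ⟨h5, h6⟩ := ud_cancel hA0 (by norm_num) hcoB hB1 hB2
            exact me_drop hA0 h5 h6 hB3
      have h1 := hy _ hn
      have h2 := z15 hn
      rw [h1] at h2
      have hmem : A ∈ (c * A).divisors := Nat.mem_divisors.2 ⟨Dvd.intro_left _ rfl, by positivity⟩
      have h3 := odd_uniq (c * A).divisors
        (fun B => Nat.Coprime B (c * A / B) ∧ ((Aii B ∧ N15 (c * A / B)) ∨ (Aio B ∧ N3 (c * A / B))) ∧
          y B ∧ QQ (c * A / B))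
        (fun B => Nat.Coprime B (c * A / B) ∧ ((Aii B ∧ N15 (c * A / B)) ∨ (Aio B ∧ N3 (c * A / B))) ∧
          CY (-3) B ∧ QQ (c * A / B)) hmem (by
          intro B hB hBA
          have hBd := Nat.dvd_of_mem_divisors hB
          constructor
          · rintro ⟨g1, g2, g3, g4⟩
            have hB' : Aii B ∨ Aio B := by
              rcases g2 with g2 | g2
              · exact Or.inl g2.1
              · exact Or.inr g2.1
            have := hsub B hBd g1 hBA g2
            exact ⟨g1, g2, (ih _ (hk ▸ this) B rfl hB').1 g3, g4⟩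
          · rintro ⟨g1, g2, g3, g4⟩
            have hB' : Aii B ∨ Aio B := by
              rcases g2 with g2 | g2
              · exact Or.inl g2.1
              · exact Or.inr g2.1
            have := hsub B hBd g1 hBA g2
            exact ⟨g1, g2, (ih _ (hk ▸ this) B rfl hB').2 g3, g4⟩) (by
          rw [h2]
          refine iff_of_eq (congrArg Odd (congrArg card ?_))
          exact (filter_ud _).symm)
      constructor
      · intro g
        exact (h3.1 ⟨hcls.1, hcls.2, g, hQ⟩).2.2.1
      · intro g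
        exact (h3.2 ⟨hcls.1, hcls.2, g, hQ⟩).2.2.1
  intro A hA
  exact key _ A rfl hA

end Pool.Agent.N972.GC
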