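import Pool.Agent.N809.PQ.P21
import Pool.Agent.N875.D15.Cls
import Pool.Agent.N877.P21G.Defs
import Pool.Agent.N972.GC.Lv21

/-!
# The criteria of the classes of twists of `X_0(21)` from the criterion `Sg21` (helper972)

Part 1: the classes with one functional.
-/

set_option autoImplicit false

open Finset

namespace Pool.Agent.N972.GC

open Pool.Agent.N875.X15
open Pool.Agent.N875.P17 (Lm al two_zmod row_sum)
open Pool.Agent.N809.PQ
open Pool.Agent.N809.P17 (de)

section gen

variable {m : ℤ}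

/-- the indicator of the divisors of `m` -/
def dv (m : ℤ) (p : ℕ) : ZMod 2 := if (p : ℤ) ∣ m then 1 else 0

lemma Lm7r {p : ℕ} (hp7 : p ≠ 7) : Lm m p 7 = ra p (-7) := by
  unfold Lm
  rw [if_neg hp7, ps7]

lemma seven_PR (hs : Squarefree m) : 7 ∈ PR m ↔ (7 : ℤ) ∣ m := by
  constructor
  · intro h
    have := dvd_PR hs h (by norm_num)
    exact_mod_cast this
  · intro h
    exact PR_of_dvd hs (by norm_num) (by exact_mod_cast h)

/-- the combination of the rows which belongs to the torsion point -/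
theorem dot_tor (hs : Squarefree m) (v : ℕ → ZMod 2) :
    ∑ p ∈ PR m, dv m p * ∑ q ∈ PR m, Lm m p q * v q =
      if 0 < m then ∑ q ∈ PR m, al m q * v q else 0 := by
  have h1 : ∑ p ∈ PR m, dv m p * ∑ q ∈ PR m, Lm m p q * v q =
      ∑ q ∈ PR m, (∑ p ∈ PR m, Lm m p q * (if (p : ℤ) ∣ m then 1 else 0)) * v q := by
    simp only [mul_sum, sum_mul]
    rw [sum_comm]
    refine sum_congr rfl fun q _ => sum_congr rfl fun p _ => ?_
    unfold dv
    ring
  rw [h1]
  have h2 : ∀ q ∈ PR m, (∑ p ∈ PR m, Lm m p q * (if (p : ℤ) ∣ m then 1 else 0)) * v q =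
      (if 0 < m then 1 else 0) * (al m q * v q) := by
    intro q hq
    have h3 := col_tor hs hq
    have h4 := z2 ((if 0 < m then (1 : ZMod 2) else 0) * al m q)
    linear_combination (v q) * h3 - (v q) * h4
  rw [sum_congr rfl h2, ← mul_sum]
  split_ifs
  · rw [one_mul]
  · rw [zero_mul]

/-- the sum of a functional over the divisors of `m` -/
lemma sum_dvm (hs : Squarefree m) (f : ℕ → ZMod 2) :
    ∑ p ∈ PR m, dv m p * f p = ∑ p ∈ m.natAbs.primeFactors, f p := by
  have h := sum_dv hs f 1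
  rw [one_mul] at h
  rw [← h]
  refine sum_congr rfl fun p _ => ?_
  unfold dv
  rw [mul_comm]

lemma sum7 (hs : Squarefree m) (h7 : ¬ (7 : ℤ) ∣ m) :
    ∑ p ∈ PR m, dv m p * ra p (-7) = ra 7 (m.natAbs : ℤ) := by
  rw [sum_dvm hs, sum_congr rfl fun p hp => ra_m7 (Nat.mem_primeFactors.1 hp).1,
    sum_ra_abs hs (by norm_num) (by norm_num) (by exact_mod_cast h7)]

lemma sum3 (hs : Squarefree m) (h3 : ¬ (3 : ℤ) ∣ m) :
    ∑ p ∈ PR m, dv m p * ra p (-3) = ra 3 (m.natAbs : ℤ) := by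
  rw [sum_dvm hs, sum_congr rfl fun p hp => ra_m3 (Nat.mem_primeFactors.1 hp).1,
    sum_ra_abs hs (by norm_num) (by norm_num) (by exact_mod_cast h3)]

/-- the criterion with the functional of `-7` -/
def Cy7 (m : ℤ) : Prop := ∀ (z : ℕ → ZMod 2) (e : ZMod 2),
  (∀ p ∈ PR m, ∑ q ∈ PR m, Lm m p q * z q = e * ra p (-7)) →
  e = 0 ∧ ∀ p ∈ PR m, ∀ q ∈ PR m, z p = z q

/-- **positive, `7` inert, `3` not split** -/
theorem cy7_of_sg (hs : Squarefree m) (hm : 0 < m) (h3 : ¬ C3 m) (h7 : C7 m) (hS : Sg21 m) :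
    Cy7 m := by
  intro z e hz
  have n7 : ¬ (7 : ℤ) ∣ m := by unfold C7 at h7; omega
  have P7 : 7 ∉ PR m := fun h => n7 ((seven_PR hs).1 h)
  have hL : ∀ p ∈ PR m, Lm m p 7 = ra p (-7) := fun p hp => Lm7r (fun h => P7 (h ▸ hp))
  have sol : Sol21 m (fun _ => 0) z 0 0 e :=
    { s0 := fun _ => rfl
      a0 := fun _ => rfl
      c0 := fun h => absurd h n7
      row := fun p hp => by
        rw [hz p hp, hL p hp, mul_zero, zero_add, zero_mul, add_zero, z2]
      col := fun q _ => by simp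
      sgn := fun _ => by
        have h1 := dot_tor hs z
        rw [if_pos hm, sum_congr rfl fun p hp => by rw [hz p hp]] at h1
        rw [← h1]
        have h2 : ∑ p ∈ PR m, dv m p * (e * ra p (-7)) = e * ∑ p ∈ PR m, dv m p * ra p (-7) := by
          rw [mul_sum]
          exact sum_congr rfl fun p _ => by ring
        rw [h2, sum7 hs n7, ra7, if_neg (by unfold C7 at h7; omega), mul_one, add_zero, add_zero, z2]
      at3 := fun h => absurd h h3
      at7 := fun _ => by rw [if_pos h7]; simp }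
  obtain ⟨-, α, β, h1, h2, -, h4⟩ := hS _ _ _ _ _ sol
  rw [if_pos hm] at h1
  subst h1
  rw [if_neg n7] at h2
  refine ⟨h2, fun p hp q hq => ?_⟩
  rw [h4 p hp, h4 q hq, ite_self, ite_self]

/-- the criterion with the functionals of `-7` and `3` -/
def Cm73 (m : ℤ) : Prop := ∀ z : ℕ → ZMod 2,
  (∀ p ∈ PR m, ∑ q ∈ PR m, Lm m p q * z q = (∑ q ∈ PR m, ra 3 (ps m q) * z q) * ra p (-7)) →
  ∀ p ∈ PR m, ∀ q ∈ PR m, z p = z q

/-- **negative, `7` inert, `3` split** -/
theorem cm73_of_sg (hs : Squarefree m) (hm : m < 0) (h3 : C3 m) (h7 : C7 m) (hS : Sg21 m) :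
    Cm73 m := by
  intro z hz
  have n7 : ¬ (7 : ℤ) ∣ m := by unfold C7 at h7; omega
  have P7 : 7 ∉ PR m := fun h => n7 ((seven_PR hs).1 h)
  have hL : ∀ p ∈ PR m, Lm m p 7 = ra p (-7) := fun p hp => Lm7r (fun h => P7 (h ▸ hp))
  set e : ZMod 2 := ∑ q ∈ PR m, ra 3 (ps m q) * z q with he
  have sol : Sol21 m (fun _ => 0) z 0 0 e :=
    { s0 := fun _ => rfl
      a0 := fun _ => rfl
      c0 := fun h => absurd h n7
      row := fun p hp => by
        rw [hz p hp, hL p hp, mul_zero, zero_add, zero_mul, add_zero, z2]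
      col := fun q _ => by simp
      sgn := fun h => absurd h (by omega)
      at3 := fun h => by
        rw [← he]
        simp only [mul_zero, sum_const_zero, zero_add, add_zero]
        exact z2 e
      at7 := fun _ => by rw [if_pos h7]; simp }
  obtain ⟨-, α, β, -, -, -, h4⟩ := hS _ _ _ _ _ sol
  have e7 : ∀ r ∈ PR m, r ≠ 7 := fun r hr h => P7 (h ▸ hr)
  intro p hp q hq
  rw [h4 p hp, h4 q hq, if_neg (e7 p hp), if_neg (e7 q hq)]

/-- the criterion of the class number -/
def Ct (m : ℤ) : Prop := ∀ z : ℕ → ZMod 2, (∀ p ∈ PR m, ∑ q ∈ PR m, Lm m p q * z q = 0) →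
  ∀ p ∈ PR m, ∀ q ∈ PR m, z p = z q

/-- **negative discriminants**: the class number criterion -/
theorem ct_of_sg (hs : Squarefree m) (hm : m < 0) (h3 : ¬ C3 m) (hS : Sg21 m) :
    Ct m := by
  intro z hz
  have sol : Sol21 m (fun _ => 0) z 0 0 0 :=
    { s0 := fun _ => rfl
      a0 := fun _ => rfl
      c0 := fun _ => rfl
      row := fun p hp => by
        rw [hz p hp]
        simp
      col := fun q _ => by simp
      sgn := fun h => absurd h (by omega)
      at3 := fun h => absurd h h3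
      at7 := fun _ => by simp }
  obtain ⟨-, α, β, -, h2, h3, h4⟩ := hS _ _ _ _ _ sol
  by_cases h7 : (7 : ℤ) ∣ m
  · have h5 := h3 7 ((seven_PR hs).2 h7)
    rw [if_pos (by exact_mod_cast h7)] at h5
    intro p hp q hq
    rw [h4 p hp, h4 q hq, ← h5, ite_self, ite_self]
  · rw [if_neg h7] at h2
    intro p hp q hq
    rw [h4 p hp, h4 q hq, ← h2, ite_self, ite_self]

end gen

end Pool.Agent.N972.GC
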