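import Pool.Agent.N972.GC.Sg21a

/-!
# The criteria of the classes of twists of `X_0(21)` from the criterion `Sg21` (helper972)

Part 2: positive discriminants, `3` split, `7` not inert.
-/

set_option autoImplicit false

open Finset

namespace Pool.Agent.N972.GC

open Pool.Agent.N875.X15
open Pool.Agent.N875.P17 (Lm al two_zmod row_sum)
open Pool.Agent.N809.PQ
open Pool.Agent.N809.P17 (de al_total col_sum zmul_self)

section gen

variable {m : ℤ}

/-- the vertex of `-4` -/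
def D4 (m : ℤ) (p : ℕ) : ZMod 2 := if p = 2 then de m else 0

/-- the functional of `-3` -/
def G3 (m : ℤ) (p : ℕ) : ZMod 2 := ra p (-3) + D4 m p

/-- the functional of `-7` -/
def F7 (p : ℕ) : ZMod 2 := if p = 7 then 0 else ra p (-7)

/-- the criterion -/
def C21m (m : ℤ) : Prop := ∀ (x X : ℕ → ZMod 2) (e : ZMod 2),
  (∀ p ∈ PR m, ∑ q ∈ PR m, Lm m p q * x q + (∑ q ∈ PR m, Lm m p q * X q +
    ∑ q ∈ PR m, Lm m q p * X q + al m p * (∑ q ∈ PR m, D4 m q * X q) +
    D4 m p * (∑ q ∈ PR m, al m q * X q) + F7 p * (∑ q ∈ PR m, F7 q * X q) + F7 p * X p) +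
    e * D4 m p = 0) →
  (∀ q ∈ PR m, ∑ p ∈ PR m, Lm m p q * X p + e * G3 m q = 0) →
  ∑ p ∈ PR m, G3 m p * x p + ∑ p ∈ PR m, D4 m p * X p = 0 →
  (∀ p ∈ PR m, X p = 0) ∧ e = 0 ∧ ∀ p ∈ PR m, ∀ q ∈ PR m, x p = x q

lemma zc (a : ZMod 2) : a = 0 ∨ a = 1 := by revert a; decide

lemma sum_single (P : Finset ℕ) (f : ℕ → ZMod 2) (r : ℕ) (t : ZMod 2) :
    ∑ q ∈ P, f q * (if q = r then t else 0) = if r ∈ P then f r * t else 0 := by
  rw [sum_congr rfl fun q _ => show f q * (if q = r then t else 0) =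
    if q = r then f q * t else 0 by split_ifs <;> ring, sum_ite_eq']

lemma de_mem (h : de m = 1) : 2 ∈ PR m ∧ d2 m = -1 := by
  unfold de at h
  by_contra h1
  rw [if_neg h1] at h
  exact absurd h (by decide)

lemma d2_cases (hs : Squarefree m) (h : 2 ∈ PR m) : d2 m = -1 ∨ d2 m = 2 ∨ d2 m = -2 := by
  have h3 := (two_mem_PR hs.ne_zero).1 h
  obtain ⟨h4, h5⟩ := d2_spec hs
  rcases h5 with ⟨-, h5 | h5⟩ | ⟨-, h5 | h5⟩
  · exfalso
    rw [h5, one_mul] at h4
    have := oe_mod m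
    rw [← h4] at this
    exact h3 this
  · exact Or.inl h5
  · exact Or.inr (Or.inl h5)
  · exact Or.inr (Or.inr h5)

lemma al_two : al m 2 = if d2 m < 0 then 1 else 0 := by
  unfold al
  rw [ps_two]

lemma al_two_de (h : de m = 1) : al m 2 = 1 := by
  rw [al_two, (de_mem h).2]
  decide

/-- the column of `-4` -/
lemma Lm_two (hs : Squarefree m) (h : de m = 1) {p : ℕ} (hp : p ∈ PR m) (hp2 : p ≠ 2) :
    Lm m p 2 = al m p := by
  unfold Lm
  rw [if_neg hp2, ps_two, (de_mem h).2, Pool.Agent.N875.P17.ra_neg_one (prime_PR hs hp) hp2]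

lemma dv_eq (hs : Squarefree m) {p : ℕ} (hp : p ∈ PR m) : dv m p = 1 + D4 m p :=
  de_eq hs hp

lemma ra2_3 : ra 2 (-3) = 1 := by
  unfold ra
  rw [ch_two]
  rfl

lemma ra2_7 : ra 2 (-7) = 0 := by
  unfold ra
  rw [ch_two]
  rfl

lemma F7_two : F7 2 = 0 := by
  unfold F7
  rw [if_neg (by norm_num), ra2_7]

lemma F7_seven : F7 7 = 0 := if_pos rfl

lemma D4_seven : D4 m 7 = 0 := if_neg (by norm_num)

lemma G3_seven : G3 m 7 = 0 := by
  unfold G3
  rw [D4_seven, ra_m3 (by norm_num), ra3]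
  decide

lemma G3_D4 (q : ℕ) : G3 m q * D4 m q = 0 := by
  unfold G3 D4
  split_ifs with h
  · subst h
    rw [ra2_3]
    rcases zc (de m) with h1 | h1 <;> rw [h1] <;> decide
  · rw [mul_zero]

/-- the functional of `3` at the prime discriminants -/
lemma sig3 (hs : Squarefree m) (h3 : ¬ (3 : ℤ) ∣ m) {q : ℕ} (hq : q ∈ PR m) :
    ra 3 (ps m q) = G3 m q + al m q := by
  by_cases h2 : q = 2
  · subst h2
    unfold G3 D4
    rw [ra2_3, if_pos rfl, al_two, ps_two, ra3]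
    have e : de m = if d2 m = -1 then 1 else 0 := by
      unfold de
      by_cases h : d2 m = -1
      · rw [if_pos ⟨hq, h⟩, if_pos h]
      · rw [if_neg (fun h' => h h'.2), if_neg h]
    rw [e]
    rcases d2_cases hs hq with h | h | h <;> rw [h] <;> decide
  · have hp := prime_PR hs hq
    have hq3 : ¬ 3 ∣ q := by
      intro h
      have h4 := (Nat.prime_dvd_prime_iff_eq (by norm_num) hp).1 h
      subst h4
      exact h3 (by exact_mod_cast dvd_PR hs hq h2)
    unfold G3 D4 al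
    rw [if_neg h2, add_zero, ra_m3 hp, ps_odd h2]
    unfold sgp
    rw [ra3, ra3]
    have := hp.pos
    by_cases h4 : q % 4 = 1
    · rw [if_pos h4, if_neg (show ¬ (q : ℤ) < 0 by omega), add_zero]
    · rw [if_neg h4, if_pos (show -(q : ℤ) < 0 by omega)]
      by_cases h5 : (q : ℤ) % 3 = 1
      · rw [if_pos h5, if_neg (by omega)]
        decide
      · rw [if_neg h5, if_pos (by omega)]
        decide

/-- the row sum with the vertex of `-4` -/
lemma row_D4 (hs : Squarefree m) {p : ℕ} (hp : p ∈ PR m) :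
    ∑ q ∈ PR m, Lm m p q * D4 m q = de m * al m p + D4 m p * (1 + Lm m 2 2) := by
  have h1 : ∑ q ∈ PR m, Lm m p q * D4 m q = if 2 ∈ PR m then Lm m p 2 * de m else 0 := by
    unfold D4
    exact sum_single _ _ _ _
  rw [h1]
  rcases zc (de m) with h | h
  · unfold D4
    rw [h]
    simp
  · rw [if_pos (de_mem h).1]
    by_cases hp2 : p = 2
    · subst hp2
      unfold D4
      rw [if_pos rfl, h, al_two_de h]
      have := z2 (1 : ZMod 2)
      linear_combination (-1 : ZMod 2) * this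
    · unfold D4
      rw [if_neg hp2, Lm_two hs h hp hp2, h]
      ring

lemma del_de (X : ℕ → ZMod 2) : (∑ q ∈ PR m, D4 m q * X q) * de m = ∑ q ∈ PR m, D4 m q * X q := by
  rw [sum_mul]
  refine sum_congr rfl fun q _ => ?_
  unfold D4
  split_ifs
  · have := zmul_self (de m)
    linear_combination (X q) * this
  · ring

lemma del_eq (h : de m = 1) (X : ℕ → ZMod 2) : ∑ q ∈ PR m, D4 m q * X q = X 2 := by
  have h1 : ∑ q ∈ PR m, D4 m q * X q = ∑ q ∈ PR m, X q * (if q = 2 then de m else 0) :=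
    sum_congr rfl fun q _ => mul_comm _ _
  rw [h1, sum_single, if_pos (de_mem h).1, h, mul_one]

/-- consequence of the second equation at `2` -/
lemma core2 (hs : Squarefree m) {X : ℕ → ZMod 2} {e : ZMod 2}
    (h : ∀ q ∈ PR m, ∑ p ∈ PR m, Lm m p q * X p + e * G3 m q = 0) (p : ℕ) :
    D4 m p * ((∑ q ∈ PR m, D4 m q * X q) * (1 + Lm m 2 2) + ∑ q ∈ PR m, al m q * X q) = 0 := by
  rcases zc (de m) with h0 | h0
  · have : D4 m p = 0 := by
      unfold D4
      rw [h0, ite_self]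
    rw [this, zero_mul]
  · rw [del_eq h0]
    have hP := (de_mem h0).1
    have h1 := h 2 hP
    have e1 : G3 m 2 = 0 := by
      unfold G3 D4
      rw [if_pos rfl, h0, ra2_3]
      decide
    rw [e1, mul_zero, add_zero, ← add_sum_erase _ _ hP, sum_congr rfl fun q hq =>
      by rw [Lm_two hs h0 (mem_of_mem_erase hq) (ne_of_mem_erase hq)]] at h1
    rw [← add_sum_erase _ (fun q => al m q * X q) hP, al_two_de h0]
    have h2 := z2 (X 2)
    linear_combination (D4 m p) * h1 + (D4 m p) * h2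

lemma col7 (hP : 7 ∈ PR m) (X : ℕ → ZMod 2) :
    ∑ p ∈ PR m, Lm m p 7 * X p = ∑ p ∈ PR m, F7 p * X p + Lm m 7 7 * X 7 := by
  rw [← add_sum_erase _ _ hP, ← add_sum_erase _ (fun p => F7 p * X p) hP, F7_seven,
    sum_congr rfl fun q hq => by rw [Lm7r (ne_of_mem_erase hq)],
    sum_congr (f := fun p => F7 p * X p) rfl fun q hq => by
      show F7 q * X q = ra q (-7) * X q
      unfold F7
      rw [if_neg (ne_of_mem_erase hq)]]
  ring

/-- consequence of the second equation at `7` -/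
lemma core7 {X : ℕ → ZMod 2} {e : ZMod 2}
    (h : ∀ q ∈ PR m, ∑ p ∈ PR m, Lm m p q * X p + e * G3 m q = 0) {p : ℕ} (hp : p ∈ PR m) :
    (Lm m p 7 + F7 p) * (X p + ∑ q ∈ PR m, F7 q * X q) = 0 := by
  by_cases h7 : p = 7
  · subst h7
    have h1 := h 7 hp
    rw [G3_seven, mul_zero, add_zero, col7 hp] at h1
    rw [F7_seven]
    have h2 := zmul_self (Lm m 7 7)
    linear_combination (Lm m 7 7) * h1 - (X 7) * h2
  · have e1 : Lm m p 7 = F7 p := by
      unfold F7
      rw [Lm7r h7, if_neg h7]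
    rw [e1, z2, zero_mul]

/-- the new vector -/
def yy (m : ℤ) (z X : ℕ → ZMod 2) (q : ℕ) : ZMod 2 := z q + X q +
  (∑ q ∈ PR m, D4 m q * X q) * D4 m q + if q = 7 then ∑ q ∈ PR m, F7 q * X q else 0

lemma yy_inv (z X : ℕ → ZMod 2) (q : ℕ) : yy m (yy m z X) X q = z q := by
  unfold yy
  have h1 := z2 (X q)
  have h2 := z2 ((∑ q ∈ PR m, D4 m q * X q) * D4 m q)
  have h3 := z2 (if q = 7 then ∑ q ∈ PR m, F7 q * X q else 0)
  linear_combination h1 + h2 + h3

lemma dot_yy (f z X : ℕ → ZMod 2) : ∑ q ∈ PR m, f q * yy m z X q = ∑ q ∈ PR m, f q * z q +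
    ∑ q ∈ PR m, f q * X q + (∑ q ∈ PR m, D4 m q * X q) * (∑ q ∈ PR m, f q * D4 m q) +
    if 7 ∈ PR m then f 7 * ∑ q ∈ PR m, F7 q * X q else 0 := by
  unfold yy
  rw [← sum_single (PR m) f 7 (∑ q ∈ PR m, F7 q * X q), mul_sum, ← sum_add_distrib,
    ← sum_add_distrib, ← sum_add_distrib]
  exact sum_congr rfl fun q _ => by ring

/-- the first equations of the two systems -/
theorem row_iff (hs : Squarefree m) {z X : ℕ → ZMod 2} {e c : ZMod 2}
    (h : ∀ q ∈ PR m, ∑ p ∈ PR m, Lm m p q * X p + e * G3 m q = 0)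
    (hc : c = if 7 ∈ PR m then 0 else ∑ q ∈ PR m, F7 q * X q) {p : ℕ} (hp : p ∈ PR m) :
    Lm m p 7 * X p + ∑ q ∈ PR m, Lm m p q * yy m z X q + e * ra p (-3) + c * Lm m p 7 =
    ∑ q ∈ PR m, Lm m p q * z q + (∑ q ∈ PR m, Lm m p q * X q +
    ∑ q ∈ PR m, Lm m q p * X q + al m p * (∑ q ∈ PR m, D4 m q * X q) +
    D4 m p * (∑ q ∈ PR m, al m q * X q) + F7 p * (∑ q ∈ PR m, F7 q * X q) + F7 p * X p) +
    e * D4 m p := by
  rw [dot_yy, row_D4 hs hp]
  have h1 := core7 h hp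
  have h2 := core2 hs h p
  have h3 := h p hp
  have h4 := del_de (m := m) X
  have h5 : ra p (-3) = G3 m p + D4 m p := by
    unfold G3
    have := z2 (D4 m p)
    linear_combination (-1 : ZMod 2) * this
  have h6 : c * Lm m p 7 + (if 7 ∈ PR m then Lm m p 7 * ∑ q ∈ PR m, F7 q * X q else 0) =
      Lm m p 7 * ∑ q ∈ PR m, F7 q * X q := by
    rw [hc]
    split_ifs <;> ring
  rw [h5]
  have h8 := z2 (∑ q ∈ PR m, Lm m q p * X q)
  have h9 := z2 (D4 m p * ∑ q ∈ PR m, al m q * X q)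
  have h10 := z2 (F7 p * (X p + ∑ q ∈ PR m, F7 q * X q))
  linear_combination h1 + h2 + h3 + (al m p) * h4 + h6 - h8 - h9 - h10

end gen

end Pool.Agent.N972.GC
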