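import Pool.Agent.N972.GC.Sg21b

/-!
# The criteria of the classes of twists of `X_0(21)` from the criterion `Sg21` (helper972)

Part 3: positive discriminants, `3` split, `7` not inert: `Sg21 m ↔ C21m m`.
-/

set_option autoImplicit false

open Finset

namespace Pool.Agent.N972.GC

open Pool.Agent.N875.X15
open Pool.Agent.N875.P17 (Lm al two_zmod row_sum)
open Pool.Agent.N809.PQ
open Pool.Agent.N809.P17 (de al_total col_sum zmul_self)

section gen

variable {m : ℤ}

/-! ### linearity -/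

open scoped Classical in
/-- the solutions form a vector space -/
theorem sol_add {x y x' y' : ℕ → ZMod 2} {s a c s' a' c' : ZMod 2} (h : Sol21 m x y s a c)
    (h' : Sol21 m x' y' s' a' c') : Sol21 m (fun p => x p + x' p) (fun q => y q + y' q) (s + s')
      (a + a') (c + c') := by
  have key : ∀ (f u v : ℕ → ZMod 2), ∑ p ∈ PR m, f p * (u p + v p) =
      ∑ p ∈ PR m, f p * u p + ∑ p ∈ PR m, f p * v p := by
    intro f u v
    rw [← sum_add_distrib]
    exact sum_congr rfl fun p _ => mul_add _ _ _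
  refine ⟨fun h0 => by rw [h.s0 h0, h'.s0 h0, add_zero], fun h0 => by rw [h.a0 h0, h'.a0 h0, add_zero],
    fun h0 => by rw [h.c0 h0, h'.c0 h0, add_zero], fun p hp => ?_, fun q hq => ?_, fun h0 => ?_,
    fun h0 => ?_, fun h0 => ?_⟩
  · have h1 := h.row p hp
    have h2 := h'.row p hp
    rw [key]
    linear_combination h1 + h2
  · have h1 := h.col q hq
    have h2 := h'.col q hq
    rw [key (fun p => Lm m p q)]
    linear_combination h1 + h2
  · have h1 := h.sgn h0
    have h2 := h'.sgn h0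
    rw [key]
    linear_combination h1 + h2
  · have h1 := h.at3 h0
    have h2 := h'.at3 h0
    rw [key, key]
    linear_combination h1 + h2
  · have h1 := h.at7 h0
    have h2 := h'.at7 h0
    rw [key]
    split_ifs at h1 h2 ⊢
    · linear_combination h1 + h2
    · linear_combination h1 + h2

/-- the first torsion point, with a coefficient -/
theorem sol_tor (hs : Squarefree m) (t : ZMod 2) : Sol21 m (fun p => t * dv m p)
    (fun q => if q = 7 then t else 0) (if 0 < m then t else 0) 0 (if (7 : ℤ) ∣ m then 0 else t) := by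
  rcases zc t with h | h
  · subst h
    refine ⟨fun _ => ite_self _, fun _ => rfl, fun _ => ite_self _, fun p hp => ?_, fun q hq => ?_,
      fun _ => ?_, fun _ => ?_, fun _ => ?_⟩
    · simp
    · simp
    · simp
    · simp
    · simp
  · subst h
    have h1 := tor21_x hs
    have e : (fun p : ℕ => (1 : ZMod 2) * dv m p) = (fun p : ℕ => if (p : ℤ) ∣ m then 1 else 0) := by
      funext p
      rw [one_mul]
      rfl
    rw [e]
    exact h1

/-! ### the sums -/

lemma dv_D4 (hs : Squarefree m) {p : ℕ} (hp : p ∈ PR m) : dv m p * D4 m p = 0 := by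
  rw [dv_eq hs hp]
  have h := zmul_self (D4 m p)
  have h2 := z2 (D4 m p)
  linear_combination h + h2

lemma dv_K7 (hs : Squarefree m) {p : ℕ} (hp : p ∈ PR m) : dv m p * F7 p = F7 p := by
  rw [dv_eq hs hp]
  by_cases h : p = 2
  · subst h
    rw [F7_two, mul_zero]
  · unfold D4
    rw [if_neg h]
    ring

lemma sum_dv_D4 (hs : Squarefree m) (c : ZMod 2) : ∑ p ∈ PR m, dv m p * (D4 m p * c) = 0 :=
  sum_eq_zero fun p hp => by rw [← mul_assoc, dv_D4 hs hp, zero_mul]

lemma sum_dv_G3 (hs : Squarefree m) (hm : 0 < m) (h3 : C3 m) :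
    ∑ p ∈ PR m, dv m p * G3 m p = 0 := by
  unfold C3 at h3
  have h1 : ∑ p ∈ PR m, dv m p * G3 m p = ∑ p ∈ PR m, dv m p * ra p (-3) := by
    refine sum_congr rfl fun p hp => ?_
    unfold G3
    rw [mul_add, dv_D4 hs hp, add_zero]
  rw [h1, sum3 hs (by omega), ra3, if_pos (by omega)]

lemma sum_dv_al (hs : Squarefree m) (hm : 0 < m) :
    ∑ p ∈ PR m, dv m p * al m p = de m := by
  have h1 : ∑ p ∈ PR m, dv m p * al m p = ∑ p ∈ PR m, al m p + ∑ p ∈ PR m, al m p * D4 m p := by
    rw [← sum_add_distrib]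
    refine sum_congr rfl fun p hp => ?_
    rw [dv_eq hs hp]
    ring
  rw [h1, al_total hs, if_neg (by omega), zero_add]
  unfold D4
  rw [sum_single]
  rcases zc (de m) with h | h
  · rw [h]
    simp
  · rw [if_pos (de_mem h).1, al_two_de h, h, one_mul]

/-- the sum of the functional of `-7` -/
lemma sum_K7 (hs : Squarefree m) (hm : 0 < m) (h7 : ¬ C7 m) :
    ∑ p ∈ PR m, F7 p = if 7 ∈ PR m then 1 + Lm m 7 7 else 0 := by
  by_cases hP : 7 ∈ PR m
  · rw [if_pos hP]
    have h1 := col_sum hs hP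
    have h2 := col7 hP (fun _ => 1)
    simp only [mul_one] at h2
    rw [h2, al7, al_total hs, if_neg (by omega), Lm7_two] at h1
    simp only [ite_self, mul_zero, add_zero, zero_add, mul_one] at h1
    have h3 := z2 (Lm m 7 7)
    linear_combination h1 - h3
  · rw [if_neg hP]
    have n7 : ¬ (7 : ℤ) ∣ m := fun h => hP ((seven_PR hs).2 h)
    have h1 := sum7 hs n7
    rw [ra7, if_pos (by unfold C7 at h7; omega)] at h1
    rw [← h1]
    refine sum_congr rfl fun p hp => ?_
    have hp7 : p ≠ 7 := fun h => hP (h ▸ hp)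
    have h2 : ra p (-7) = F7 p := by
      unfold F7
      rw [if_neg hp7]
    rw [h2, dv_K7 hs hp]

lemma kap_K7 (hs : Squarefree m) (hm : 0 < m) (h7 : ¬ C7 m) {X : ℕ → ZMod 2} {e : ZMod 2}
    (h : ∀ q ∈ PR m, ∑ p ∈ PR m, Lm m p q * X p + e * G3 m q = 0) :
    (∑ p ∈ PR m, F7 p) * (∑ p ∈ PR m, F7 p * X p) = 0 := by
  rw [sum_K7 hs hm h7]
  by_cases hP : 7 ∈ PR m
  · rw [if_pos hP]
    have h1 := h 7 hP
    rw [G3_seven, mul_zero, add_zero, col7 hP] at h1
    have h2 := zmul_self (Lm m 7 7)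
    have h3 := z2 (Lm m 7 7 * X 7)
    linear_combination (1 + Lm m 7 7) * h1 - (X 7) * h2 - h3
  · rw [if_neg hP, zero_mul]

/-- the first equation -/
def Row (m : ℤ) (x X : ℕ → ZMod 2) (e : ZMod 2) (p : ℕ) : ZMod 2 :=
  ∑ q ∈ PR m, Lm m p q * x q + (∑ q ∈ PR m, Lm m p q * X q +
    ∑ q ∈ PR m, Lm m q p * X q + al m p * (∑ q ∈ PR m, D4 m q * X q) +
    D4 m p * (∑ q ∈ PR m, al m q * X q) + F7 p * (∑ q ∈ PR m, F7 q * X q) + F7 p * X p) +
    e * D4 m p

/-- the sum of the first equations -/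
theorem sum_row (hs : Squarefree m) (hm : 0 < m) (h3 : C3 m) (h7 : ¬ C7 m)
    {z X : ℕ → ZMod 2} {e : ZMod 2}
    (h : ∀ q ∈ PR m, ∑ p ∈ PR m, Lm m p q * X p + e * G3 m q = 0) :
    ∑ p ∈ PR m, dv m p * Row m z X e p = ∑ q ∈ PR m, al m q * z q + ∑ q ∈ PR m, al m q * X q +
      ∑ q ∈ PR m, D4 m q * X q + ∑ q ∈ PR m, F7 q * X q := by
  set δ := ∑ q ∈ PR m, D4 m q * X q with hδ
  set κ := ∑ q ∈ PR m, F7 q * X q with hκ
  set η := ∑ q ∈ PR m, al m q * X q with hη
  have T1 := dot_tor hs z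
  have T2 := dot_tor hs X
  rw [if_pos hm] at T1 T2
  have T3 : ∑ p ∈ PR m, dv m p * ∑ q ∈ PR m, Lm m q p * X q = 0 := by
    have h4 : ∀ p ∈ PR m, dv m p * ∑ q ∈ PR m, Lm m q p * X q = e * (dv m p * G3 m p) := by
      intro p hp
      have h5 := h p hp
      have h6 := z2 (e * G3 m p)
      linear_combination (dv m p) * h5 - (dv m p) * h6
    rw [sum_congr rfl h4, ← mul_sum, sum_dv_G3 hs hm h3, mul_zero]
  have T4 : ∑ p ∈ PR m, dv m p * (al m p * δ) = δ := by
    have h4 : ∑ p ∈ PR m, dv m p * (al m p * δ) = (∑ p ∈ PR m, dv m p * al m p) * δ := by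
      rw [sum_mul]
      exact sum_congr rfl fun p _ => by ring
    rw [h4, sum_dv_al hs hm, mul_comm, hδ, del_de]
  have T5 := sum_dv_D4 hs η
  have T6 : ∑ p ∈ PR m, dv m p * (F7 p * κ) = 0 := by
    have h4 : ∑ p ∈ PR m, dv m p * (F7 p * κ) = (∑ p ∈ PR m, F7 p) * κ := by
      rw [sum_mul]
      exact sum_congr rfl fun p hp => by rw [← mul_assoc, dv_K7 hs hp]
    rw [h4, hκ, kap_K7 hs hm h7 h]
  have T7 : ∑ p ∈ PR m, dv m p * (F7 p * X p) = κ :=
    sum_congr rfl fun p hp => by rw [← mul_assoc, dv_K7 hs hp]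
  have T8 := sum_dv_D4 hs e
  have h9 : ∑ p ∈ PR m, dv m p * Row m z X e p =
      ∑ p ∈ PR m, dv m p * ∑ q ∈ PR m, Lm m p q * z q +
      ∑ p ∈ PR m, dv m p * ∑ q ∈ PR m, Lm m p q * X q +
      ∑ p ∈ PR m, dv m p * ∑ q ∈ PR m, Lm m q p * X q +
      ∑ p ∈ PR m, dv m p * (al m p * δ) + ∑ p ∈ PR m, dv m p * (D4 m p * η) +
      ∑ p ∈ PR m, dv m p * (F7 p * κ) + ∑ p ∈ PR m, dv m p * (F7 p * X p) +
      ∑ p ∈ PR m, dv m p * (D4 m p * e) := by
    simp only [← sum_add_distrib]
    refine sum_congr rfl fun p _ => ?_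
    unfold Row
    rw [← hδ, ← hκ, ← hη]
    ring
  rw [h9, T1, T2, T3, T4, T5, T6, T7, T8]
  ring

/-- **the equivalence of the two systems** -/
theorem sol_iff (hs : Squarefree m) (hm : 0 < m) (h3 : C3 m) (h7 : ¬ C7 m)
    (z X : ℕ → ZMod 2) (e : ZMod 2) :
    Sol21 m X (yy m z X) e e (if (7 : ℤ) ∣ m then 0 else ∑ q ∈ PR m, F7 q * X q) ↔
    (∀ p ∈ PR m, Row m z X e p = 0) ∧
    (∀ q ∈ PR m, ∑ p ∈ PR m, Lm m p q * X p + e * G3 m q = 0) ∧
    ∑ p ∈ PR m, G3 m p * z p + ∑ p ∈ PR m, D4 m p * X p = 0 := by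
  set c : ZMod 2 := if (7 : ℤ) ∣ m then 0 else ∑ q ∈ PR m, F7 q * X q with hc
  have n3 : ¬ (3 : ℤ) ∣ m := by unfold C3 at h3; omega
  have hc' : c = if 7 ∈ PR m then 0 else ∑ q ∈ PR m, F7 q * X q := by
    rw [hc]
    by_cases h : (7 : ℤ) ∣ m
    · rw [if_pos h, if_pos ((seven_PR hs).2 h)]
    · rw [if_neg h, if_neg (fun h' => h ((seven_PR hs).1 h'))]
  have hcol : ∀ q ∈ PR m, ∑ p ∈ PR m, Lm m p q * X p + e * al m q + e * ra 3 (ps m q) =
      ∑ p ∈ PR m, Lm m p q * X p + e * G3 m q := by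
    intro q hq
    rw [sig3 hs n3 hq]
    have := z2 (e * al m q)
    linear_combination this
  -- the equation at `3` minus the sign equation
  have hdif : ∑ p ∈ PR m, ra p (-3) * X p + ∑ q ∈ PR m, ra 3 (ps m q) * yy m z X q + e + e + c =
      (∑ q ∈ PR m, al m q * yy m z X q + e + e + c) +
      (∑ p ∈ PR m, G3 m p * z p + ∑ p ∈ PR m, D4 m p * X p) := by
    have e1 : ∑ p ∈ PR m, ra p (-3) * X p = ∑ p ∈ PR m, G3 m p * X p +
        ∑ p ∈ PR m, D4 m p * X p := by
      rw [← sum_add_distrib]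
      refine sum_congr rfl fun p _ => ?_
      unfold G3
      have := z2 (D4 m p * X p)
      linear_combination -this
    have e2 : ∑ q ∈ PR m, ra 3 (ps m q) * yy m z X q = ∑ q ∈ PR m, G3 m q * yy m z X q +
        ∑ q ∈ PR m, al m q * yy m z X q := by
      rw [← sum_add_distrib]
      exact sum_congr rfl fun q hq => by rw [sig3 hs n3 hq, add_mul]
    have e3 := dot_yy (m := m) (G3 m) z X
    rw [sum_eq_zero (s := PR m) (f := fun q => G3 m q * D4 m q) fun q _ => G3_D4 q, mul_zero,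
      add_zero, G3_seven, zero_mul, ite_self, add_zero] at e3
    rw [e1, e2, e3]
    have := z2 (∑ p ∈ PR m, G3 m p * X p)
    linear_combination this
  constructor
  · intro h
    have hX : ∀ q ∈ PR m, ∑ p ∈ PR m, Lm m p q * X p + e * G3 m q = 0 := fun q hq => by
      rw [← hcol q hq]
      exact h.col q hq
    refine ⟨fun p hp => ?_, hX, ?_⟩
    · have h1 := h.row p hp
      rw [row_iff hs hX hc' hp] at h1
      exact h1
    · have h1 := h.at3 h3
      rw [hdif, h.sgn hm, zero_add] at h1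
      exact h1
  · rintro ⟨h1, hX, h2⟩
    have hsgn : ∑ q ∈ PR m, al m q * yy m z X q + e + e + c = 0 := by
      have h4 := sum_row hs hm h3 h7 (z := z) hX
      rw [sum_eq_zero fun p hp => by rw [h1 p hp, mul_zero]] at h4
      have e5 : ∑ q ∈ PR m, al m q * D4 m q = de m := by
        unfold D4
        rw [sum_single]
        rcases zc (de m) with h | h
        · rw [h]
          simp
        · rw [if_pos (de_mem h).1, al_two_de h, h, one_mul]
      have e6 : (if 7 ∈ PR m then al m 7 * ∑ q ∈ PR m, F7 q * X q else 0) + c =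
          ∑ q ∈ PR m, F7 q * X q := by
        rw [hc', al7]
        split_ifs <;> ring
      have e7 := dot_yy (m := m) (al m) z X
      rw [e5, del_de] at e7
      have e8 := z2 e
      linear_combination e7 + e6 + e8 - h4
    refine ⟨fun h => absurd h (by omega), fun h => absurd h3 h, fun h => if_pos h, fun p hp => ?_,
      fun q hq => by rw [hcol q hq]; exact hX q hq, fun _ => hsgn,
      fun _ => by rw [hdif, hsgn, h2, add_zero], fun n7 => ?_⟩
    · rw [row_iff hs hX hc' hp]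
      exact h1 p hp
    · have P7 : 7 ∉ PR m := fun h => n7 ((seven_PR hs).1 h)
      rw [if_neg h7, hc, if_neg n7]
      have e1 : ∑ p ∈ PR m, Lm m p 7 * X p = ∑ p ∈ PR m, F7 p * X p := by
        refine sum_congr rfl fun p hp => ?_
        have h7p : p ≠ 7 := fun h => P7 (h ▸ hp)
        unfold F7
        rw [Lm7r h7p, if_neg h7p]
      rw [e1]
      have e2 := z2 e
      have e3 := z2 (∑ p ∈ PR m, F7 p * X p)
      linear_combination e2 + e3

/-- **the criterion** -/
theorem c21m_iff (hs : Squarefree m) (hm : 0 < m) (h3 : C3 m) (h7 : ¬ C7 m) (h1 : m ≠ 1) :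
    Sg21 m ↔ C21m m := by
  -- a prime divisor
  obtain ⟨r, hr, hrm⟩ : ∃ r : ℕ, r ∈ PR m ∧ (r : ℤ) ∣ m := by
    obtain ⟨r, hr, hrm⟩ := Nat.exists_prime_and_dvd (n := m.natAbs) (by omega)
    exact ⟨r, PR_of_dvd hs hr (Int.natCast_dvd.2 hrm), Int.natCast_dvd.2 hrm⟩
  constructor
  · intro hS z X e e1 e2 e3
    obtain ⟨ha, α, β, g1, g2, g3, g4⟩ := hS _ _ _ _ _ ((sol_iff hs hm h3 h7 z X e).2 ⟨e1, e2, e3⟩)
    rw [if_pos hm] at g1
    rw [ha] at g1
    subst g1
    have hX : ∀ p ∈ PR m, X p = 0 := fun p hp => by rw [g3 p hp, ite_self]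
    have hδ : ∑ q ∈ PR m, D4 m q * X q = 0 := sum_eq_zero fun q hq => by rw [hX q hq, mul_zero]
    have hκ : ∑ q ∈ PR m, F7 q * X q = 0 := sum_eq_zero fun q hq => by rw [hX q hq, mul_zero]
    refine ⟨hX, ha, ?_⟩
    have hz : ∀ p ∈ PR m, z p = β := by
      intro p hp
      have h4 := g4 p hp
      unfold yy at h4
      rw [hδ, hκ, hX p hp, ite_self, zero_mul, add_zero, add_zero, add_zero, add_zero] at h4
      exact h4
    intro p hp q hq
    rw [hz p hp, hz q hq]
  · intro hC x y s a c hxy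
    set t := s + a with ht
    have hA := sol_add hxy (sol_tor hs t)
    rw [if_pos hm, add_zero] at hA
    have hst : s + t = a := by
      rw [ht]
      have := z2 s
      linear_combination this
    rw [hst] at hA
    set X : ℕ → ZMod 2 := fun p => x p + t * dv m p with hX
    set y' : ℕ → ZMod 2 := fun q => y q + if q = 7 then t else 0 with hy'
    have hc : c + (if (7 : ℤ) ∣ m then 0 else t) =
        if (7 : ℤ) ∣ m then 0 else ∑ q ∈ PR m, F7 q * X q := by
      by_cases h : (7 : ℤ) ∣ m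
      · rw [if_pos h, if_pos h, hxy.c0 h, add_zero]
      · have P7 : 7 ∉ PR m := fun h' => h ((seven_PR hs).1 h')
        have h4 := hA.at7 h
        rw [if_neg h7] at h4
        rw [if_neg h] at h4 ⊢
        rw [if_neg h]
        have e1 : ∑ p ∈ PR m, Lm m p 7 * X p = ∑ p ∈ PR m, F7 p * X p := by
          refine sum_congr rfl fun p hp => ?_
          have h7p : p ≠ 7 := fun h => P7 (h ▸ hp)
          unfold F7
          rw [Lm7r h7p, if_neg h7p]
        rw [e1] at h4
        have e2 := z2 a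
        have e3 := z2 (∑ p ∈ PR m, F7 p * X p)
        linear_combination h4 - e2 - e3
    rw [hc] at hA
    have hyy : y' = yy m (yy m y' X) X := by
      funext q
      rw [yy_inv]
    rw [hyy] at hA
    obtain ⟨g1, g2, g3⟩ := (sol_iff hs hm h3 h7 _ X a).1 hA
    obtain ⟨k1, k2, k3⟩ := hC _ _ _ g1 g2 g3
    have hδ : ∑ q ∈ PR m, D4 m q * X q = 0 := sum_eq_zero fun q hq => by rw [k1 q hq, mul_zero]
    have hκ : ∑ q ∈ PR m, F7 q * X q = 0 := sum_eq_zero fun q hq => by rw [k1 q hq, mul_zero]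
    have hyX : ∀ q ∈ PR m, yy m y' X q = y' q := by
      intro q hq
      unfold yy
      rw [hδ, hκ, k1 q hq, ite_self, zero_mul, add_zero, add_zero, add_zero]
    have hs' : s = t := by
      rw [k2] at ht
      rw [ht, add_zero]
    refine ⟨k2, t, y' r, ?_, ?_, fun p hp => ?_, fun q hq => ?_⟩
    · rw [if_pos hm]
      exact hs'
    · rw [hκ, ite_self] at hc
      have e1 := z2 (if (7 : ℤ) ∣ m then (0 : ZMod 2) else t)
      linear_combination hc - e1
    · have h4 : x p + t * dv m p = 0 := k1 p hp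
      have h5 := z2 (t * dv m p)
      have h6 : (if (p : ℤ) ∣ m then t else 0) = t * dv m p := by
        unfold dv
        split_ifs <;> ring
      rw [h6]
      linear_combination h4 - h5
    · have h4 := k3 q hq r hr
      rw [hyX q hq, hyX r hr] at h4
      have h5 : y q + (if q = 7 then t else 0) = y' r := h4
      have h6 := z2 (if q = 7 then t else 0)
      linear_combination h5 - h6

end gen

end Pool.Agent.N972.GC
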