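import Pool.Agent.N972.GC.Sg21c
import Pool.Agent.N972.GC.Ar

/-!
# The criteria of the classes of twists of `X_0(21)` from the criterion `Sg21` (helper972)

Part 4: the translation to discriminants.
-/

set_option autoImplicit false

open Finset

namespace Pool.Agent.N972.GC

open Pool.Agent.N875.X15
open Pool.Agent.N875.P17 (Lm al two_zmod row_sum FP alP_eq starP_odd FD odd_pos)
open Pool.Agent.N875.D15 (mQ mQ_odd mQ_even Ps_FP Ps_pos Ps_nonempty Ps_PR Ps_LLP Ng_mD Ng_pos
  Ng_PR Ng_LL Ng_ls)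
open Pool.Agent.N809.PQ
open Pool.Agent.N809.P17 (de pair)
open Pool.Agent.N973.P15G (Ps Ng)
open Pool.Agent.N969.P17G (LLP alP starP)
open Pool.Agent.N972.P17 (LL ls)
open Pool.Agent.N969.RQ (Fd)
open Pool.Agent.N877.P21G (Ai A0 As Kn K0 K3 K7 K21 Fn I7)

lemma kr_ra {s : ℤ} (hs : s % 8 ≠ 7) (p : ℕ) : kr s p = ra p s := by
  unfold kr ra
  by_cases hp : p = 2
  · subst hp
    rw [if_pos rfl, ch_two]
    by_cases h : s % 8 = 1
    · rw [if_pos (Or.inl h), if_pos h, if_pos rfl]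
    · rw [if_neg (by omega), if_neg h, if_neg (by decide)]
  · rw [if_neg hp, ch_odd hp]

lemma Fd_Ps {A : ℕ} (h : Fd A) : Ps A := by
  obtain ⟨h1, ⟨h2, h3⟩ | h2⟩ := h
  · exact Or.inl ⟨h2, h3, h1⟩
  · exact Or.inr h2

lemma Ps_sqf {A : ℕ} (h : Ps A) : Squarefree (mQ A : ℤ) := by
  rcases Ps_FP h with ⟨h1, -, h3⟩ | h1
  · rw [h3]
    exact Int.squarefree_natCast.2 h1
  · exact Pool.Agent.N875.P17.FP_sq h1

lemma Ps_alP {A : ℕ} (h : Ps A) {p : ℕ} (hp : p ∈ A.primeFactors) : alP A p = al (mQ A : ℤ) p := by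
  rcases Ps_FP h with ⟨h1, h2, h3⟩ | h1
  · rw [h3]
    have hp2 := odd_pos h2 hp
    unfold alP al
    rw [starP_odd hp2, ps_odd hp2]
  · exact alP_eq h1 p

lemma Ps_de {A : ℕ} (h : Ps A) : de (mQ A : ℤ) = if A % 16 = 12 then 1 else 0 := by
  have hs := Ps_sqf h
  have key : (2 ∈ PR (mQ A : ℤ) ∧ d2 (mQ A : ℤ) = -1) ↔ A % 16 = 12 := by
    rcases h with ⟨h1, h2, h3⟩ | ⟨M, rfl, h1, h2⟩
    · rw [mQ_odd (by omega)] at hs ⊢
      constructor
      · rintro ⟨h4, -⟩
        have := (two_mem_PR hs.ne_zero).1 h4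
        omega
      · intro h4
        omega
    · have e : mQ (4 * M) = M := by
        rw [mQ_even (by omega)]
        omega
      rw [e] at hs ⊢
      have h2P : 2 ∈ PR (M : ℤ) := (two_mem_PR hs.ne_zero).2 (by omega)
      obtain ⟨e1, e2⟩ := d2_spec hs
      have ho := oe_mod (M : ℤ)
      constructor
      · rintro ⟨-, h5⟩
        rw [h5] at e1
        omega
      · intro h4
        refine ⟨h2P, ?_⟩
        rcases e2 with ⟨-, h5 | h5⟩ | ⟨h5, -⟩
        · rw [h5] at e1
          omega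
        · exact h5
        · omega
  unfold de
  by_cases h4 : A % 16 = 12
  · rw [if_pos (key.2 h4), if_pos h4]
  · rw [if_neg (fun h5 => h4 (key.1 h5)), if_neg h4]

lemma Ps_d4 {A : ℕ} (h : Ps A) (p : ℕ) : d4 A p = D4 (mQ A : ℤ) p := by
  unfold d4 D4 v4
  rw [Ps_de h]
  by_cases h1 : p = 2 <;> by_cases h2 : A % 16 = 12
  · rw [if_pos ⟨h1, h2⟩, if_pos h1, if_pos h2]
  · rw [if_neg (fun h => h2 h.2), if_pos h1, if_neg h2]
  · rw [if_neg (fun h => h1 h.1), if_neg h1]
  · rw [if_neg (fun h => h1 h.1), if_neg h1]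

lemma Ps_g3 {A : ℕ} (h : Ps A) (p : ℕ) : g3 A p = G3 (mQ A : ℤ) p := by
  have h3 := Ps_d4 h p
  unfold g3 G3
  rw [← h3]
  unfold d4
  by_cases h1 : v4 A p
  · rw [if_pos h1, if_pos h1, h1.1, ra2_3]
    decide
  · rw [if_neg h1, if_neg h1, add_zero, kr_ra (by norm_num)]

lemma k7_eq (p : ℕ) : k7 p = F7 p := by
  unfold k7 F7
  rw [kr_ra (by norm_num)]

/-- the alternating form -/
theorem Ps_Lam {A : ℕ} (h : Ps A) {p q : ℕ} (hp : p ∈ A.primeFactors) (hq : q ∈ A.primeFactors) :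
    Lam A p q = Lm (mQ A : ℤ) p q + Lm (mQ A : ℤ) q p + al (mQ A : ℤ) p * D4 (mQ A : ℤ) q +
      D4 (mQ A : ℤ) p * al (mQ A : ℤ) q + F7 p * F7 q + if p = q then F7 p else 0 := by
  set m : ℤ := (mQ A : ℤ) with hm
  have hs : Squarefree m := Ps_sqf h
  have hp' : p ∈ PR m := by rw [Ps_PR h]; exact hp
  have hq' : q ∈ PR m := by rw [Ps_PR h]; exact hq
  have hv : ∀ r, v4 A r ↔ r = 2 ∧ de m = 1 := by
    intro r
    unfold v4
    rw [hm, Ps_de h]
    refine and_congr_right fun _ => ?_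
    constructor
    · intro h1
      rw [if_pos h1]
    · intro h1
      by_contra h2
      rw [if_neg h2] at h1
      exact absurd h1 (by decide)
  unfold Lam
  by_cases hpq : p = q
  · subst hpq
    rw [if_pos rfl, if_pos rfl]
    have e1 := z2 (Lm m p p)
    have e2 := z2 (al m p * D4 m p)
    have e3 := Pool.Agent.N809.P17.zmul_self (F7 p)
    have e4 := z2 (F7 p)
    linear_combination -e1 - e2 - e3 - e4
  · rw [if_neg hpq, if_neg hpq, add_zero]
    have hqp : ¬ q = p := fun h => hpq h.symm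
    have L1 : Lm m p q = ra p (ps m q) := if_neg hpq
    have L2 : Lm m q p = ra q (ps m p) := if_neg hqp
    have hpr := pair hs hp' hq' hpq
    by_cases h1 : v4 A p
    · rw [if_pos h1]
      obtain ⟨rfl, h2⟩ := (hv p).1 h1
      rw [Ps_LLP h hp hq, ← hm]
      have d2 : D4 m 2 = 1 := by
        unfold D4
        rw [if_pos rfl, h2]
      have dq : D4 m q = 0 := if_neg hqp
      rw [L2, Pool.Agent.N972.GC.F7_two, d2, dq, L1]
      rw [al_two_de h2, h2, if_pos rfl, if_neg hqp] at hpr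
      have e1 := z2 (al m q)
      linear_combination -hpr - e1
    · rw [if_neg h1]
      by_cases h2 : v4 A q
      · rw [if_pos h2]
        obtain ⟨rfl, h3⟩ := (hv q).1 h2
        rw [Ps_LLP h hq hp, ← hm]
        have d2 : D4 m 2 = 1 := by
          unfold D4
          rw [if_pos rfl, h3]
        have dp : D4 m p = 0 := if_neg hpq
        rw [L1, Pool.Agent.N972.GC.F7_two, d2, dp, L2]
        rw [al_two_de h3, h3, if_pos rfl, if_neg hpq] at hpr
        have e1 := z2 (al m p)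
        linear_combination -hpr - e1
      · rw [if_neg h2, Ps_alP h hp, Ps_alP h hq, ← hm, k7_eq, k7_eq]
        have ed : ∀ r, ¬ v4 A r → D4 m r = 0 := by
          intro r hr
          unfold D4
          by_cases h5 : r = 2
          · rw [if_pos h5]
            rcases zc (de m) with h6 | h6
            · exact h6
            · exact absurd ((hv r).2 ⟨h5, h6⟩) hr
          · exact if_neg h5
        have ed2 : ∀ r, ¬ v4 A r → ∀ t : ZMod 2, de m * (if r = 2 then t else 0) = 0 := by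
          intro r hr t
          have h5 := ed r hr
          unfold D4 at h5
          by_cases h6 : r = 2
          · rw [if_pos h6] at h5
            rw [h5, zero_mul]
          · rw [if_neg h6, mul_zero]
        rw [ed2 p h1, ed2 q h2, add_zero, add_zero] at hpr
        rw [ed p h1, ed q h2, L1, L2, hpr]
        ring

/-- **the criterion `C21`** -/
theorem C21_iff {A : ℕ} (h : Ps A) : C21 A ↔ C21m (mQ A : ℤ) := by
  set m : ℤ := (mQ A : ℤ) with hm
  have hP : PR m = A.primeFactors := Ps_PR h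
  have e1 : ∀ (x X : ℕ → ZMod 2) (e : ZMod 2), ∀ p ∈ A.primeFactors,
      ∑ q ∈ A.primeFactors, LLP A p q * x q + ∑ q ∈ A.primeFactors, Lam A p q * X q +
        e * d4 A p = Row m x X e p := by
    intro x X e p hp
    unfold Row
    rw [hP, Ps_d4 h, ← hm]
    have h1 : ∑ q ∈ A.primeFactors, LLP A p q * x q = ∑ q ∈ A.primeFactors, Lm m p q * x q :=
      sum_congr rfl fun q hq => by rw [Ps_LLP h hp hq]
    have h2 : ∑ q ∈ A.primeFactors, Lam A p q * X q =
        ∑ q ∈ A.primeFactors, Lm m p q * X q + ∑ q ∈ A.primeFactors, Lm m q p * X q +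
        al m p * (∑ q ∈ A.primeFactors, D4 m q * X q) +
        D4 m p * (∑ q ∈ A.primeFactors, al m q * X q) +
        F7 p * (∑ q ∈ A.primeFactors, F7 q * X q) + F7 p * X p := by
      have h3 : F7 p * X p = ∑ q ∈ A.primeFactors, (if p = q then F7 p else 0) * X q := by
        rw [sum_congr rfl fun q _ => show (if p = q then F7 p else 0) * X q =
          if p = q then F7 p * X q else 0 by split_ifs <;> ring, sum_ite_eq, if_pos hp]
      rw [h3, mul_sum, mul_sum, mul_sum, ← sum_add_distrib, ← sum_add_distrib, ← sum_add_distrib,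
        ← sum_add_distrib, ← sum_add_distrib]
      refine sum_congr rfl fun q hq => ?_
      rw [Ps_Lam h hp hq, ← hm]
      ring
    rw [h1, h2]
  have e2 : ∀ (X : ℕ → ZMod 2) (e : ZMod 2), ∀ q ∈ A.primeFactors,
      ∑ p ∈ A.primeFactors, LLP A p q * X p + e * g3 A q =
      ∑ p ∈ A.primeFactors, Lm m p q * X p + e * G3 m q := by
    intro X e q hq
    rw [Ps_g3 h, ← hm]
    congr 1
    exact sum_congr rfl fun p hp => by rw [Ps_LLP h hp hq]
  have e3 : ∀ x X : ℕ → ZMod 2, ∑ p ∈ A.primeFactors, g3 A p * x p +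
      ∑ p ∈ A.primeFactors, d4 A p * X p = ∑ p ∈ A.primeFactors, G3 m p * x p +
      ∑ p ∈ A.primeFactors, D4 m p * X p := by
    intro x X
    congr 1
    · exact sum_congr rfl fun p _ => by rw [Ps_g3 h]
    · exact sum_congr rfl fun p _ => by rw [Ps_d4 h]
  unfold C21 C21m
  rw [hP]
  constructor
  · intro H x X e h1 h2 h3
    refine H x X e (fun p hp => ?_) (fun q hq => ?_) ?_
    · rw [e1 x X e p hp]
      unfold Row
      rw [hP]
      exact h1 p hp
    · rw [e2 X e q hq]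
      exact h2 q hq
    · rw [e3]
      exact h3
  · intro H x X e h1 h2 h3
    refine H x X e (fun p hp => ?_) (fun q hq => ?_) ?_
    · have h4 := h1 p hp
      rw [e1 x X e p hp] at h4
      unfold Row at h4
      rw [hP] at h4
      exact h4
    · rw [← e2 X e q hq]
      exact h2 q hq
    · rw [← e3]
      exact h3

/-- **the criterion `CY (-7)`** -/
theorem CY7_iff {A : ℕ} (h : Ps A) : CY (-7) A ↔ Cy7 (mQ A : ℤ) := by
  have hP : PR (mQ A : ℤ) = A.primeFactors := Ps_PR h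
  unfold CY Cy7
  rw [hP]
  have e : ∀ (x : ℕ → ZMod 2) (a : ZMod 2), (∀ p ∈ A.primeFactors,
      ∑ q ∈ A.primeFactors, LLP A p q * x q = a * kr (-7) p) ↔ (∀ p ∈ A.primeFactors,
      ∑ q ∈ A.primeFactors, Lm (mQ A : ℤ) p q * x q = a * ra p (-7)) := by
    intro x a
    refine forall₂_congr fun p hp => ?_
    rw [kr_ra (by norm_num), sum_congr rfl fun q hq => by rw [Ps_LLP h hp hq]]
  refine forall₂_congr fun x a => ?_
  rw [e]

/-- **the criterion `CM (-7) 3`** -/
theorem CM73_iff {n : ℕ} (h : Ng n) : CM (-7) 3 n ↔ Cm73 (-(mQ n : ℤ)) := by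
  have hP : PR (-(mQ n : ℤ)) = n.primeFactors := Ng_PR h
  unfold CM Cm73
  rw [hP]
  have e : ∀ x : ℕ → ZMod 2, (∀ p ∈ n.primeFactors, ∑ q ∈ n.primeFactors, LL n p q * x q =
      (∑ q ∈ n.primeFactors, ls n q 3 * x q) * kr (-7) p) ↔ (∀ p ∈ n.primeFactors,
      ∑ q ∈ n.primeFactors, Lm (-(mQ n : ℤ)) p q * x q =
      (∑ q ∈ n.primeFactors, ra 3 (ps (-(mQ n : ℤ)) q) * x q) * ra p (-7)) := by
    intro x
    refine forall₂_congr fun p hp => ?_
    rw [kr_ra (by norm_num), sum_congr rfl fun q hq => by rw [Ng_LL h hp hq],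
      sum_congr (f := fun q => ls n q 3 * x q) rfl fun q hq => by
        show ls n q 3 * x q = ra 3 (ps (-(mQ n : ℤ)) q) * x q
        rw [Ng_ls h (by norm_num) (by norm_num) hq]]
  refine forall_congr' fun x => ?_
  rw [e]

/-- **the class number criterion** -/
theorem Ct_iff {n : ℕ} (h : Ng n) (h4 : n ≠ 4) : QQ n ↔ Ct (-(mQ n : ℤ)) := by
  have hP : PR (-(mQ n : ℤ)) = n.primeFactors := Ng_PR h
  have h1 : QQ n ↔ Pool.Agent.N855.P17.Ts (fun p q => ls n q p) n.primeFactors := by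
    unfold QQ
    rcases h with ⟨h1, h2⟩ | h1
    · rw [if_neg (by omega), Pool.Agent.N816.P17.Crit.Ts_Qc h1 h2]
    · rw [if_pos (by obtain ⟨k, rfl, -⟩ := h1; exact ⟨2 * k, by ring⟩),
        Pool.Agent.N816.P17.Crit.Ts_Qe h1 h4]
  rw [h1]
  unfold Pool.Agent.N855.P17.Ts Ct
  rw [hP]
  refine forall_congr' fun x => ?_
  have e : (∀ p ∈ n.primeFactors, ∑ q ∈ n.primeFactors,
      Pool.Agent.N855.P17.Lm (fun p q => ls n q p) n.primeFactors p q * x q = 0) ↔
      (∀ p ∈ n.primeFactors, ∑ q ∈ n.primeFactors, Lm (-(mQ n : ℤ)) p q * x q = 0) := by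
    refine forall₂_congr fun p hp => ?_
    have h2 : ∑ q ∈ n.primeFactors,
        Pool.Agent.N855.P17.Lm (fun p q => ls n q p) n.primeFactors p q * x q =
        ∑ q ∈ n.primeFactors, Lm (-(mQ n : ℤ)) p q * x q := by
      refine sum_congr rfl fun q hq => ?_
      rw [← Ng_LL h hp hq]
      rfl
    rw [h2]
  rw [e]

end Pool.Agent.N972.GC
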