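import Pool.Agent.N972.GC.Sg21d
import Pool.Agent.N875.X15.Lin

/-!
# The criteria of the classes of twists of `X_0(21)` and the criterion `Sg21` (helper972)

Part 5: the converse implications and the final statements.
-/

set_option autoImplicit false

open Finset

namespace Pool.Agent.N972.GC

open Pool.Agent.N875.X15
open Pool.Agent.N875.P17 (Lm al two_zmod row_sum)
open Pool.Agent.N875.D15 (mQ mQ_odd mQ_even Ps_FP Ps_pos Ps_nonempty Ps_PR Ps_LLP Ng_mD Ng_pos
  Ng_PR Ng_LL Ng_ls)
open Pool.Agent.N809.PQ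
open Pool.Agent.N809.P17 (de pair al_total)
open Pool.Agent.N973.P15G (Ps Ng)
open Pool.Agent.N969.RQ (Fd)
open Pool.Agent.N877.P21G (Ai A0 As Kn K0 K3 K7 K21 Fn I7)

/-! ### linear algebra -/

/-- a square matrix whose right kernel is spanned by a vector: the left kernel is also one
dimensional -/
theorem left_of_right (P : Finset ℕ) (L : ℕ → ℕ → ZMod 2) (ρ σ : ℕ → ZMod 2) (d : ZMod 2)
    (hR : ∀ (z : ℕ → ZMod 2) (e : ZMod 2), (∀ p ∈ P, ∑ q ∈ P, L p q * z q + e * ρ p = 0) →
      ∑ q ∈ P, σ q * z q + d * e = 0 → e = 0 ∧ ∀ p ∈ P, ∀ q ∈ P, z p = z q)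
    {u0 : ℕ → ZMod 2} {t0 : ZMod 2} (h0 : ∃ p ∈ P, u0 p ≠ 0)
    (k1 : ∀ q ∈ P, ∑ p ∈ P, L p q * u0 p + t0 * σ q = 0) (k2 : ∑ p ∈ P, ρ p * u0 p + d * t0 = 0)
    {u : ℕ → ZMod 2} {t : ZMod 2}
    (l1 : ∀ q ∈ P, ∑ p ∈ P, L p q * u p + t * σ q = 0) (l2 : ∑ p ∈ P, ρ p * u p + d * t = 0) :
    ∃ α : ZMod 2, t = α * t0 ∧ ∀ p ∈ P, u p = α * u0 p := by
  classical
  let B : Matrix (Option P) (Option P) (ZMod 2) := Matrix.of fun i j =>
    match i, j with
    | some p, some q => L p q
    | some p, none => ρ p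
    | none, some q => σ q
    | none, none => d
  have e1 : ∀ (w : Option P → ZMod 2) (q : P), B.transpose.mulVec w (some q) =
      w none * σ q + ∑ p : P, L p q * w (some p) := by
    intro w q
    simp only [Matrix.mulVec, dotProduct, Fintype.sum_option]
    congr 1
    exact mul_comm _ _
  have e2 : ∀ w : Option P → ZMod 2, B.transpose.mulVec w none =
      d * w none + ∑ p : P, ρ p * w (some p) := by
    intro w
    simp only [Matrix.mulVec, dotProduct, Fintype.sum_option]
    rfl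
  have e3 : ∀ (w : Option P → ZMod 2) (p : P), B.mulVec w (some p) =
      w none * ρ p + ∑ q : P, L p q * w (some q) := by
    intro w q
    simp only [Matrix.mulVec, dotProduct, Fintype.sum_option]
    congr 1
    exact mul_comm _ _
  have e4 : ∀ w : Option P → ZMod 2, B.mulVec w none =
      d * w none + ∑ p : P, σ p * w (some p) := by
    intro w
    simp only [Matrix.mulVec, dotProduct, Fintype.sum_option]
    rfl
  let vec : (ℕ → ZMod 2) → ZMod 2 → Option P → ZMod 2 := fun f s i => match i with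
    | some p => f p
    | none => s
  have hsum : ∀ f g : ℕ → ZMod 2, ∑ p : P, f p * g p = ∑ p ∈ P, f p * g p := fun f g =>
    sum_coe_sort P fun p => f p * g p
  have hv : vec u0 t0 ≠ 0 := by
    obtain ⟨p, hp, hp0⟩ := h0
    intro h
    exact hp0 (congrFun h (some ⟨p, hp⟩))
  have hker : ∀ (f : ℕ → ZMod 2) (s : ZMod 2), (∀ q ∈ P, ∑ p ∈ P, L p q * f p + s * σ q = 0) →
      ∑ p ∈ P, ρ p * f p + d * s = 0 → B.transpose.mulVec (vec f s) = 0 := by
    intro f s h1 h2
    funext i
    rcases i with _ | q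
    · rw [e2]
      show d * s + ∑ p : P, ρ p * f p = 0
      rw [hsum, add_comm]
      exact h2
    · rw [e1]
      show s * σ q + ∑ p : P, L p q * f p = 0
      rw [hsum (fun p => L p q), add_comm]
      exact h1 q q.2
  have hR' : ∀ x : Option P → ZMod 2, B.transpose.transpose.mulVec x = 0 →
      x = 0 ∨ x = vec (fun _ => 1) 0 := by
    intro x hx
    rw [Matrix.transpose_transpose] at hx
    let f : ℕ → ZMod 2 := fun p => if h : p ∈ P then x (some ⟨p, h⟩) else 0
    have hf : ∀ p : P, f p = x (some p) := fun p => dif_pos p.2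
    have h1 := hR f (x none) (fun p hp => by
      have h2 := congrFun hx (some ⟨p, hp⟩)
      rw [e3] at h2
      rw [← hsum (fun q => L p q)]
      simp only [hf]
      rw [add_comm]
      exact h2) (by
      have h2 := congrFun hx none
      rw [e4] at h2
      rw [← hsum σ]
      simp only [hf]
      rw [add_comm]
      exact h2)
    obtain ⟨p0, hp0, -⟩ := h0
    rcases zc (f p0) with h2 | h2
    · left
      funext i
      rcases i with _ | p
      · exact h1.1
      · rw [← hf p, h1.2 p p.2 p0 hp0, h2]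
        rfl
    · right
      funext i
      rcases i with _ | p
      · exact h1.1
      · rw [← hf p, h1.2 p p.2 p0 hp0, h2]
  have h5 := ker_transpose B.transpose (vec (fun _ => 1) 0) hR' (vec u0 t0) hv (hker u0 t0 k1 k2)
    (vec u t) (hker u t l1 l2)
  rcases h5 with h | h
  · refine ⟨0, ?_, fun p hp => ?_⟩
    · rw [zero_mul]
      exact congrFun h none
    · rw [zero_mul]
      exact congrFun h (some ⟨p, hp⟩)
  · refine ⟨1, ?_, fun p hp => ?_⟩
    · rw [one_mul]
      exact congrFun h none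
    · rw [one_mul]
      exact congrFun h (some ⟨p, hp⟩)

section gen

variable {m : ℤ}

lemma ex_dv (hs : Squarefree m) (h1 : m ≠ 1) (h2 : m ≠ -1) : ∃ p ∈ PR m, dv m p ≠ 0 := by
  obtain ⟨r, hr, hrm⟩ := Nat.exists_prime_and_dvd (n := m.natAbs) (by omega)
  refine ⟨r, PR_of_dvd hs hr (Int.natCast_dvd.2 hrm), ?_⟩
  unfold dv
  rw [if_pos (Int.natCast_dvd.2 hrm)]
  decide

lemma col_dv (hs : Squarefree m) {q : ℕ} (hq : q ∈ PR m) :
    ∑ p ∈ PR m, Lm m p q * dv m p + (if 0 < m then 1 else 0) * al m q = 0 := col_tor hs hq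

lemma dv_L7 (hs : Squarefree m) {p : ℕ} (hp : p ∈ PR m) : Lm m p 7 * dv m p = Lm m p 7 := by
  by_cases h : p = 2
  · subst h
    rw [Lm7_two, zero_mul]
  · unfold dv
    rw [if_pos (dvd_PR hs hp h), mul_one]

theorem sg_of_cy7 (hs : Squarefree m) (hm : 0 < m) (h1 : m ≠ 1) (h3 : ¬ C3 m) (h7 : C7 m)
    (hC : Cy7 m) : Sg21 m := by
  intro x y s a c h
  have n7 : ¬ (7 : ℤ) ∣ m := by unfold C7 at h7; omega
  have P7 : 7 ∉ PR m := fun h => n7 ((seven_PR hs).1 h)
  have hL : ∀ p ∈ PR m, Lm m p 7 = ra p (-7) := fun p hp => Lm7r (fun h => P7 (h ▸ hp))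
  have ha := h.a0 h3
  subst ha
  obtain ⟨α, e1, e2⟩ := left_of_right (PR m) (Lm m) (fun p => ra p (-7)) (al m) 1
    (fun z e g1 g2 => hC z e fun p hp => by
      have := g1 p hp
      have h5 := z2 (e * ra p (-7))
      linear_combination this - h5)
    (u0 := dv m) (t0 := 1) (ex_dv hs h1 (by omega))
    (fun q hq => by
      have h4 := col_dv hs hq
      rwa [if_pos hm] at h4)
    (by
      have h4 := sum7 hs n7
      rw [ra7, if_neg (by unfold C7 at h7; omega)] at h4
      have h5 : ∑ p ∈ PR m, ra p (-7) * dv m p = 1 := by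
        rw [← h4]
        exact sum_congr rfl fun p _ => mul_comm _ _
      rw [h5]
      decide)
    (u := x) (t := s)
    (fun q hq => by
      have h4 := h.col q hq
      rwa [zero_mul, add_zero] at h4)
    (by
      have h4 := h.at7 n7
      rw [if_pos h7, add_zero, add_zero, sum_congr rfl fun p hp => by rw [hL p hp]] at h4
      rw [one_mul]
      exact h4)
  rw [mul_one] at e1
  subst e1
  have h6 := hC y (s + c) fun p hp => by
    have h4 := h.row p hp
    have h5 := dv_L7 hs hp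
    rw [e2 p hp] at h4
    rw [← hL p hp]
    have h8 := z2 ((s + c) * Lm m p 7)
    linear_combination h4 - s * h5 - h8
  obtain ⟨r, hr, -⟩ := ex_dv hs h1 (by omega)
  have hc : c = s := by
    have := z2 s
    linear_combination h6.1 - this
  refine ⟨rfl, s, y r, ?_, ?_, fun p hp => ?_, fun q hq => ?_⟩
  · rw [if_pos hm]
  · rw [if_neg n7]
    exact hc
  · rw [e2 p hp]
    unfold dv
    split_ifs <;> ring
  · have hq7 : q ≠ 7 := fun h => P7 (h ▸ hq)
    rw [if_neg hq7, add_zero]
    exact h6.2 q hq r hr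

theorem sum_sig3 (hs : Squarefree m) (h3 : C3 m) : ∑ q ∈ PR m, ra 3 (ps m q) = 0 := by
  unfold C3 at h3
  have h6 : 3 ∉ PR m := fun h => by
    have := dvd_PR hs h (by norm_num)
    push_cast at this
    omega
  rw [sum_ra_ps hs (by norm_num) h6, ra3, if_pos h3]

theorem sg_of_cm73 (hs : Squarefree m) (hm : m < 0) (h3 : C3 m) (h7 : C7 m)
    (hC : Cm73 m) : Sg21 m := by
  intro x y s a c h
  have h1 : m ≠ -1 := by rintro rfl; unfold C3 at h3; omega
  have n7 : ¬ (7 : ℤ) ∣ m := by unfold C7 at h7; omega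
  have n3 : ¬ (3 : ℤ) ∣ m := by unfold C3 at h3; omega
  have P7 : 7 ∉ PR m := fun h => n7 ((seven_PR hs).1 h)
  have hL : ∀ p ∈ PR m, Lm m p 7 = ra p (-7) := fun p hp => Lm7r (fun h => P7 (h ▸ hp))
  have hs0 := h.s0 hm
  subst hs0
  obtain ⟨r, hr, hr0⟩ := ex_dv hs (by omega) h1
  -- constant vectors
  have cst : ∀ z : ℕ → ZMod 2, (∀ p ∈ PR m, ∀ q ∈ PR m, z p = z q) →
      ∑ q ∈ PR m, ra 3 (ps m q) * z q = 0 := by
    intro z hz
    have : ∑ q ∈ PR m, ra 3 (ps m q) * z q = (∑ q ∈ PR m, ra 3 (ps m q)) * z r := by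
      rw [sum_mul]
      exact sum_congr rfl fun q hq => by rw [hz q hq r hr]
    rw [this, sum_sig3 hs h3, zero_mul]
  obtain ⟨α, e1, e2⟩ := left_of_right (PR m) (Lm m) (fun p => ra p (-7)) (fun q => ra 3 (ps m q)) 1
    (fun z e g1 g2 => by
      rw [one_mul] at g2
      have h5 := z2 e
      have h6 : ∑ q ∈ PR m, ra 3 (ps m q) * z q = e := by linear_combination g2 - h5
      have h8 := hC z fun p hp => by
        rw [h6]
        have := g1 p hp
        have h5 := z2 (e * ra p (-7))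
        linear_combination this - h5
      exact ⟨by rw [← h6]; exact cst z h8, h8⟩)
    (u0 := dv m) (t0 := 0) ⟨r, hr, hr0⟩
    (fun q hq => by
      have h4 := col_dv hs hq
      rw [if_neg (by omega), zero_mul] at h4
      rw [zero_mul]
      exact h4)
    (by
      have h4 := sum7 hs n7
      rw [ra7, if_pos (by unfold C7 at h7; omega)] at h4
      have h5 : ∑ p ∈ PR m, ra p (-7) * dv m p = 0 := by
        rw [← h4]
        exact sum_congr rfl fun p _ => mul_comm _ _
      rw [h5]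
      decide)
    (u := x) (t := a)
    (fun q hq => by
      have h4 := h.col q hq
      rwa [zero_mul, add_zero] at h4)
    (by
      have h4 := h.at7 n7
      rw [if_pos h7, add_zero, add_zero, sum_congr rfl fun p hp => by rw [hL p hp]] at h4
      rw [one_mul]
      exact h4)
  rw [mul_zero] at e1
  subst e1
  have hy3 : ∑ q ∈ PR m, ra 3 (ps m q) * y q = α + c := by
    have h4 := h.at3 h3
    have h5 : ∑ p ∈ PR m, ra p (-3) * x p = α := by
      have h6 := sum3 hs n3
      rw [ra3, if_neg (by unfold C3 at h3; omega)] at h6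
      have h8 : ∑ p ∈ PR m, ra p (-3) * x p = (∑ p ∈ PR m, dv m p * ra p (-3)) * α := by
        rw [sum_mul]
        exact sum_congr rfl fun p hp => by rw [e2 p hp]; ring
      rw [h8, h6, one_mul]
    rw [h5] at h4
    have h9 := z2 α
    have h10 := z2 c
    linear_combination h4 - h9 - h10
  have h6 := hC y fun p hp => by
    rw [hy3]
    have h4 := h.row p hp
    have h5 := dv_L7 hs hp
    rw [e2 p hp] at h4
    rw [← hL p hp]
    have h8 := z2 ((α + c) * Lm m p 7)
    linear_combination h4 - α * h5 - h8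
  have hc : c = α := by
    rw [cst y h6] at hy3
    have := z2 α
    linear_combination -hy3 - this
  refine ⟨rfl, α, y r, ?_, ?_, fun p hp => ?_, fun q hq => ?_⟩
  · rw [if_neg (by omega)]
  · rw [if_neg n7]
    exact hc
  · rw [e2 p hp]
    unfold dv
    split_ifs <;> ring
  · have hq7 : q ≠ 7 := fun h => P7 (h ▸ hq)
    rw [if_neg hq7, add_zero]
    exact h6 q hq r hr

theorem sg_of_ct (hs : Squarefree m) (hm : m < 0) (h3 : ¬ C3 m) (h7 : ¬ C7 m)
    (hC : Ct m) : Sg21 m := by
  intro x y s a c h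
  have h1 : m ≠ -1 := by rintro rfl; unfold C7 at h7; omega
  have ha := h.a0 h3
  subst ha
  have hs0 := h.s0 hm
  subst hs0
  obtain ⟨r, hr, hr0⟩ := ex_dv hs (by omega) h1
  obtain ⟨α, -, e2⟩ := left_of_right (PR m) (Lm m) (fun _ => 0) (fun _ => 0) 1
    (fun z e g1 g2 => by
      simp only [zero_mul, sum_const_zero, one_mul, zero_add] at g2
      exact ⟨g2, hC z fun p hp => by have := g1 p hp; rwa [mul_zero, add_zero] at this⟩)
    (u0 := dv m) (t0 := 0) ⟨r, hr, hr0⟩
    (fun q hq => by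
      have h4 := col_dv hs hq
      rw [if_neg (by omega), zero_mul] at h4
      rw [zero_mul]
      exact h4)
    (by simp)
    (u := x) (t := 0)
    (fun q hq => by
      have h4 := h.col q hq
      rw [zero_mul, zero_mul] at h4
      simp only [add_zero] at h4
      rw [zero_mul, add_zero]
      exact h4)
    (by simp)
  by_cases n7 : (7 : ℤ) ∣ m
  · have hP7 := (seven_PR hs).2 n7
    have hc := h.c0 n7
    subst hc
    have h6 := hC (fun q => y q + if q = 7 then α else 0) fun p hp => by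
      have h4 := h.row p hp
      have h5 := dv_L7 hs hp
      rw [e2 p hp] at h4
      have h8 : ∑ q ∈ PR m, Lm m p q * (y q + if q = 7 then α else 0) =
          ∑ q ∈ PR m, Lm m p q * y q + Lm m p 7 * α := by
        have h9 := sum_single (PR m) (Lm m p) 7 α
        rw [if_pos hP7] at h9
        rw [← h9, ← sum_add_distrib]
        exact sum_congr rfl fun q _ => mul_add _ _ _
      rw [h8]
      linear_combination h4 - α * h5
    refine ⟨rfl, α, y r + if r = 7 then α else 0, ?_, ?_, fun p hp => ?_, fun q hq => ?_⟩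
    · rw [if_neg (by omega)]
    · rw [if_pos n7]
    · rw [e2 p hp]
      unfold dv
      split_ifs <;> ring
    · have h5 := h6 q hq r hr
      have h8 := z2 (if q = 7 then α else 0)
      linear_combination h5 - h8
  · have P7 : 7 ∉ PR m := fun h => n7 ((seven_PR hs).1 h)
    have hL : ∀ p ∈ PR m, Lm m p 7 = ra p (-7) := fun p hp => Lm7r (fun h => P7 (h ▸ hp))
    have hc : c = α := by
      have h4 := h.at7 n7
      rw [if_neg h7, sum_congr rfl fun p hp => by rw [hL p hp, e2 p hp]] at h4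
      have h6 := sum7 hs n7
      rw [ra7, if_neg (by unfold C7 at h7; omega)] at h6
      have h8 : ∑ p ∈ PR m, ra p (-7) * (α * dv m p) = α := by
        have h9 : ∑ p ∈ PR m, ra p (-7) * (α * dv m p) =
            (∑ p ∈ PR m, dv m p * ra p (-7)) * α := by
          rw [sum_mul]
          exact sum_congr rfl fun p _ => by ring
        rw [h9, h6, one_mul]
      rw [h8] at h4
      have := z2 α
      linear_combination h4 - this
    subst hc
    have h6 := hC y fun p hp => by
      have h4 := h.row p hp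
      have h5 := dv_L7 hs hp
      rw [e2 p hp] at h4
      have h8 := z2 (c * Lm m p 7)
      linear_combination h4 - c * h5 - h8
    refine ⟨rfl, c, y r, ?_, ?_, fun p hp => ?_, fun q hq => ?_⟩
    · rw [if_neg (by omega)]
    · rw [if_neg n7]
    · rw [e2 p hp]
      unfold dv
      split_ifs <;> ring
    · have hq7 : q ≠ 7 := fun h => P7 (h ▸ hq)
      rw [if_neg hq7, add_zero]
      exact h6 q hq r hr

end gen

/-! ### the final statements -/

lemma Fd_ne_one {A : ℕ} (h : Ps A) : (mQ A : ℤ) ≠ 1 := by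
  rcases h with ⟨h1, h2, h3⟩ | ⟨M, rfl, h1, h2⟩
  · rw [mQ_odd (by omega)]
    exact_mod_cast h3.ne'
  · rw [mQ_even (by omega)]
    have : 4 * M / 4 = M := by omega
    rw [this]
    have : M ≠ 1 := by omega
    exact_mod_cast this

lemma Ng_sqf {n : ℕ} (h : Ng n) : Squarefree (-(mQ n : ℤ)) := by
  rw [← Ng_mD h]
  exact Pool.Agent.N875.P17.mD_sqf h

lemma jac7 {A : ℕ} : (jacobiSym A 7 = 1 ↔ (A % 7 = 1 ∨ A % 7 = 2 ∨ A % 7 = 4)) ∧
    (jacobiSym A 7 = -1 ↔ (A % 7 = 3 ∨ A % 7 = 5 ∨ A % 7 = 6)) := by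
  have h0 : jacobiSym (A : ℤ) 7 = jacobiSym ((A % 7 : ℕ) : ℤ) 7 := by
    refine jacobiSym.mod_left' ?_
    push_cast
    rw [Int.emod_emod_of_dvd _ (dvd_refl _)]
  have h1 : A % 7 < 7 := Nat.mod_lt _ (by norm_num)
  rw [h0]
  generalize A % 7 = k at h1 ⊢
  interval_cases k <;> norm_num

/-- four times a number modulo `3` and `7` -/
lemma mQ_mod {A : ℕ} (h : Ps A ∨ Ng A) : (mQ A % 3 = A % 3) ∧
    ((A % 7 = 0 ∧ mQ A % 7 = 0) ∨
    ((A % 7 = 1 ∨ A % 7 = 2 ∨ A % 7 = 4) ∧ (mQ A % 7 = 1 ∨ mQ A % 7 = 2 ∨ mQ A % 7 = 4)) ∨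
    ((A % 7 = 3 ∨ A % 7 = 5 ∨ A % 7 = 6) ∧ (mQ A % 7 = 3 ∨ mQ A % 7 = 5 ∨ mQ A % 7 = 6))) := by
  have h4 : (2 ∣ A → 4 ∣ A) := by
    rcases h with (⟨h1, h2, h3⟩ | ⟨M, rfl, h1, h2⟩) | (⟨h1, h2⟩ | ⟨M, rfl, h1⟩)
    · omega
    · intro _
      exact ⟨M, rfl⟩
    · omega
    · intro _
      exact ⟨M, rfl⟩
  unfold mQ
  split_ifs with h2
  · obtain ⟨M, rfl⟩ := h4 h2
    have : 4 * M / 4 = M := by omega
    rw [this]
    have h7 : M % 7 = 0 ∨ M % 7 = 1 ∨ M % 7 = 2 ∨ M % 7 = 3 ∨ M % 7 = 4 ∨ M % 7 = 5 ∨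
      M % 7 = 6 := by omega
    refine ⟨by omega, ?_⟩
    rcases h7 with h7 | h7 | h7 | h7 | h7 | h7 | h7
    · exact Or.inl ⟨by omega, h7⟩
    · exact Or.inr (Or.inl ⟨by omega, by omega⟩)
    · exact Or.inr (Or.inl ⟨by omega, by omega⟩)
    · exact Or.inr (Or.inr ⟨by omega, by omega⟩)
    · exact Or.inr (Or.inl ⟨by omega, by omega⟩)
    · exact Or.inr (Or.inr ⟨by omega, by omega⟩)
    · exact Or.inr (Or.inr ⟨by omega, by omega⟩)
  · omega

end Pool.Agent.N972.GC
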